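import Pool.Agent.H88.ST.Dev

/-!
# The action of the lattice
-/

open Set Metric Filter Topology

namespace Pool.Agent.H88.ST

/-- the action of `ℤ⁵` on `ℝ⁵` -/
def act (n : Fin 5 → ℤ) (q : R5) : R5 :=
  ![q 0 + n 0, q 1 + n 1, q 2 + n 2, q 3 + n 3, q 4 + n 4 - n 0 * q 1 - n 2 * q 3]

/-- its linear part -/
noncomputable def Lact (n : Fin 5 → ℤ) : R5 →L[ℝ] R5 :=
  ContinuousLinearMap.id ℝ R5 -
    ((n 0 : ℝ) • pr 1 + (n 2 : ℝ) • pr 3).smulRight (Pi.single 4 1 : R5)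

lemma Lact_apply (n : Fin 5 → ℤ) (w : R5) (i : Fin 5) :
    Lact n w i = w i - (n 0 * w 1 + n 2 * w 3) * (Pi.single 4 1 : R5) i := by
  simp [Lact]

lemma act_eq (n : Fin 5 → ℤ) (q : R5) : act n q = Lact n q + fun i => (n i : ℝ) := by
  ext i
  rw [Pi.add_apply, Lact_apply]
  fin_cases i <;> simp [act] <;> ring

lemma act_hasFDerivAt (n : Fin 5 → ℤ) (q : R5) : HasFDerivAt (act n) (Lact n) q := by
  have : act n = fun q => Lact n q + fun i => (n i : ℝ) := funext (act_eq n)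
  rw [this]
  exact (Lact n).hasFDerivAt.add_const _

lemma act_continuous (n : Fin 5 → ℤ) : Continuous (act n) := by
  have : act n = fun q => Lact n q + fun i => (n i : ℝ) := funext (act_eq n)
  rw [this]
  fun_prop

lemma MC_act (n : Fin 5 → ℤ) (q : R5) : (MC (act n q)).comp (Lact n) = MC q := by
  ext w i
  rw [ContinuousLinearMap.comp_apply, MC_apply, MC_apply, Lact_apply, Lact_apply, Lact_apply]
  fin_cases i <;> simp [act] <;> ring

/-- every point can be moved to the unit cube -/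
lemma exists_act_mem (q : R5) : ∃ n, act n q ∈ Icc (0 : R5) 1 := by
  refine ⟨![-⌊q 0⌋, -⌊q 1⌋, -⌊q 2⌋, -⌊q 3⌋,
    -⌊q 4 - (-⌊q 0⌋ : ℤ) * q 1 - (-⌊q 2⌋ : ℤ) * q 3⌋], ?_⟩
  have h0 := Int.floor_le (q 0)
  have h0' := Int.lt_floor_add_one (q 0)
  have h1 := Int.floor_le (q 1)
  have h1' := Int.lt_floor_add_one (q 1)
  have h2 := Int.floor_le (q 2)
  have h2' := Int.lt_floor_add_one (q 2)
  have h3 := Int.floor_le (q 3)
  have h3' := Int.lt_floor_add_one (q 3)
  have h4 := Int.floor_le (q 4 - (-⌊q 0⌋ : ℤ) * q 1 - (-⌊q 2⌋ : ℤ) * q 3)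
  have h4' := Int.lt_floor_add_one (q 4 - (-⌊q 0⌋ : ℤ) * q 1 - (-⌊q 2⌋ : ℤ) * q 3)
  rw [← Set.pi_univ_Icc, Set.mem_univ_pi]
  intro i
  fin_cases i
  · simp [act]; constructor <;> linarith
  · simp [act]; constructor <;> linarith
  · simp [act]; constructor <;> linarith
  · simp [act]; constructor <;> linarith
  · simp only [act]
    simp only [Fin.reduceFinMk, Fin.isValue, Matrix.cons_val_zero, Matrix.cons_val, Pi.zero_apply,
      Pi.one_apply, mem_Icc]
    push_cast at h4 h4' ⊢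
    constructor <;> linarith

/-- the group element moving `a` to `b`, as a continuous function -/
def Nf (a b : R5) : R5 :=
  ![b 0 - a 0, b 1 - a 1, b 2 - a 2, b 3 - a 3, b 4 - a 4 + (b 0 - a 0) * a 1 + (b 2 - a 2) * a 3]

lemma Nf_act (n : Fin 5 → ℤ) (a : R5) : Nf a (act n a) = fun i => (n i : ℝ) := by
  ext i
  fin_cases i <;> simp [Nf, act]
  ring

lemma Nf_continuous : Continuous fun p : R5 × R5 => Nf p.1 p.2 := by
  unfold Nf
  refine continuous_pi fun i => ?_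
  fin_cases i <;> simp <;> fun_prop

/-- inverse -/
lemma exists_act_inv (n : Fin 5 → ℤ) : ∃ m : Fin 5 → ℤ, ∀ q, act m (act n q) = q := by
  refine ⟨![-n 0, -n 1, -n 2, -n 3, -n 4 - n 0 * n 1 - n 2 * n 3], fun q => ?_⟩
  ext i
  fin_cases i <;> simp [act]
  ring

/-- composition -/
lemma exists_act_comp (m n : Fin 5 → ℤ) : ∃ k : Fin 5 → ℤ, ∀ q, act m (act n q) = act k q := by
  refine ⟨![m 0 + n 0, m 1 + n 1, m 2 + n 2, m 3 + n 3, m 4 + n 4 - m 0 * n 1 - m 2 * n 3],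
    fun q => ?_⟩
  ext i
  fin_cases i <;> simp [act] <;> ring

/-- two continuous lifts differ locally by a constant group element -/
lemma loc_const_act {X : Type*} [TopologicalSpace X] {Q Q' : X → R5} {y : X}
    (hQ : ContinuousAt Q y) (hQ' : ContinuousAt Q' y)
    (h : ∀ᶠ y' in 𝓝 y, ∃ n, Q' y' = act n (Q y')) :
    ∃ n, ∀ᶠ y' in 𝓝 y, Q' y' = act n (Q y') := by
  obtain ⟨n, hn⟩ := h.self_of_nhds
  refine ⟨n, ?_⟩
  have hc : ContinuousAt (fun y' => Nf (Q y') (Q' y')) y :=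
    (Nf_continuous.continuousAt (x := (Q y, Q' y))).comp (f := fun y' => (Q y', Q' y'))
      (hQ.prodMk hQ')
  have h1 := Metric.continuousAt_iff'.1 hc 1 one_pos
  filter_upwards [h, h1] with y' hy' hd
  obtain ⟨m, hm⟩ := hy'
  rw [hm, hn, Nf_act, Nf_act] at hd
  have : m = n := by
    ext i
    have h2 := (dist_pi_lt_iff one_pos).1 hd i
    rw [Real.dist_eq] at h2
    have h3 : |(m i - n i : ℤ)| < 1 := by exact_mod_cast h2
    have h4 := Int.abs_lt_one_iff.1 h3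
    omega
  rw [hm, this]

end Pool.Agent.H88.ST
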