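import Pool.Agent.H88.ST.Push
import Pool.Agent.H88.ST.Act

/-!
# The collar of the boundary
-/

open Set Metric Filter Topology
open scoped Manifold ContDiff

namespace Pool.Agent.H88.ST

variable {V : Type*} [NormedAddCommGroup V] [NormedSpace ℝ V] [FiniteDimensional ℝ V]
  {X : Type*} [TopologicalSpace X] [T2Space X] [ChartedSpace V X] [IsManifold 𝓘(ℝ, V) ∞ X]

/-- the boundary data in real terms -/
structure Bd (V : Type*) [NormedAddCommGroup V] [NormedSpace ℝ V]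
    {X : Type*} [TopologicalSpace X] [ChartedSpace V X] (φ : X → ℝ) (c : ℝ) (f : R5 → X) :
    Prop where
  phi : ContMDiff 𝓘(ℝ, V) 𝓘(ℝ, ℝ) ∞ φ
  cpt : IsCompact {x | φ x ≤ c}
  reg : ∀ x, φ x = c → fderiv ℝ (φ ∘ (chartAt V x).symm) (chartAt V x x) ≠ 0
  smooth : ContMDiff 𝓘(ℝ, R5) 𝓘(ℝ, V) ∞ f
  imm : ∀ q, Function.Injective (fderiv ℝ (chartAt V (f q) ∘ f) q)
  range : ∀ x, φ x = c ↔ ∃ q, f q = x
  eq : ∀ q q', f q = f q' ↔ ∃ n, q' = act n q

omit [T2Space X] in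
lemma local_inv {φ : X → ℝ} {c : ℝ} {f : R5 → X} (hV : Module.finrank ℝ V = 6)
    (h : Bd V φ c f) {T : X × ℝ → X} (hT : PushProp V φ T {x | φ x = c}) (q : R5) :
    ∃ (Q : X → R5) (S : X → ℝ), (∀ᶠ y in 𝓝 (f q), T (f (Q y), S y) = y ∧
      ContMDiffAt 𝓘(ℝ, V) 𝓘(ℝ, R5) 2 Q y) ∧ Q (f q) = q ∧ S (f q) = 0 ∧
      ContinuousAt S (f q) ∧
      ∀ᶠ p : R5 × ℝ in 𝓝 (q, 0), Q (T (f p.1, p.2)) = p.1 ∧ S (T (f p.1, p.2)) = p.2 := by
  set x := f q with hx
  have hφx : φ x = c := (h.range x).2 ⟨q, rfl⟩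
  set e := chartAt V x with he
  have hea : e ∈ atlas V X := chart_mem_atlas V x
  have hxs : x ∈ e.source := mem_chart_source V x
  set Ψ : R5 × ℝ → X := fun p => T (f p.1, p.2) with hΨ
  have hΨ0 : ∀ p : R5, Ψ (p, 0) = f p := fun p => hT.zero _
  have hΨs : ContMDiffAt (𝓘(ℝ, R5).prod 𝓘(ℝ, ℝ)) 𝓘(ℝ, V) 2 Ψ (q, 0) := by
    have h1 : ContMDiffAt (𝓘(ℝ, R5).prod 𝓘(ℝ, ℝ)) (𝓘(ℝ, V).prod 𝓘(ℝ, ℝ)) 2
        (fun p : R5 × ℝ => (f p.1, p.2)) (q, 0) :=
      (((h.smooth q).of_le two_le_inf).comp (q, (0 : ℝ)) contMDiffAt_fst).prodMk contMDiffAt_snd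
    exact ContMDiffAt.comp (q, (0 : ℝ)) (g := T) (f := fun p : R5 × ℝ => (f p.1, p.2))
      (hT.smooth x) h1
  have hecd : ContMDiffAt 𝓘(ℝ, V) 𝓘(ℝ, V) 2 e x := by
    have : ContMDiffAt 𝓘(ℝ, V) 𝓘(ℝ, V) ∞ e x :=
      contMDiffAt_of_mem_maximalAtlas (IsManifold.subset_maximalAtlas hea) hxs
    exact this.of_le two_le_inf
  have hecd' : ContMDiffAt 𝓘(ℝ, V) 𝓘(ℝ, V) 2 e (Ψ (q, 0)) := by rw [hΨ0]; exact hecd
  have hΨc : ContDiffAt ℝ 2 (e ∘ Ψ) (q, 0) := by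
    have h1 : ContMDiffAt (𝓘(ℝ, R5).prod 𝓘(ℝ, ℝ)) 𝓘(ℝ, V) 2 (e ∘ Ψ) (q, 0) :=
      ContMDiffAt.comp (q, (0 : ℝ)) (g := e) hecd' hΨs
    rw [← modelWithCornersSelf_prod, chartedSpaceSelf_prod] at h1
    exact h1.contDiffAt
  set L := fderiv ℝ (e ∘ Ψ) (q, 0) with hL
  have hLd : HasFDerivAt (e ∘ Ψ) L (q, 0) := (hΨc.differentiableAt (by norm_num)).hasFDerivAt
  have hsrc : ∀ᶠ p in 𝓝 (q, (0 : ℝ)), Ψ p ∈ e.source := by
    have h1 : ∀ᶠ y in 𝓝 (Ψ (q, 0)), y ∈ e.source := by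
      rw [hΨ0]
      exact e.open_source.mem_nhds hxs
    exact hΨs.continuousAt.eventually h1
  -- first partial derivative
  have hL1 : ∀ w : R5, L (w, 0) = fderiv ℝ (e ∘ f) q w := by
    intro w
    have h1 : HasFDerivAt (fun p : R5 => (e ∘ Ψ) (p, (0 : ℝ)))
        (L.comp (ContinuousLinearMap.inl ℝ R5 ℝ)) q := by
      have h2 : HasFDerivAt (fun p : R5 => (p, (0 : ℝ))) (ContinuousLinearMap.inl ℝ R5 ℝ) q :=
        hasFDerivAt_prodMk_left q 0
      exact hLd.comp q h2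
    have h2 : (fun p : R5 => (e ∘ Ψ) (p, (0 : ℝ))) = e ∘ f := by
      funext p
      simp only [Function.comp_apply, hΨ0]
    rw [h2] at h1
    rw [h1.fderiv]
    simp
  -- composition with φ
  set D := fderiv ℝ (φ ∘ e.symm) (e x) with hD
  have hDd : HasFDerivAt (φ ∘ e.symm) D (e x) :=
    ((contDiffAt_comp_symm (n := 2) hea (e.map_source hxs)
      ((h.phi _).of_le two_le_inf)).differentiableAt (by norm_num)).hasFDerivAt
  have hDd' : HasFDerivAt (φ ∘ e.symm) D ((e ∘ Ψ) (q, 0)) := by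
    rw [Function.comp_apply, hΨ0]
    exact hDd
  have hDL : HasFDerivAt (φ ∘ Ψ) (D.comp L) (q, (0 : ℝ)) := by
    refine (hDd'.comp (q, (0 : ℝ)) hLd).congr_of_eventuallyEq ?_
    filter_upwards [hsrc] with p hp
    simp only [Function.comp_apply]
    rw [e.left_inv hp]
  have hD1 : ∀ w : R5, D (L (w, 0)) = 0 := by
    intro w
    have h1 : HasFDerivAt (fun p : R5 => (φ ∘ Ψ) (p, (0 : ℝ)))
        ((D.comp L).comp (ContinuousLinearMap.inl ℝ R5 ℝ)) q := by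
      have h2 : HasFDerivAt (fun p : R5 => (p, (0 : ℝ))) (ContinuousLinearMap.inl ℝ R5 ℝ) q :=
        hasFDerivAt_prodMk_left q 0
      exact hDL.comp q h2
    have h2 : (fun p : R5 => (φ ∘ Ψ) (p, (0 : ℝ))) = fun _ => c := by
      funext p
      simp only [Function.comp_apply, hΨ0]
      exact (h.range _).2 ⟨p, rfl⟩
    rw [h2] at h1
    have h3 := h1.unique (hasFDerivAt_const c q)
    have h4 := congrArg (fun M : R5 →L[ℝ] ℝ => M w) h3
    simpa using h4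
  have hD2 : 0 < D (L (0, 1)) := by
    obtain ⟨l, -, hl, hpos⟩ := hT.deriv x
    have h1 : HasDerivAt (fun s : ℝ => (φ ∘ Ψ) (q, s)) ((D.comp L) (0, 1)) 0 :=
      HasFDerivAt.comp_hasDerivAt (f := fun s : ℝ => (q, s)) (0 : ℝ) hDL
        ((hasDerivAt_const (0 : ℝ) q).prodMk (hasDerivAt_id' (0 : ℝ)))
    have h2 := h1.unique hl
    rw [ContinuousLinearMap.comp_apply] at h2
    rw [h2]
    exact hpos hφx
  have hinj : Function.Injective L := by
    rw [injective_iff_map_eq_zero]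
    rintro ⟨w, σ⟩ hwσ
    have h1 : ((w, σ) : R5 × ℝ) = (w, 0) + σ • (0, 1) := by simp
    have h2 : D (L (w, σ)) = σ * D (L (0, 1)) := by
      rw [h1, map_add, map_add, map_smul, map_smul, hD1, zero_add, smul_eq_mul]
    rw [hwσ, map_zero] at h2
    have h3 : σ = 0 := by
      rcases mul_eq_zero.1 h2.symm with h3 | h3
      · exact h3
      · exact absurd h3 hD2.ne'
    subst h3
    have h4 : fderiv ℝ (e ∘ f) q w = fderiv ℝ (e ∘ f) q 0 := by
      rw [← hL1, hwσ, map_zero]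
    rw [h.imm q h4]
    rfl
  have hdim : Module.finrank ℝ (R5 × ℝ) = Module.finrank ℝ V := by
    rw [hV, Module.finrank_prod]
    simp
  set L' : (R5 × ℝ) ≃L[ℝ] V :=
    (LinearMap.linearEquivOfInjective L.toLinearMap hinj hdim).toContinuousLinearEquiv with hL'
  have hLL' : (L' : (R5 × ℝ) →L[ℝ] V) = L := by
    ext p <;> simp [hL']
  have hLd' : HasFDerivAt (e ∘ Ψ) (L' : (R5 × ℝ) →L[ℝ] V) (q, 0) := by rw [hLL']; exact hLd
  have hstrict : HasStrictFDerivAt (e ∘ Ψ) (L' : (R5 × ℝ) →L[ℝ] V) (q, 0) :=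
    hΨc.hasStrictFDerivAt' hLd' (by norm_num)
  set g : V → R5 × ℝ := hΨc.localInverse hLd' (by norm_num) with hg
  have hex : (e ∘ Ψ) (q, 0) = e x := by rw [Function.comp_apply, hΨ0]
  have hgc : ContDiffAt ℝ 2 g (e x) := by
    rw [← hex]
    exact hΨc.to_localInverse hLd' (by norm_num)
  have hgx : g (e x) = (q, 0) := by
    rw [← hex]
    exact hΨc.localInverse_apply_image hLd' (by norm_num)
  have hright : ∀ᶠ z in 𝓝 (e x), (e ∘ Ψ) (g z) = z := by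
    rw [← hex]
    exact hstrict.eventually_right_inverse
  have hleft : ∀ᶠ p in 𝓝 (q, (0 : ℝ)), g ((e ∘ Ψ) p) = p := hstrict.eventually_left_inverse
  have hce : ContinuousAt e x := e.continuousAt hxs
  have hcge : ContinuousAt (g ∘ e) x := hgc.continuousAt.comp hce
  refine ⟨fun y => (g (e y)).1, fun y => (g (e y)).2, ?_, ?_, ?_, ?_, ?_⟩
  · have h1 : ∀ᶠ y in 𝓝 x, (e ∘ Ψ) (g (e y)) = e y := hce.eventually hright
    have h2 : ∀ᶠ y in 𝓝 x, Ψ (g (e y)) ∈ e.source := by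
      have h3 : ∀ᶠ p in 𝓝 ((g ∘ e) x), Ψ p ∈ e.source := by
        rw [Function.comp_apply, hgx]
        exact hsrc
      exact hcge.eventually h3
    have h3 : ∀ᶠ z in 𝓝 (e x), ContDiffAt ℝ 2 (fun z => (g z).1) z := by
      have h4 : ContDiffAt ℝ 2 (fun z => (g z).1) (e x) := contDiffAt_fst.comp (e x) hgc
      exact h4.eventually (by norm_num)
    filter_upwards [h1, h2, hce.eventually h3, e.open_source.mem_nhds hxs] with y hy1 hy2 hy3 hy4
    exact ⟨e.injOn hy2 hy4 hy1, contMDiffAt_comp (n := 2) hea hy4 hy3⟩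
  · simp only [hgx]
  · simp only [hgx]
  · exact continuousAt_snd.comp hcge
  · filter_upwards [hleft] with p hp
    have : g (e (Ψ p)) = p := hp
    exact ⟨by rw [this], by rw [this]⟩

/-- injectivity modulo the lattice near the boundary -/
lemma inj_mod {φ : X → ℝ} {c : ℝ} {f : R5 → X} (hV : Module.finrank ℝ V = 6)
    (h : Bd V φ c f) {T : X × ℝ → X} (hT : PushProp V φ T {x | φ x = c}) :
    ∃ δ > 0, ∀ (p p' : R5) (s s' : ℝ), |s| < δ → |s'| < δ → T (f p, s) = T (f p', s') →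
      ∃ n, p' = act n p := by
  have hinvar : ∀ n p, f (act n p) = f p := fun n p => ((h.eq p (act n p)).2 ⟨n, rfl⟩).symm
  have hΨc : ∀ q : R5, ContinuousAt (fun p : R5 × ℝ => T (f p.1, p.2)) (q, 0) := by
    intro q
    have h1 : ContinuousAt T (f q, (0 : ℝ)) := (hT.smooth (f q)).continuousAt
    have h2 : ContinuousAt (fun p : R5 × ℝ => (f p.1, p.2)) (q, (0 : ℝ)) :=
      ((h.smooth.continuous.continuousAt (x := q)).comp continuousAt_fst).prodMk continuousAt_snd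
    exact ContinuousAt.comp (f := fun p : R5 × ℝ => (f p.1, p.2)) h1 h2
  have hK : IsCompact (Icc (0 : R5) 1 ×ˢ Icc (0 : R5) 1) := isCompact_Icc.prod isCompact_Icc
  have key : ∀ᶠ ss : ℝ × ℝ in 𝓝 (0, 0), ∀ pp ∈ Icc (0 : R5) 1 ×ˢ Icc (0 : R5) 1,
      T (f pp.1, ss.1) = T (f pp.2, ss.2) → ∃ n, pp.2 = act n pp.1 := by
    apply hK.eventually_forall_of_forall_eventually
    rintro ⟨q, q'⟩ -
    -- the two points
    have t1 : ContinuousAt (fun z : (ℝ × ℝ) × (R5 × R5) => T (f z.2.1, z.1.1))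
        ((0, 0), (q, q')) :=
      ContinuousAt.comp (g := fun p : R5 × ℝ => T (f p.1, p.2))
        (f := fun z : (ℝ × ℝ) × (R5 × R5) => (z.2.1, z.1.1)) (hΨc q) (by fun_prop)
    have t2 : ContinuousAt (fun z : (ℝ × ℝ) × (R5 × R5) => T (f z.2.2, z.1.2))
        ((0, 0), (q, q')) :=
      ContinuousAt.comp (g := fun p : R5 × ℝ => T (f p.1, p.2))
        (f := fun z : (ℝ × ℝ) × (R5 × R5) => (z.2.2, z.1.2)) (hΨc q') (by fun_prop)
    by_cases hqq : f q = f q'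
    · obtain ⟨m, hm⟩ := (h.eq q q').1 hqq
      obtain ⟨Q, S, -, -, -, -, hloc⟩ := local_inv hV h hT q'
      have c1 : ContinuousAt (fun z : (ℝ × ℝ) × (R5 × R5) => (act m z.2.1, z.1.1))
          ((0, 0), (q, q')) := by
        have := (act_continuous m)
        fun_prop
      have c2 : ContinuousAt (fun z : (ℝ × ℝ) × (R5 × R5) => (z.2.2, z.1.2))
          ((0, 0), (q, q')) := by fun_prop
      have hloc1 : ∀ᶠ p : R5 × ℝ in 𝓝 (act m q, 0), Q (T (f p.1, p.2)) = p.1 ∧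
          S (T (f p.1, p.2)) = p.2 := by rw [← hm]; exact hloc
      filter_upwards [c1.eventually hloc1, c2.eventually hloc] with z hz1 hz2 hz
      refine ⟨m, ?_⟩
      have e1 := hz1.1
      have e2 := hz2.1
      rw [hinvar] at e1
      rw [← e2, ← e1, hz]
    · have hne : T (f q, 0) ≠ T (f q', 0) := by rw [hT.zero, hT.zero]; exact hqq
      have hev := (t1.prodMk t2).eventually ((isClosed_diagonal.isOpen_compl).mem_nhds
        (show (T (f q, 0), T (f q', 0)) ∈ (diagonal X)ᶜ from hne))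
      filter_upwards [hev] with z hz hz'
      exact absurd hz' hz
  obtain ⟨δ, hδ, hball⟩ := Metric.eventually_nhds_iff_ball.1 key
  refine ⟨δ, hδ, ?_⟩
  intro p p' s s' hs hs' hpp
  obtain ⟨n, hn⟩ := exists_act_mem p
  obtain ⟨n', hn'⟩ := exists_act_mem p'
  have hmem : ((s, s') : ℝ × ℝ) ∈ ball ((0 : ℝ), (0 : ℝ)) δ := by
    rw [mem_ball, Prod.dist_eq, Real.dist_eq, Real.dist_eq]
    simp [hs, hs']
  obtain ⟨m, hm⟩ := hball (s, s') hmem (act n p, act n' p') ⟨hn, hn'⟩ (by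
    rw [hinvar, hinvar]
    exact hpp)
  obtain ⟨k, hk⟩ := exists_act_inv n'
  obtain ⟨j, hj⟩ := exists_act_comp m n
  obtain ⟨i, hi⟩ := exists_act_comp k j
  refine ⟨i, ?_⟩
  rw [← hi, ← hj, ← hm, hk]

/-- the relation defining the form near the boundary -/
def Rel (f : R5 → X) (T : X × ℝ → X) (δ : ℝ) (y : X) (B : V →L[ℝ] R5) : Prop :=
  ∃ (Q : X → R5) (S : X → ℝ), (∀ᶠ y' in 𝓝 y, |S y'| < δ ∧ T (f (Q y'), S y') = y') ∧
    ContMDiffAt 𝓘(ℝ, V) 𝓘(ℝ, R5) 2 Q y ∧ B = (MC (Q y)).comp (dX Q y)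

omit [FiniteDimensional ℝ V] [T2Space X] [IsManifold 𝓘(ℝ, V) ∞ X] in
lemma rel_unique {f : R5 → X} {T : X × ℝ → X} {δ : ℝ}
    (hinj : ∀ (p p' : R5) (s s' : ℝ), |s| < δ → |s'| < δ → T (f p, s) = T (f p', s') →
      ∃ n, p' = act n p) {y : X} {B B' : V →L[ℝ] R5} (h : Rel f T δ y B) (h' : Rel f T δ y B') :
    B = B' := by
  obtain ⟨Q, S, h1, h2, h3⟩ := h
  obtain ⟨Q', S', h1', h2', h3'⟩ := h'
  have hev : ∀ᶠ y' in 𝓝 y, ∃ n, Q' y' = act n (Q y') := by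
    filter_upwards [h1, h1'] with y' hy hy'
    exact hinj _ _ _ _ hy.1 hy'.1 (by rw [hy.2, hy'.2])
  obtain ⟨n, hn⟩ := loc_const_act h2.continuousAt h2'.continuousAt hev
  have hd : dX (V := V) Q' y = (Lact n).comp (dX (V := V) Q y) := by
    have e1 : Q' =ᶠ[𝓝 y] act n ∘ Q := hn
    unfold dX
    rw [e1.mfderiv_eq]
    have e2 := mfderiv_comp y (g := act n) (f := Q) (I := 𝓘(ℝ, V)) (I' := 𝓘(ℝ, R5))
      (I'' := 𝓘(ℝ, R5)) (act_hasFDerivAt n (Q y)).differentiableAt.mdifferentiableAt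
      (h2.mdifferentiableAt (by norm_num))
    rw [e2, mfderiv_eq_fderiv, (act_hasFDerivAt n (Q y)).fderiv]
    rfl
  rw [h3, h3', hd, hn.self_of_nhds, ← ContinuousLinearMap.comp_assoc, MC_act]

/-- the form near the boundary -/
lemma exists_A₀ {φ : X → ℝ} {c : ℝ} {f : R5 → X} (hV : Module.finrank ℝ V = 6)
    (h : Bd V φ c f) : ∃ A₀ : X → V →L[ℝ] R5, ∀ q : R5, ∃ Q : X → R5,
      (∀ᶠ y in 𝓝 (f q), DevAt A₀ Q y) ∧ ∀ᶠ p in 𝓝 q, ∃ n, Q (f p) = act n p := by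
  classical
  have hKc : IsCompact {x | φ x = c} :=
    h.cpt.of_isClosed_subset (isClosed_eq h.phi.continuous continuous_const)
      fun x hx => le_of_eq hx
  obtain ⟨T, hT⟩ := exists_push (V := V) h.phi hKc fun x hx => h.reg x hx
  obtain ⟨δ, hδ, hinj⟩ := inj_mod (V := V) hV h hT
  refine ⟨fun y => if hy : ∃ B : V →L[ℝ] R5, Rel (V := V) f T δ y B then hy.choose else 0, ?_⟩
  intro q
  obtain ⟨Q, S, h1, h2, h3, h4, -⟩ := local_inv hV h hT q
  refine ⟨Q, ?_, ?_⟩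
  · have h5 : ∀ᶠ y in 𝓝 (f q), |S y| < δ := by
      have := Metric.continuousAt_iff'.1 h4 δ hδ
      filter_upwards [this] with y hy
      rwa [h3, Real.dist_eq, sub_zero] at hy
    have h6 := eventually_eventually_nhds.2 (h5.and h1)
    filter_upwards [h6] with y hy
    have hrel : Rel (V := V) f T δ y ((MC (Q y)).comp (dX (V := V) Q y)) := by
      refine ⟨Q, S, ?_, hy.self_of_nhds.2.2, rfl⟩
      filter_upwards [hy] with y' hy'
      exact ⟨hy'.1, hy'.2.1⟩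
    refine ⟨hy.self_of_nhds.2.2, ?_⟩
    have hex : ∃ B : V →L[ℝ] R5, Rel (V := V) f T δ y B := ⟨_, hrel⟩
    refine (dif_pos hex).trans ?_
    exact rel_unique hinj hex.choose_spec hrel
  · have h5 : ∀ᶠ y in 𝓝 (f q), |S y| < δ := by
      have := Metric.continuousAt_iff'.1 h4 δ hδ
      filter_upwards [this] with y hy
      rwa [h3, Real.dist_eq, sub_zero] at hy
    have hfc : ContinuousAt f q := h.smooth.continuous.continuousAt
    filter_upwards [hfc.eventually (h5.and h1)] with p hp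
    have : T (f (Q (f p)), S (f p)) = T (f p, 0) := by rw [hT.zero]; exact hp.2.1
    obtain ⟨n, hn⟩ := hinj _ _ _ _ hp.1 (by simpa using hδ) this
    obtain ⟨m, hm⟩ := exists_act_inv n
    refine ⟨m, ?_⟩
    have h6 := hm (Q (f p))
    rw [← hn] at h6
    exact h6.symm

end Pool.Agent.H88.ST
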