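import Mathlib

/-!
# Three directions of growth of a form with positive Levi part on a complex 3-space
-/

namespace Pool.Agent.H88.ST

variable {V : Type*} [NormedAddCommGroup V] [NormedSpace ℝ V] [NormedSpace ℂ V]
  [IsScalarTower ℝ ℂ V]

/-- the complex functional `w ↦ B(v,w) - i B(v, i w)` -/
noncomputable def cfun (B : V →L[ℝ] V →L[ℝ] ℝ) (v : V) : V →ₗ[ℂ] ℂ where
  toFun w := (B v w : ℂ) - Complex.I * (B v (Complex.I • w) : ℂ)
  map_add' x y := by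
    simp only [map_add, smul_add, Complex.ofReal_add]
    ring
  map_smul' c x := by
    have h1 : c • x = c.re • x + c.im • (Complex.I • x) := by
      conv_lhs => rw [← Complex.re_add_im c]
      rw [add_smul, mul_smul]
      congr 1
      · exact algebraMap_smul ℂ c.re x
      · exact algebraMap_smul ℂ c.im (Complex.I • x)
    have h2 : Complex.I • (c • x) = c.re • (Complex.I • x) - c.im • x := by
      rw [h1, smul_add, smul_comm, smul_comm Complex.I c.im, smul_smul Complex.I Complex.I,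
        Complex.I_mul_I, neg_one_smul, smul_neg, sub_eq_add_neg]
    rw [h2, h1]
    simp only [map_add, map_sub, map_smul, smul_eq_mul, Complex.ofReal_add, Complex.ofReal_sub,
      Complex.ofReal_mul, RingHom.id_apply]
    conv_rhs => rw [← Complex.re_add_im c]
    have hI := Complex.I_mul_I
    linear_combination ((c.im : ℂ) * (B v (Complex.I • x) : ℂ)) * hI

lemma cfun_eq_zero {B : V →L[ℝ] V →L[ℝ] ℝ} {v w : V} (h : cfun B v w = 0) :
    B v w = 0 ∧ B v (Complex.I • w) = 0 := by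
  have h1 : (B v w : ℂ) - Complex.I * (B v (Complex.I • w) : ℂ) = 0 := h
  have h2 := congrArg Complex.re h1
  have h3 := congrArg Complex.im h1
  simp at h2 h3
  exact ⟨h2, h3⟩

omit [IsScalarTower ℝ ℂ V] in
lemma exists_pos_dir {B : V →L[ℝ] V →L[ℝ] ℝ} (hB : ∀ v : V, v ≠ 0 →
    0 < B v v + B (Complex.I • v) (Complex.I • v)) (W : Submodule ℂ V) (hW : W ≠ ⊥) :
    ∃ v ∈ W, 0 < B v v := by
  obtain ⟨v, hv, hv0⟩ := W.exists_mem_ne_zero_of_ne_bot hW
  by_cases h : 0 < B v v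
  · exact ⟨v, hv, h⟩
  · refine ⟨Complex.I • v, W.smul_mem _ hv, ?_⟩
    have := hB v hv0
    linarith

omit [NormedSpace ℝ V] [IsScalarTower ℝ ℂ V] in
lemma ker_ne_bot (hV : Module.finrank ℂ V = 3) (f g : V →ₗ[ℂ] ℂ) :
    LinearMap.ker f ⊓ LinearMap.ker g ≠ ⊥ := by
  have : FiniteDimensional ℂ V := Module.finite_of_finrank_pos (by omega)
  intro h
  have h1 : LinearMap.ker (f.prod g) = ⊥ := by rw [LinearMap.ker_prod, h]
  have h2 : Function.Injective (f.prod g) := LinearMap.ker_eq_bot.1 h1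
  have h3 := LinearMap.finrank_le_finrank_of_injective h2
  rw [hV, Module.finrank_prod] at h3
  simp at h3

/-- three real directions of growth -/
lemma three_dirs (hV : Module.finrank ℂ V = 3) {B : V →L[ℝ] V →L[ℝ] ℝ}
    (hsymm : ∀ v w, B v w = B w v) (hB : ∀ v : V, v ≠ 0 →
    0 < B v v + B (Complex.I • v) (Complex.I • v)) :
    ∃ v₁ v₂ v₃ : V, ∃ κ : ℝ, 0 < κ ∧ ∀ α β γ : ℝ, κ * (α ^ 2 + β ^ 2 + γ ^ 2) ≤
      B (α • v₁ + β • v₂ + γ • v₃) (α • v₁ + β • v₂ + γ • v₃) := by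
  have hk0 := ker_ne_bot hV 0 0
  obtain ⟨v₁, -, h1⟩ := exists_pos_dir hB _ hk0
  obtain ⟨v₂, hv₂, h2⟩ := exists_pos_dir hB _ (ker_ne_bot hV (cfun B v₁) (cfun B v₁))
  obtain ⟨v₃, hv₃, h3⟩ := exists_pos_dir hB _ (ker_ne_bot hV (cfun B v₁) (cfun B v₂))
  have h12 : B v₁ v₂ = 0 := (cfun_eq_zero (LinearMap.mem_ker.1 hv₂.1)).1
  have h13 : B v₁ v₃ = 0 := (cfun_eq_zero (LinearMap.mem_ker.1 hv₃.1)).1
  have h23 : B v₂ v₃ = 0 := (cfun_eq_zero (LinearMap.mem_ker.1 hv₃.2)).1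
  refine ⟨v₁, v₂, v₃, min (B v₁ v₁) (min (B v₂ v₂) (B v₃ v₃)), by positivity, ?_⟩
  intro α β γ
  have e : B (α • v₁ + β • v₂ + γ • v₃) (α • v₁ + β • v₂ + γ • v₃) =
      α ^ 2 * B v₁ v₁ + β ^ 2 * B v₂ v₂ + γ ^ 2 * B v₃ v₃ := by
    simp only [map_add, map_smul, add_apply, smul_apply, smul_eq_mul, h12, h13, h23,
      hsymm v₂ v₁, hsymm v₃ v₁, hsymm v₃ v₂]
    ring
  rw [e]
  have m1 : min (B v₁ v₁) (min (B v₂ v₂) (B v₃ v₃)) ≤ B v₁ v₁ := min_le_left _ _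
  have m2 : min (B v₁ v₁) (min (B v₂ v₂) (B v₃ v₃)) ≤ B v₂ v₂ :=
    (min_le_right _ _).trans (min_le_left _ _)
  have m3 : min (B v₁ v₁) (min (B v₂ v₂) (B v₃ v₃)) ≤ B v₃ v₃ :=
    (min_le_right _ _).trans (min_le_right _ _)
  nlinarith [mul_le_mul_of_nonneg_left m1 (sq_nonneg α),
    mul_le_mul_of_nonneg_left m2 (sq_nonneg β), mul_le_mul_of_nonneg_left m3 (sq_nonneg γ)]

end Pool.Agent.H88.ST
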