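import Pool.Agent.H88.ST.Fin
import Pool.Agent.H88.ST.Lev

/-!
# Complex manifolds
-/

open Set Metric Filter Topology MeasureTheory
open scoped Manifold ContDiff

namespace Pool.Agent.H88.ST

variable {V : Type*} [NormedAddCommGroup V] [NormedSpace ℝ V] [NormedSpace ℂ V]
  [IsScalarTower ℝ ℂ V] {X : Type*} [TopologicalSpace X] [ChartedSpace V X]

/-- a complex manifold is a real manifold -/
lemma real_manifold [IsManifold 𝓘(ℂ, V) ω X] : IsManifold 𝓘(ℝ, V) ∞ X := by
  apply isManifold_of_contDiffOn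
  intro e e' he he'
  have h1 := (contDiffGroupoid ω 𝓘(ℂ, V)).compatible he he'
  rw [contDiffGroupoid, mem_groupoid_of_pregroupoid] at h1
  have h2 := h1.1
  simp [contDiffPregroupoid] at h2
  have h4 := (h2.restrict_scalars ℝ).of_le (m := ∞) le_top
  simpa using h4

omit [NormedSpace ℂ V] [IsScalarTower ℝ ℂ V] in
lemma Js_eq [IsManifold 𝓘(ℝ, V) ∞ X] {e : OpenPartialHomeomorph X V} (he : e ∈ atlas V X)
    {z : V} (hz : z ∈ e.target) :
    Js e z = fderiv ℝ (chartAt V (e.symm z) ∘ e.symm) z := by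
  have h1 := mdifferentiableAt_atlas_symm (I := 𝓘(ℝ, V)) he hz
  unfold Js
  rw [mfderiv, if_pos h1]
  simp only [writtenInExtChartAt, extChartAt, mfld_simps, fderivWithin_univ]

/-- the atlas of a complex manifold is oriented -/
lemma complex_oriented [FiniteDimensional ℂ V] [IsManifold 𝓘(ℂ, V) ω X] : Oriented V X := by
  have : IsManifold 𝓘(ℝ, V) ∞ X := real_manifold
  intro e he z hz
  have hx : e.symm z ∈ (chartAt V (e.symm z)).source := mem_chart_source V _
  have h1 : MDifferentiableAt 𝓘(ℂ, V) 𝓘(ℂ, V) (chartAt V (e.symm z) ∘ e.symm) z :=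
    MDifferentiableAt.comp z
      (mdifferentiableAt_atlas (I := 𝓘(ℂ, V)) (chart_mem_atlas V (e.symm z)) hx)
      (mdifferentiableAt_atlas_symm (I := 𝓘(ℂ, V)) he hz)
  have h2 : DifferentiableAt ℂ (chartAt V (e.symm z) ∘ e.symm) z := h1.differentiableAt
  have h3 := (h2.hasFDerivAt.restrictScalars ℝ).fderiv
  have hJ : Js e z = (fderiv ℂ (chartAt V (e.symm z) ∘ e.symm) z).restrictScalars ℝ := by
    rw [Js_eq he hz, h3]
  set L := fderiv ℂ (chartAt V (e.symm z) ∘ e.symm) z with hL
  have h4 : (Js e z).det = Complex.normSq (LinearMap.det (L : V →ₗ[ℂ] V)) := by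
    rw [hJ]
    unfold ContinuousLinearMap.det
    have h5 := LinearMap.det_restrictScalars (R := ℝ) (S := ℂ) (f := (L : V →ₗ[ℂ] V))
    rw [Algebra.norm_complex_apply] at h5
    exact h5
  have h5 : (Js e z).det ≠ 0 := by
    have h6 := Jc_comp_Js he hz
    have h7 : (Jc e (e.symm z)).det * (Js e z).det = 1 := by
      unfold ContinuousLinearMap.det
      rw [← LinearMap.det_comp, ← ContinuousLinearMap.toLinearMap_comp, h6]
      simp
    exact right_ne_zero_of_mul_eq_one h7
  rw [h4] at h5 ⊢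
  exact lt_of_le_of_ne (Complex.normSq_nonneg _) h5.symm

end Pool.Agent.H88.ST
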