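import Pool.Agent.H88.ST.Euc

/-!
# The Maurer-Cartan form and developing maps in Euclidean space
-/

open Set Metric Filter Topology

namespace Pool.Agent.H88.ST

/-- the model space -/
abbrev R5 : Type := Fin 5 → ℝ

/-- the coordinate functionals -/
noncomputable abbrev pr (i : Fin 5) : R5 →L[ℝ] ℝ := ContinuousLinearMap.proj i

/-- The matrix of the left invariant coframe: `(dq₀, dq₁, dq₂, dq₃, dq₄ + q₀ dq₁ + q₂ dq₃)`. -/
noncomputable def MC (q : R5) : R5 →L[ℝ] R5 :=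
  ContinuousLinearMap.id ℝ R5 +
    (q 0 • pr 1 + q 2 • pr 3).smulRight (Pi.single 4 1 : R5)

lemma MC_apply (q w : R5) (i : Fin 5) :
    MC q w i = w i + (q 0 * w 1 + q 2 * w 3) * (Pi.single 4 1 : R5) i := by
  simp [MC]

lemma MC_ne {q w : R5} {i : Fin 5} (hi : i ≠ 4) : MC q w i = w i := by
  rw [MC_apply, Pi.single_eq_of_ne hi]; ring

lemma MC_four (q w : R5) : MC q w 4 = w 4 + q 0 * w 1 + q 2 * w 3 := by
  rw [MC_apply, Pi.single_eq_same]; ring

lemma MC_inj {q w w' : R5} (h : MC q w = MC q w') : w = w' := by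
  have hne : ∀ i : Fin 5, i ≠ 4 → w i = w' i := by
    intro i hi
    have := congrFun h i
    rwa [MC_ne hi, MC_ne hi] at this
  ext i
  by_cases hi : i = 4
  · subst hi
    have := congrFun h 4
    rw [MC_four, MC_four, hne 1 (by decide), hne 3 (by decide)] at this
    linarith
  · exact hne i hi

lemma MC_contDiff : ContDiff ℝ 2 MC := by
  unfold MC
  have h0 : ContDiff ℝ 2 fun q : R5 => q 0 := contDiff_apply ℝ ℝ (0 : Fin 5)
  have h2 : ContDiff ℝ 2 fun q : R5 => q 2 := contDiff_apply ℝ ℝ (2 : Fin 5)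
  have h3 : ContDiff ℝ 2 fun q : R5 => q 0 • pr 1 + q 2 • pr 3 :=
    (h0.smul contDiff_const).add (h2.smul contDiff_const)
  exact contDiff_const.add (h3.smulRight contDiff_const)

section Euc

variable {V : Type*} [NormedAddCommGroup V] [NormedSpace ℝ V]

/-- Euclidean developing map near a point -/
def EDevAt (A : V → V →L[ℝ] R5) (F : V → R5) (z : V) : Prop :=
  ContDiffAt ℝ 2 F z ∧ A z = (MC (F z)).comp (fderiv ℝ F z)

lemma EDev_contDiffAt {A : V → V →L[ℝ] R5} {F : V → R5} {z : V}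
    (h : ∀ᶠ y in 𝓝 z, EDevAt A F y) : ContDiffAt ℝ 1 A z := by
  have h1 : ContDiffAt ℝ 2 F z := h.self_of_nhds.1
  have h2 : ContDiffAt ℝ 1 (fun y => (MC (F y)).comp (fderiv ℝ F y)) z :=
    ((MC_contDiff.contDiffAt.comp z h1).of_le (by norm_num)).clm_comp
      (h1.fderiv_right (m := 1) (by norm_num))
  exact h2.congr_of_eventuallyEq (h.mono fun y hy => hy.2)

lemma hasFDerivAt_pr {F : V → R5} {z : V} (h : DifferentiableAt ℝ F z) (i : Fin 5) :
    HasFDerivAt (fun y => F y i) ((pr i).comp (fderiv ℝ F z)) z :=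
  (pr i).hasFDerivAt.comp z h.hasFDerivAt

lemma closed_of_local {a : V → V →L[ℝ] ℝ} {O : Set V}
    (h : ∀ z ∈ O, ∃ g : V → ℝ, ContDiffAt ℝ 2 g z ∧ ∀ᶠ y in 𝓝 z, a y = fderiv ℝ g y) :
    ClosedOn a O := by
  constructor
  · intro z hz
    obtain ⟨g, hg, he⟩ := h z hz
    have h1 : ContDiffAt ℝ 1 (fderiv ℝ g) z := hg.fderiv_right (m := 1) (by norm_num)
    exact ((h1.congr_of_eventuallyEq he).differentiableAt (by norm_num)).differentiableWithinAt
  · intro z hz v w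
    obtain ⟨g, hg, he⟩ := h z hz
    have h1 : fderiv ℝ a z = fderiv ℝ (fderiv ℝ g) z := Filter.EventuallyEq.fderiv_eq he
    rw [h1]
    have h2 : IsSymmSndFDerivAt ℝ g z := hg.isSymmSndFDerivAt (by simp)
    exact h2 v w

lemma loc_const {g h : V → ℝ} {a : V → V →L[ℝ] ℝ} {z : V}
    (hg : ∀ᶠ y in 𝓝 z, HasFDerivAt g (a y) y) (hh : ∀ᶠ y in 𝓝 z, HasFDerivAt h (a y) y) :
    ∃ c, ∀ᶠ y in 𝓝 z, g y = h y + c := by
  obtain ⟨ρ, hρ, hb⟩ := Metric.eventually_nhds_iff_ball.1 (hg.and hh)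
  refine ⟨g z - h z, ?_⟩
  filter_upwards [ball_mem_nhds z hρ] with y hy
  have := prim_unique (convex_ball z ρ) isOpen_ball (a := a) (g := g) (h := h)
    (fun w hw => (hb w hw).1) (fun w hw => (hb w hw).2) hy (mem_ball_self hρ)
  linarith

lemma cd2_of_prim {G : V → ℝ} {b : V → V →L[ℝ] ℝ} {U : Set V} {z : V} (hU : IsOpen U)
    (hG : PrimOn G b U) (hz : z ∈ U) (hb : ContDiffAt ℝ 1 b z) : ContDiffAt ℝ 2 G z := by
  have : ContDiffAt ℝ (((1 : ℕ) : WithTop ℕ∞) + 1) G z :=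
    contDiffAt_succ_iff_hasFDerivAt.2 ⟨b, ⟨U, hU.mem_nhds hz, fun y hy => hG y hy⟩, by simpa using hb⟩
  exact this.of_le (by norm_num)

/-- Euclidean development lemma -/
lemma develop {A : V → V →L[ℝ] R5} {O O₁ O₂ : Set V} (hO₁ : IsOpen O₁)
    (hO₂ : IsOpen O₂) (h₁ : O₁ ⊆ O) (h₂ : O₂ ⊆ O₁)
    (hA : ∀ z ∈ O, ∃ F, ∀ᶠ y in 𝓝 z, EDevAt A F y)
    (hP : ∀ a : V → V →L[ℝ] ℝ, ClosedOn a O → ∃ G, PrimOn G a O₁)
    (hP' : ∀ a : V → V →L[ℝ] ℝ, ClosedOn a O₁ → ∃ G, PrimOn G a O₂) :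
    ∃ F : V → R5, ∀ z ∈ O₂, EDevAt A F z := by
  have hAi : ∀ i : Fin 5, i ≠ 4 → ∀ z ∈ O, ∃ g : V → ℝ, ContDiffAt ℝ 2 g z ∧
      ∀ᶠ y in 𝓝 z, (pr i).comp (A y) = fderiv ℝ g y := by
    intro i hi z hz
    obtain ⟨F, hF⟩ := hA z hz
    refine ⟨fun y => F y i, (pr i).contDiff.contDiffAt.comp z hF.self_of_nhds.1, ?_⟩
    filter_upwards [hF] with y hy
    rw [(hasFDerivAt_pr (hy.1.differentiableAt (by norm_num)) i).fderiv]
    ext w
    have := congrArg (fun L : V →L[ℝ] R5 => L w i) hy.2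
    simp only [ContinuousLinearMap.comp_apply] at this
    rw [MC_ne hi] at this
    exact this
  have hG : ∀ i : Fin 5, i ≠ 4 → ∃ G, PrimOn G (fun y => (pr i).comp (A y)) O₁ := by
    intro i hi
    exact hP _ (closed_of_local (hAi i hi))
  obtain ⟨G0, hG0⟩ := hG 0 (by decide)
  obtain ⟨G1, hG1⟩ := hG 1 (by decide)
  obtain ⟨G2, hG2⟩ := hG 2 (by decide)
  obtain ⟨G3, hG3⟩ := hG 3 (by decide)
  have hbc : ClosedOn (fun y => (pr 4).comp (A y) - G0 y • (pr 1).comp (A y) -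
      G2 y • (pr 3).comp (A y)) O₁ := by
    apply closed_of_local
    intro z hz
    obtain ⟨F, hF⟩ := hA z (h₁ hz)
    have hprim : ∀ i : Fin 5, i ≠ 4 → ∀ G : V → ℝ, PrimOn G (fun y => (pr i).comp (A y)) O₁ →
        ∃ c, ∀ᶠ y in 𝓝 z, G y = F y i + c := by
      intro i hi G hG
      refine loc_const (a := fun y => (pr i).comp (A y)) ?_ ?_
      · filter_upwards [hO₁.mem_nhds hz] with y hy
        exact hG y hy
      · filter_upwards [hF] with y hy
        have := hasFDerivAt_pr (hy.1.differentiableAt (by norm_num)) i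
        convert this using 1
        ext w
        have := congrArg (fun L : V →L[ℝ] R5 => L w i) hy.2
        simp only [ContinuousLinearMap.comp_apply] at this
        rw [MC_ne hi] at this
        exact this
    obtain ⟨c0, hc0⟩ := hprim 0 (by decide) G0 hG0
    obtain ⟨c2, hc2⟩ := hprim 2 (by decide) G2 hG2
    have hFc : ∀ i : Fin 5, ContDiffAt ℝ 2 (fun y => F y i) z := fun i =>
      (pr i).contDiff.contDiffAt.comp z hF.self_of_nhds.1
    refine ⟨fun y => F y 4 - c0 * F y 1 - c2 * F y 3, ?_, ?_⟩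
    · exact ((hFc 4).sub (contDiffAt_const.mul (hFc 1))).sub (contDiffAt_const.mul (hFc 3))
    · filter_upwards [hF, hc0, hc2] with y hy h0 h2
      have hd := hy.1.differentiableAt (by norm_num : (2 : WithTop ℕ∞) ≠ 0)
      have h4 := ((hasFDerivAt_pr hd 4).fun_sub ((hasFDerivAt_pr hd 1).const_mul c0)).fun_sub
        ((hasFDerivAt_pr hd 3).const_mul c2)
      rw [h4.fderiv, h0, h2]
      ext w
      have e4 := congrArg (fun L : V →L[ℝ] R5 => L w 4) hy.2
      have e1 := congrArg (fun L : V →L[ℝ] R5 => L w 1) hy.2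
      have e3 := congrArg (fun L : V →L[ℝ] R5 => L w 3) hy.2
      simp only [ContinuousLinearMap.comp_apply] at e4 e1 e3
      rw [MC_four] at e4
      rw [MC_ne (by decide)] at e1 e3
      simp only [sub_apply, smul_apply, ContinuousLinearMap.comp_apply,
        ContinuousLinearMap.proj_apply, smul_eq_mul]
      rw [e4, e1, e3]
      ring
  obtain ⟨G4, hG4⟩ := hP' _ hbc
  refine ⟨fun y => ![G0 y, G1 y, G2 y, G3 y, G4 y], ?_⟩
  intro z hz
  -- the derivative
  set L : V → V →L[ℝ] R5 := fun y => ContinuousLinearMap.pi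
    ![(pr 0).comp (A y), (pr 1).comp (A y), (pr 2).comp (A y), (pr 3).comp (A y),
      (pr 4).comp (A y) - G0 y • (pr 1).comp (A y) - G2 y • (pr 3).comp (A y)] with hL
  have hFL : ∀ y ∈ O₂, HasFDerivAt (fun y => (![G0 y, G1 y, G2 y, G3 y, G4 y] : R5)) (L y) y := by
    intro y hy
    rw [hasFDerivAt_pi']
    intro i
    fin_cases i
    · exact hG0 y (h₂ hy)
    · exact hG1 y (h₂ hy)
    · exact hG2 y (h₂ hy)
    · exact hG3 y (h₂ hy)
    · exact hG4 y hy
  obtain ⟨F, hF⟩ := hA z (h₁ (h₂ hz))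
  have hA1 : ContDiffAt ℝ 1 A z := EDev_contDiffAt hF
  have hcA : ∀ i : Fin 5, ContDiffAt ℝ 1 (fun y => (pr i).comp (A y)) z := fun i =>
    contDiffAt_const.clm_comp hA1
  have hGc : ∀ i : Fin 5, ∀ G : V → ℝ, PrimOn G (fun y => (pr i).comp (A y)) O₁ →
      ContDiffAt ℝ 2 G z := fun i G hG => cd2_of_prim hO₁ hG (h₂ hz) (hcA i)
  refine ⟨?_, ?_⟩
  · rw [contDiffAt_pi]
    intro i
    fin_cases i
    · exact hGc 0 _ hG0
    · exact hGc 1 _ hG1
    · exact hGc 2 _ hG2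
    · exact hGc 3 _ hG3
    · refine cd2_of_prim hO₂ hG4 hz ?_
      exact ((hcA 4).sub (((hGc 0 _ hG0).of_le (by norm_num)).smul (hcA 1))).sub
        (((hGc 2 _ hG2).of_le (by norm_num)).smul (hcA 3))
  · rw [(hFL z hz).fderiv]
    ext w i
    simp only [ContinuousLinearMap.comp_apply]
    by_cases hi : i = 4
    · subst hi
      rw [MC_four]
      simp [hL]
      ring
    · rw [MC_ne hi]
      fin_cases i <;> simp [hL] at hi ⊢

end Euc

end Pool.Agent.H88.ST
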