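import Mathlib

/-!
# Closed 1-forms above the levels of functions which are convex in three directions

Euclidean part: primitives of closed 1-forms on superlevel sets in small balls.
-/

open Set Metric Filter Topology

namespace Pool.Agent.H88.ST

variable {V : Type*} [NormedAddCommGroup V] [NormedSpace ℝ V]

/-- The 1-form `a` is differentiable and closed on the set `O`. -/
structure ClosedOn (a : V → V →L[ℝ] ℝ) (O : Set V) : Prop where
  diff : DifferentiableOn ℝ a O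
  symm : ∀ z ∈ O, ∀ v w, fderiv ℝ a z v w = fderiv ℝ a z w v

/-- `g` is a primitive of `a` on `U`. -/
def PrimOn (g : V → ℝ) (a : V → V →L[ℝ] ℝ) (U : Set V) : Prop := ∀ z ∈ U, HasFDerivAt g (a z) z

lemma ClosedOn.mono {a : V → V →L[ℝ] ℝ} {O O' : Set V} (h : ClosedOn a O) (hs : O' ⊆ O) :
    ClosedOn a O' :=
  ⟨h.diff.mono hs, fun z hz => h.symm z (hs hz)⟩

lemma PrimOn.mono {g : V → ℝ} {a : V → V →L[ℝ] ℝ} {O O' : Set V} (h : PrimOn g a O)
    (hs : O' ⊆ O) : PrimOn g a O' := fun z hz => h z (hs hz)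

lemma prim_convex {a : V → V →L[ℝ] ℝ} {C : Set V} (hC : Convex ℝ C) (hCo : IsOpen C)
    (ha : ClosedOn a C) : ∃ g, PrimOn g a C :=
  hC.exists_forall_hasFDerivAt_of_fderiv_symmetric hCo ha.diff ha.symm

/-- two primitives on a connected set differ by a constant -/
lemma prim_unique' {a : V → V →L[ℝ] ℝ} {C : Set V} (hC : IsPreconnected C) (hCo : IsOpen C)
    {g h : V → ℝ}
    (hg : PrimOn g a C) (hh : PrimOn h a C) {x y : V} (hx : x ∈ C) (hy : y ∈ C) :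
    g x - h x = g y - h y := by
  have key : ∀ z ∈ C, HasFDerivAt (fun z => g z - h z) (0 : V →L[ℝ] ℝ) z := by
    intro z hz
    have h1 := (hg z hz).fun_sub (hh z hz)
    rwa [sub_self] at h1
  exact hCo.is_const_of_fderiv_eq_zero (𝕜 := ℝ) hC
    (fun z hz => (key z hz).differentiableAt.differentiableWithinAt)
    (fun z hz => (key z hz).fderiv) hx hy

lemma prim_unique {a : V → V →L[ℝ] ℝ} {C : Set V} (hC : Convex ℝ C) (hCo : IsOpen C)
    {g h : V → ℝ}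
    (hg : PrimOn g a C) (hh : PrimOn h a C) {x y : V} (hx : x ∈ C) (hy : y ∈ C) :
    g x - h x = g y - h y :=
  prim_unique' hC.isPreconnected hCo hg hh hx hy

lemma seg_sub {z v : V} {s : ℝ} (hs : s ∈ Icc (0 : ℝ) 1) : z + s • v ∈ segment ℝ z (z + v) := by
  rw [segment_eq_image]
  refine ⟨s, hs, ?_⟩
  simp only [sub_smul, one_smul, smul_add]
  abel

lemma of_mem_seg {z v y : V} (h : y ∈ segment ℝ z (z + v)) : ∃ s ∈ Icc (0 : ℝ) 1, y = z + s • v := by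
  rw [segment_eq_image] at h
  obtain ⟨s, hs, rfl⟩ := h
  refine ⟨s, hs, ?_⟩
  simp only [sub_smul, one_smul, smul_add]
  abel

/-- primitives by integration along parallel segments -/
lemma ray {a : V → V →L[ℝ] ℝ} {O U C : Set V} {v : V} (hO : IsOpen O) (ha : ClosedOn a O)
    (hU : IsOpen U) (hseg : ∀ z ∈ U, ∀ s ∈ Icc (0 : ℝ) 1, z + s • v ∈ O) (hC : Convex ℝ C)
    (hCo : IsOpen C) (hCO : C ⊆ O) (hland : ∀ z ∈ U, z + v ∈ C) : ∃ g, PrimOn g a U := by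
  classical
  obtain ⟨G, hG⟩ := prim_convex hC hCo (ha.mono hCO)
  have h1 : ∀ z : V, z ∈ U → ∃ ρ : ℝ, 0 < ρ ∧ thickening ρ (segment ℝ z (z + v)) ⊆ O := by
    intro z hz
    refine IsCompact.exists_thickening_subset_open ?_ hO ?_
    · rw [segment_eq_image]
      exact isCompact_Icc.image (by fun_prop)
    · intro y hy
      obtain ⟨s, hs, rfl⟩ := of_mem_seg hy
      exact hseg z hz s hs
  choose! ρ hρ hsub using h1
  have h2 : ∀ z : V, z ∈ U → ∃ H, PrimOn H a (thickening (ρ z) (segment ℝ z (z + v))) := by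
    intro z hz
    exact prim_convex ((convex_segment _ _).thickening _) isOpen_thickening (ha.mono (hsub z hz))
  choose! H hH using h2
  refine ⟨fun z => H z z - H z (z + v) + G (z + v), ?_⟩
  intro z₀ hz₀
  have key : ∀ᶠ z in 𝓝 z₀, H z z - H z (z + v) + G (z + v) =
      H z₀ z - H z₀ (z + v) + G (z + v) := by
    have e1 : ∀ᶠ z in 𝓝 z₀, z ∈ ball z₀ (ρ z₀) := ball_mem_nhds _ (hρ z₀ hz₀)
    have e2 : ∀ᶠ z in 𝓝 z₀, z ∈ U := hU.mem_nhds hz₀
    filter_upwards [e1, e2] with z hz hzU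
    have hin : ∀ s ∈ Icc (0 : ℝ) 1, z + s • v ∈ thickening (ρ z₀) (segment ℝ z₀ (z₀ + v)) := by
      intro s hs
      rw [mem_thickening_iff]
      refine ⟨z₀ + s • v, seg_sub hs, ?_⟩
      rwa [dist_add_right]
    have hin' : ∀ s ∈ Icc (0 : ℝ) 1, z + s • v ∈ thickening (ρ z) (segment ℝ z (z + v)) := by
      intro s hs
      exact self_subset_thickening (hρ z hzU) _ (seg_sub hs)
    have hu := prim_unique (g := H z) (h := H z₀)
      (((convex_segment z (z + v)).thickening (ρ z)).inter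
        ((convex_segment z₀ (z₀ + v)).thickening (ρ z₀)))
      (isOpen_thickening.inter isOpen_thickening)
      ((hH z hzU).mono inter_subset_left) ((hH z₀ hz₀).mono inter_subset_right)
      (x := z) (y := z + v)
      ⟨by simpa using hin' 0 (by simp), by simpa using hin 0 (by simp)⟩
      ⟨by simpa using hin' 1 (by simp), by simpa using hin 1 (by simp)⟩
    linarith
  have hz0 : z₀ ∈ thickening (ρ z₀) (segment ℝ z₀ (z₀ + v)) :=
    self_subset_thickening (hρ z₀ hz₀) _ (left_mem_segment _ _ _)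
  have hz1 : z₀ + v ∈ thickening (ρ z₀) (segment ℝ z₀ (z₀ + v)) :=
    self_subset_thickening (hρ z₀ hz₀) _ (right_mem_segment _ _ _)
  have d1 := hH z₀ hz₀ z₀ hz0
  have d2 : HasFDerivAt (fun z => H z₀ (z + v)) (a (z₀ + v)) z₀ :=
    (hasFDerivAt_comp_add_right v).2 (hH z₀ hz₀ (z₀ + v) hz1)
  have d3 : HasFDerivAt (fun z => G (z + v)) (a (z₀ + v)) z₀ :=
    (hasFDerivAt_comp_add_right v).2 (hG (z₀ + v) (hland z₀ hz₀))
  have d4 := (d1.fun_sub d2).fun_add d3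
  rw [sub_add_cancel] at d4
  exact d4.congr_of_eventuallyEq key

/-- The property used at the points of the manifold: closed 1-forms above the levels near `g z₀` of
functions close to `g` have primitives near `z₀`. -/
def Good (g : V → ℝ) (z₀ : V) (Ω : Set V) : Prop :=
  ∃ R > 0, ∃ r > 0, ∃ ε > 0, r ≤ R ∧ closedBall z₀ R ⊆ Ω ∧
    ∀ (f : V → ℝ) (t : ℝ), ContDiffOn ℝ 2 f (ball z₀ R) →
      (∀ z ∈ ball z₀ R, |f z - g z| ≤ ε) →
      (∀ z ∈ ball z₀ R, ‖fderiv ℝ f z - fderiv ℝ g z‖ ≤ ε) →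
      (∀ z ∈ ball z₀ R, ‖fderiv ℝ (fderiv ℝ f) z - fderiv ℝ (fderiv ℝ g) z‖ ≤ ε) →
      |t - g z₀| ≤ ε →
      ∀ a : V → V →L[ℝ] ℝ, ClosedOn a (ball z₀ R ∩ {z | t < f z}) →
        ∃ G, PrimOn G a (ball z₀ r ∩ {z | t < f z})

omit [NormedSpace ℝ V] in
lemma isOpen_super {f : V → ℝ} {z₀ : V} {R t : ℝ} (hf : ContinuousOn f (ball z₀ R)) :
    IsOpen (ball z₀ R ∩ {z | t < f z}) :=
  hf.isOpen_inter_preimage isOpen_ball isOpen_Ioi

/-- mean value inequality along a segment -/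
lemma mvt_lower {f : V → ℝ} {z v : V} {c : ℝ}
    (hf : ∀ s ∈ Icc (0 : ℝ) 1, DifferentiableAt ℝ f (z + s • v))
    (hd : ∀ s ∈ Icc (0 : ℝ) 1, c ≤ fderiv ℝ f (z + s • v) v) : f z + c ≤ f (z + v) := by
  have hF : ∀ s ∈ Icc (0 : ℝ) 1, HasDerivAt (fun s : ℝ => f (z + s • v))
      (fderiv ℝ f (z + s • v) v) s := by
    intro s hs
    have h1 : HasDerivAt (fun s : ℝ => z + s • v) v s := by
      simpa using ((hasDerivAt_id s).smul_const v).const_add z
    exact (hf s hs).hasFDerivAt.comp_hasDerivAt s h1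
  obtain ⟨ξ, hξ, h2⟩ := exists_hasDerivAt_eq_slope (fun s : ℝ => f (z + s • v))
    (fun s => fderiv ℝ f (z + s • v) v) (zero_lt_one)
    (fun s hs => (hF s hs).continuousAt.continuousWithinAt)
    (fun s hs => hF s ⟨hs.1.le, hs.2.le⟩)
  have h3 := hd ξ ⟨hξ.1.le, hξ.2.le⟩
  simp only [one_smul, zero_smul, add_zero, sub_zero, div_one] at h2
  linarith

lemma isOpen_seg {O : Set V} (hO : IsOpen O) (v : V) :
    IsOpen {z : V | ∀ s ∈ Icc (0 : ℝ) 1, z + s • v ∈ O} := by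
  rw [isOpen_iff_mem_nhds]
  intro z hz
  have : ∀ᶠ y in 𝓝 z, ∀ s ∈ Icc (0 : ℝ) 1, y + s • v ∈ O := by
    apply isCompact_Icc.eventually_forall_of_forall_eventually
    intro s hs
    have hc : Continuous fun p : V × ℝ => p.1 + p.2 • v := by fun_prop
    exact hc.continuousAt.eventually (hO.mem_nhds (hz s hs))
  exact this

/-- second order Taylor inequality -/
lemma taylor_lower {f : V → ℝ} {z v : V} {c : ℝ}
    (hf : ∀ s ∈ Icc (0 : ℝ) 1, ContDiffAt ℝ 2 f (z + s • v))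
    (hd : ∀ s ∈ Icc (0 : ℝ) 1, c ≤ fderiv ℝ (fderiv ℝ f) (z + s • v) v v) :
    f z + fderiv ℝ f z v + c / 2 ≤ f (z + v) := by
  have hl : ∀ s : ℝ, HasDerivAt (fun s : ℝ => z + s • v) v s := by
    intro s
    simpa using ((hasDerivAt_id s).smul_const v).const_add z
  have h1 : ∀ s ∈ Icc (0 : ℝ) 1, HasDerivAt (fun s : ℝ => f (z + s • v))
      (fderiv ℝ f (z + s • v) v) s := by
    intro s hs
    exact (((hf s hs).differentiableAt (by norm_num)).hasFDerivAt).comp_hasDerivAt s (hl s)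
  have h2 : ∀ s ∈ Icc (0 : ℝ) 1, HasDerivAt (fun s : ℝ => fderiv ℝ f (z + s • v) v)
      (fderiv ℝ (fderiv ℝ f) (z + s • v) v v) s := by
    intro s hs
    have h3 : DifferentiableAt ℝ (fderiv ℝ f) (z + s • v) :=
      ((hf s hs).fderiv_right (m := 1) (by norm_num)).differentiableAt (by norm_num)
    have h4 := h3.hasFDerivAt.comp_hasDerivAt s (hl s)
    have h5 := h4.clm_apply (hasDerivAt_const s v)
    simpa using h5
  have h5 : ∀ s ∈ Icc (0 : ℝ) 1, fderiv ℝ f z v + c * s ≤ fderiv ℝ f (z + s • v) v := by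
    intro s hs
    have hmono : MonotoneOn (fun s : ℝ => fderiv ℝ f (z + s • v) v - c * s) (Icc 0 1) := by
      apply monotoneOn_of_hasDerivWithinAt_nonneg (convex_Icc 0 1)
        (f' := fun s => fderiv ℝ (fderiv ℝ f) (z + s • v) v v - c)
      · intro s hs
        exact ((h2 s hs).continuousAt.sub (by fun_prop)).continuousWithinAt
      · intro s hs
        rw [interior_Icc] at hs
        have := (h2 s ⟨hs.1.le, hs.2.le⟩).fun_sub ((hasDerivAt_id s).const_mul c)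
        simpa using this.hasDerivWithinAt
      · intro s hs
        rw [interior_Icc] at hs
        have := hd s ⟨hs.1.le, hs.2.le⟩
        linarith
    have := hmono (left_mem_Icc.2 zero_le_one) hs hs.1
    simp at this
    linarith
  have hmono : MonotoneOn (fun s : ℝ => f (z + s • v) - (fderiv ℝ f z v * s + c / 2 * s ^ 2))
      (Icc 0 1) := by
    apply monotoneOn_of_hasDerivWithinAt_nonneg (convex_Icc 0 1)
      (f' := fun s => fderiv ℝ f (z + s • v) v - (fderiv ℝ f z v + c * s))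
    · intro s hs
      exact ((h1 s hs).continuousAt.sub (by fun_prop)).continuousWithinAt
    · intro s hs
      rw [interior_Icc] at hs
      have h6 : HasDerivAt (fun s : ℝ => fderiv ℝ f z v * s + c / 2 * s ^ 2)
          (fderiv ℝ f z v + c * s) s := by
        have h7 := ((hasDerivAt_id' s).const_mul (fderiv ℝ f z v)).fun_add
          (((hasDerivAt_id' s).fun_pow 2).const_mul (c / 2))
        refine h7.congr_deriv ?_
        norm_num
        ring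
      exact ((h1 s ⟨hs.1.le, hs.2.le⟩).fun_sub h6).hasDerivWithinAt
    · intro s hs
      rw [interior_Icc] at hs
      have := h5 s ⟨hs.1.le, hs.2.le⟩
      linarith
  have := hmono (left_mem_Icc.2 zero_le_one) (right_mem_Icc.2 zero_le_one) zero_le_one
  simp at this
  linarith

/-- Type 1: noncritical points -/
lemma good_noncrit {g : V → ℝ} {z₀ : V} {Ω : Set V} (hΩ : IsOpen Ω) (hz : z₀ ∈ Ω)
    (hg : ContDiffOn ℝ 2 g Ω) (hd : fderiv ℝ g z₀ ≠ 0) : Good g z₀ Ω := by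
  obtain ⟨e, he⟩ : ∃ e, fderiv ℝ g z₀ e = 2 := by
    obtain ⟨v, hv⟩ : ∃ v, fderiv ℝ g z₀ v ≠ 0 := by
      by_contra h
      push Not at h
      exact hd (ContinuousLinearMap.ext h)
    refine ⟨(2 / fderiv ℝ g z₀ v) • v, ?_⟩
    rw [map_smul, smul_eq_mul]
    field_simp
  set M : ℝ := ‖e‖ + 1 with hM
  have hMpos : 0 < M := by positivity
  have hgat : ContDiffAt ℝ 2 g z₀ := hg.contDiffAt (hΩ.mem_nhds hz)
  have hcont : ContinuousAt (fderiv ℝ g) z₀ :=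
    (hgat.fderiv_right (m := 1) (by norm_num)).continuousAt
  have ev1 : ∀ᶠ z in 𝓝 z₀, ‖fderiv ℝ g z - fderiv ℝ g z₀‖ < 1 / (2 * M) := by
    have := Metric.continuousAt_iff'.1 hcont (1 / (2 * M)) (by positivity)
    filter_upwards [this] with z hz
    rwa [← dist_eq_norm]
  obtain ⟨R₁, hR₁, hb₁⟩ := Metric.eventually_nhds_iff_ball.1 (ev1.and (hΩ.mem_nhds hz))
  set R : ℝ := R₁ / 2 with hR
  have hRpos : 0 < R := by positivity
  set T : ℝ := R / (2 * M) with hT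
  have hTpos : 0 < T := by positivity
  have hTe : T * ‖e‖ ≤ R / 2 := by
    rw [hT, div_mul_eq_mul_div, div_le_iff₀ (by positivity)]
    nlinarith
  have ev2 : ∀ᶠ z in 𝓝 z₀, |g z - g z₀| < T / 8 := by
    have := Metric.continuousAt_iff'.1 hgat.continuousAt (T / 8) (by positivity)
    filter_upwards [this] with z hz
    rwa [← Real.dist_eq]
  obtain ⟨r₁, hr₁, hb₂⟩ := Metric.eventually_nhds_iff_ball.1 ev2
  set r : ℝ := min r₁ (R / 2) with hr
  have hrpos : 0 < r := by positivity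
  have hrR : r ≤ R / 2 := min_le_right _ _
  have hrr : r ≤ r₁ := min_le_left _ _
  set ε : ℝ := min (T / 8) (1 / (2 * M)) with hε
  have hεpos : 0 < ε := by positivity
  have hε1 : ε ≤ T / 8 := min_le_left _ _
  have hε2 : ε ≤ 1 / (2 * M) := min_le_right _ _
  refine ⟨R, hRpos, r, hrpos, ε, hεpos, by linarith, ?_, ?_⟩
  · intro z hz'
    refine (hb₁ z ?_).2
    rw [mem_ball]
    rw [mem_closedBall] at hz'
    linarith
  intro f t hf hf0 hf1 _ ht a ha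
  have hball : ∀ z ∈ ball z₀ r, ∀ s ∈ Icc (0 : ℝ) 1, z + s • (T • e) ∈ ball z₀ R := by
    intro z hz s hs
    rw [mem_ball, dist_eq_norm] at hz ⊢
    calc ‖z + s • (T • e) - z₀‖ = ‖(z - z₀) + s • (T • e)‖ := by congr 1; abel
      _ ≤ ‖z - z₀‖ + ‖s • (T • e)‖ := norm_add_le _ _
      _ = ‖z - z₀‖ + s * (T * ‖e‖) := by
          rw [norm_smul, norm_smul, Real.norm_of_nonneg hs.1, Real.norm_of_nonneg hTpos.le]
      _ < r + 1 * (R / 2) := by
          apply add_lt_add_of_lt_of_le hz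
          exact mul_le_mul hs.2 hTe (by positivity) zero_le_one
      _ ≤ R := by linarith
  have hslope : ∀ z ∈ ball z₀ R, 1 ≤ fderiv ℝ f z e := by
    intro z hz
    have hz1 : z ∈ ball z₀ R₁ := ball_subset_ball (by linarith) hz
    have h1 := (hb₁ z hz1).1
    have h2 := hf1 z hz
    have h3 : ‖fderiv ℝ f z - fderiv ℝ g z₀‖ ≤ 1 / M := by
      calc ‖fderiv ℝ f z - fderiv ℝ g z₀‖ = ‖(fderiv ℝ f z - fderiv ℝ g z) +
            (fderiv ℝ g z - fderiv ℝ g z₀)‖ := by congr 1; abel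
        _ ≤ ‖fderiv ℝ f z - fderiv ℝ g z‖ + ‖fderiv ℝ g z - fderiv ℝ g z₀‖ := norm_add_le _ _
        _ ≤ 1 / (2 * M) + 1 / (2 * M) := add_le_add (h2.trans hε2) h1.le
        _ = 1 / M := by field_simp; norm_num
    have h4 : |fderiv ℝ f z e - fderiv ℝ g z₀ e| ≤ 1 := by
      have h5 := (fderiv ℝ f z - fderiv ℝ g z₀).le_opNorm e
      rw [sub_apply, Real.norm_eq_abs] at h5
      calc _ ≤ ‖fderiv ℝ f z - fderiv ℝ g z₀‖ * ‖e‖ := h5
        _ ≤ 1 / M * M := mul_le_mul h3 (by linarith) (by positivity) (by positivity)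
        _ = 1 := by field_simp
    rw [he, abs_le] at h4
    linarith [h4.1]
  have hgrow : ∀ z ∈ ball z₀ r, ∀ s ∈ Icc (0 : ℝ) 1, f z + s * T ≤ f (z + s • (T • e)) := by
    intro z hz s hs
    have hin : ∀ s' ∈ Icc (0 : ℝ) 1, z + s' • (s • (T • e)) ∈ ball z₀ R := by
      intro s' hs'
      rw [← mul_smul]
      exact hball z hz _ ⟨mul_nonneg hs'.1 hs.1, by nlinarith [hs'.1, hs'.2, hs.1, hs.2]⟩
    apply mvt_lower
    · intro s' hs'
      exact (hf.contDiffAt (isOpen_ball.mem_nhds (hin s' hs'))).differentiableAt (by norm_num)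
    · intro s' hs'
      rw [map_smul, map_smul, smul_eq_mul, smul_eq_mul]
      have := hslope _ (hin s' hs')
      have h0 : 0 ≤ s * T := mul_nonneg hs.1 hTpos.le
      nlinarith
  have hO : IsOpen (ball z₀ R ∩ {z | t < f z}) := isOpen_super hf.continuousOn
  have hUo : IsOpen (ball z₀ r ∩ {z | t < f z}) :=
    isOpen_super (hf.continuousOn.mono (ball_subset_ball (by linarith)))
  rw [abs_le] at ht
  have hC : ∀ z ∈ ball z₀ r, z + T • e ∈ ball z₀ R ∩ {z | t < f z} := by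
    intro z hz
    have h1 := hgrow z hz 1 (by simp)
    have h2 := hball z hz 1 (by simp)
    rw [one_smul] at h1 h2
    refine ⟨h2, ?_⟩
    have h3 := abs_le.1 (hf0 z (ball_subset_ball (by linarith) hz))
    have h4 := abs_lt.1 (hb₂ z (ball_subset_ball hrr hz))
    simp only [mem_ofPred_eq]
    linarith
  refine ray (C := ball (z₀ + T • e) r) (v := T • e) hO ha hUo ?_ (convex_ball _ _) isOpen_ball
    ?_ ?_
  · intro z hz s hs
    refine ⟨hball z hz.1 s hs, ?_⟩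
    have h1 := hgrow z hz.1 s hs
    have h2 : t < f z := hz.2
    have h0 : 0 ≤ s * T := mul_nonneg hs.1 hTpos.le
    simp only [mem_ofPred_eq]
    linarith
  · intro w hw
    have : w - T • e ∈ ball z₀ r := by
      rw [mem_ball, dist_eq_norm] at hw ⊢
      rwa [show w - T • e - z₀ = w - (z₀ + T • e) by abel]
    simpa using hC _ this
  · intro z hz
    have := hz.1
    rw [mem_ball, dist_eq_norm] at this ⊢
    rwa [show z + T • e - (z₀ + T • e) = z - z₀ by abel]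

lemma const_seg {a : V → V →L[ℝ] ℝ} {N : Set V} (hN : IsOpen N) {g h : V → ℝ}
    (hg : PrimOn g a N) (hh : PrimOn h a N) {x y : V} (hxy : segment ℝ x y ⊆ N) :
    g x - h x = g y - h y := by
  obtain ⟨ρ, hρ, hsub⟩ : ∃ ρ : ℝ, 0 < ρ ∧ thickening ρ (segment ℝ x y) ⊆ N := by
    refine IsCompact.exists_thickening_subset_open ?_ hN hxy
    rw [segment_eq_image]
    exact isCompact_Icc.image (by fun_prop)
  exact prim_unique ((convex_segment _ _).thickening _) isOpen_thickening (hg.mono hsub)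
    (hh.mono hsub) (self_subset_thickening hρ _ (left_mem_segment _ _ _))
    (self_subset_thickening hρ _ (right_mem_segment _ _ _))

/-- the product of a ball with a square -/
def Box (z₀ : V) (r : ℝ) (e₂ e₃ : V) : Set V :=
  {w | ∃ z ∈ ball z₀ r, ∃ β ∈ Icc (-1 : ℝ) 1, ∃ γ ∈ Icc (-1 : ℝ) 1, w = z + β • e₂ + γ • e₃}

lemma box_open {z₀ : V} {r : ℝ} {e₂ e₃ : V} : IsOpen (Box z₀ r e₂ e₃) := by
  rw [isOpen_iff_mem_nhds]
  rintro w ⟨z, hz, β, hβ, γ, hγ, rfl⟩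
  have : ∀ᶠ y in 𝓝 (z + β • e₂ + γ • e₃), y - β • e₂ - γ • e₃ ∈ ball z₀ r := by
    have hc : ContinuousAt (fun y => y - β • e₂ - γ • e₃) (z + β • e₂ + γ • e₃) := by fun_prop
    apply hc.eventually
    apply isOpen_ball.mem_nhds
    have h : z + β • e₂ + γ • e₃ - β • e₂ - γ • e₃ = z := by abel
    show z + β • e₂ + γ • e₃ - β • e₂ - γ • e₃ ∈ ball z₀ r
    rw [h]
    exact hz
  filter_upwards [this] with y hy
  exact ⟨_, hy, β, hβ, γ, hγ, by abel⟩

lemma box_convex {z₀ : V} {r : ℝ} {e₂ e₃ : V} : Convex ℝ (Box z₀ r e₂ e₃) := by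
  rintro w ⟨z, hz, β, hβ, γ, hγ, rfl⟩ w' ⟨z', hz', β', hβ', γ', hγ', rfl⟩ p q hp hq hpq
  refine ⟨p • z + q • z', (convex_ball z₀ r) hz hz' hp hq hpq, p * β + q * β',
    (convex_Icc (-1 : ℝ) 1) hβ hβ' hp hq hpq, p * γ + q * γ',
    (convex_Icc (-1 : ℝ) 1) hγ hγ' hp hq hpq, ?_⟩
  module

/-- gluing of the two primitives at a point of type 3 -/
lemma glue {a : V → V →L[ℝ] ℝ} {O : Set V} {z₀ : V} {r : ℝ} {e₁ e₂ e₃ : V} (hr : 0 < r)
    (hO : IsOpen O) (ha : ClosedOn a O)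
    (hG : ∀ z ∈ ball z₀ r, ∀ α ∈ Icc (-1 : ℝ) 1, ∀ β ∈ Icc (-1 : ℝ) 1, ∀ γ ∈ Icc (-1 : ℝ) 1,
      (|α| = 1 ∨ |β| = 1 ∨ |γ| = 1) → z + α • e₁ + β • e₂ + γ • e₃ ∈ O)
    (h1 : ∀ z ∈ ball z₀ r, z ∈ O → ∃ σ : ℝ, (σ = 1 ∨ σ = -1) ∧
      ∀ s ∈ Icc (0 : ℝ) 1, z + s • (σ • e₁) ∈ O)
    (h2 : ∀ z ∈ ball z₀ r, (∀ s ∈ Icc (-1 : ℝ) 1, z + s • e₁ ∈ O) → ∃ σ : ℝ, (σ = 1 ∨ σ = -1) ∧
      ∀ s ∈ Icc (0 : ℝ) 1, ∀ s' ∈ Icc (-1 : ℝ) 1, z + s' • e₁ + s • (σ • e₂) ∈ O) :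
    ∃ G, PrimOn G a (ball z₀ r ∩ O) := by
  classical
  have hbox0 : ∀ z ∈ ball z₀ r, z ∈ Box z₀ r e₂ e₃ := by
    intro z hz
    exact ⟨z, hz, 0, by simp, 0, by simp, by simp⟩
  -- primitives on U^σ
  have hprim : ∀ σ : ℝ, (σ = 1 ∨ σ = -1) → ∃ G, PrimOn G a (Box z₀ r e₂ e₃ ∩
      {z : V | ∀ s ∈ Icc (0 : ℝ) 1, z + s • (σ • e₁) ∈ O}) := by
    intro σ hσ
    have hσ1 : |σ| = 1 := by rcases hσ with rfl | rfl <;> simp
    refine ray (C := (fun w => w - σ • e₁) ⁻¹' (Box z₀ r e₂ e₃)) (v := σ • e₁) hO ha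
      (box_open.inter (isOpen_seg hO _)) ?_ ?_ ?_ ?_ ?_
    · intro z hz s hs
      exact hz.2 s hs
    · have := (box_convex (z₀ := z₀) (r := r) (e₂ := e₂) (e₃ := e₃)).translate_preimage_left
        (-(σ • e₁))
      simpa only [sub_eq_add_neg] using this
    · exact box_open.preimage (by fun_prop)
    · intro w hw
      obtain ⟨z, hz, β, hβ, γ, hγ, h⟩ := hw
      have := hG z hz σ ⟨by linarith [neg_abs_le σ], by linarith [le_abs_self σ]⟩ β hβ γ hγ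
        (Or.inl hσ1)
      have h' : w = z + σ • e₁ + β • e₂ + γ • e₃ := by
        have h3 : w = (w - σ • e₁) + σ • e₁ := by abel
        rw [h3]
        simp only at h
        rw [h]
        abel
      rwa [h']
    · intro z hz
      simpa using hz.1
  obtain ⟨gp, hgp⟩ := hprim 1 (Or.inl rfl)
  obtain ⟨gm, hgm⟩ := hprim (-1) (Or.inr rfl)
  set Up := Box z₀ r e₂ e₃ ∩ {z : V | ∀ s ∈ Icc (0 : ℝ) 1, z + s • ((1 : ℝ) • e₁) ∈ O} with hUp
  set Um := Box z₀ r e₂ e₃ ∩ {z : V | ∀ s ∈ Icc (0 : ℝ) 1, z + s • ((-1 : ℝ) • e₁) ∈ O} with hUm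
  have hUpo : IsOpen Up := box_open.inter (isOpen_seg hO _)
  have hUmo : IsOpen Um := box_open.inter (isOpen_seg hO _)
  have hNo : IsOpen (Up ∩ Um) := hUpo.inter hUmo
  -- membership in N
  have hN : ∀ z ∈ ball z₀ r, ∀ β ∈ Icc (-1 : ℝ) 1, ∀ γ ∈ Icc (-1 : ℝ) 1,
      (∀ s ∈ Icc (-1 : ℝ) 1, z + s • e₁ + β • e₂ + γ • e₃ ∈ O) →
      z + β • e₂ + γ • e₃ ∈ Up ∩ Um := by
    intro z hz β hβ γ hγ h
    refine ⟨⟨⟨z, hz, β, hβ, γ, hγ, rfl⟩, ?_⟩, ⟨⟨z, hz, β, hβ, γ, hγ, rfl⟩, ?_⟩⟩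
    · intro s hs
      have := h s ⟨by linarith [hs.1], hs.2⟩
      convert this using 1
      module
    · intro s hs
      have := h (-s) ⟨by linarith [hs.2], by linarith [hs.1]⟩
      convert this using 1
      module
  have hsq : ∀ z ∈ ball z₀ r, ∀ β ∈ Icc (-1 : ℝ) 1, ∀ γ ∈ Icc (-1 : ℝ) 1, (|β| = 1 ∨ |γ| = 1) →
      z + β • e₂ + γ • e₃ ∈ Up ∩ Um := by
    intro z hz β hβ γ hγ h
    exact hN z hz β hβ γ hγ fun s hs => hG z hz s hs β hβ γ hγ (Or.inr h)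
  have hz₀ : z₀ ∈ ball z₀ r := mem_ball_self hr
  have hcs : ∀ x y : V, segment ℝ x y ⊆ Up ∩ Um → gp x - gm x = gp y - gm y := by
    intro x y h
    exact const_seg hNo (hgp.mono inter_subset_left) (hgm.mono inter_subset_right) h
  have hm1 : (-1 : ℝ) ∈ Icc (-1 : ℝ) 1 := by simp
  have h11 : (1 : ℝ) ∈ Icc (-1 : ℝ) 1 := by simp
  -- square path
  have path : gp (z₀ + (1 : ℝ) • e₂) - gm (z₀ + (1 : ℝ) • e₂) =
      gp (z₀ + (-1 : ℝ) • e₂) - gm (z₀ + (-1 : ℝ) • e₂) := by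
    have s1 : gp (z₀ + (1 : ℝ) • e₂) - gm (z₀ + (1 : ℝ) • e₂) =
        gp (z₀ + (1 : ℝ) • e₂ + e₃) - gm (z₀ + (1 : ℝ) • e₂ + e₃) := by
      apply hcs
      intro y hy
      obtain ⟨s, hs, rfl⟩ := of_mem_seg hy
      exact hsq z₀ hz₀ 1 h11 s ⟨by linarith [hs.1], hs.2⟩ (by simp)
    have s2 : gp (z₀ + (1 : ℝ) • e₂ + e₃) - gm (z₀ + (1 : ℝ) • e₂ + e₃) =
        gp (z₀ + (1 : ℝ) • e₂ + e₃ + (-2 : ℝ) • e₂) -
          gm (z₀ + (1 : ℝ) • e₂ + e₃ + (-2 : ℝ) • e₂) := by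
      apply hcs
      intro y hy
      obtain ⟨s, hs, rfl⟩ := of_mem_seg hy
      have := hsq z₀ hz₀ (1 - 2 * s) ⟨by linarith [hs.2], by linarith [hs.1]⟩ 1 h11 (by simp)
      convert this using 1
      module
    have s3 : gp (z₀ + (-1 : ℝ) • e₂) - gm (z₀ + (-1 : ℝ) • e₂) =
        gp (z₀ + (-1 : ℝ) • e₂ + e₃) - gm (z₀ + (-1 : ℝ) • e₂ + e₃) := by
      apply hcs
      intro y hy
      obtain ⟨s, hs, rfl⟩ := of_mem_seg hy
      exact hsq z₀ hz₀ (-1) hm1 s ⟨by linarith [hs.1], hs.2⟩ (by simp)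
    rw [s1, s2, s3]
    have : z₀ + (1 : ℝ) • e₂ + e₃ + (-2 : ℝ) • e₂ = z₀ + (-1 : ℝ) • e₂ + e₃ := by module
    rw [this]
  have hconst : ∀ z ∈ ball z₀ r, z ∈ Up ∩ Um →
      gp z - gm z = gp (z₀ + (1 : ℝ) • e₂) - gm (z₀ + (1 : ℝ) • e₂) := by
    intro z hz hzN
    have hall : ∀ s ∈ Icc (-1 : ℝ) 1, z + s • e₁ ∈ O := by
      intro s hs
      rcases le_total 0 s with h | h
      · have := hzN.1.2 s ⟨h, hs.2⟩
        rwa [one_smul] at this
      · have := hzN.2.2 (-s) ⟨by linarith, by linarith [hs.1]⟩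
        rwa [smul_smul, show -s * -1 = s by ring] at this
    obtain ⟨σ, hσ, hσ'⟩ := h2 z hz hall
    have hσ1 : |σ| = 1 := by rcases hσ with rfl | rfl <;> simp
    have hσI : σ ∈ Icc (-1 : ℝ) 1 := ⟨by linarith [neg_abs_le σ], by linarith [le_abs_self σ]⟩
    have s1 : gp z - gm z = gp (z + σ • e₂) - gm (z + σ • e₂) := by
      apply hcs
      intro y hy
      obtain ⟨s, hs, rfl⟩ := of_mem_seg hy
      have := hN z hz (s * σ) ?_ 0 (by simp) ?_
      · convert this using 1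
        module
      · rcases hσ with rfl | rfl
        · exact ⟨by linarith [hs.1], by linarith [hs.2]⟩
        · exact ⟨by linarith [hs.2], by linarith [hs.1]⟩
      · intro s' hs'
        have := hσ' s hs s' hs'
        convert this using 1
        module
    have s2 : gp (z + σ • e₂) - gm (z + σ • e₂) = gp (z₀ + σ • e₂) - gm (z₀ + σ • e₂) := by
      apply hcs
      intro y hy
      rw [segment_eq_image] at hy
      obtain ⟨s, hs, rfl⟩ := hy
      have hz' : (1 - s) • z + s • z₀ ∈ ball z₀ r :=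
        (convex_ball z₀ r) hz hz₀ (by linarith [hs.2]) hs.1 (by ring)
      have := hsq _ hz' σ hσI 0 (by simp) (Or.inl hσ1)
      convert this using 1
      module
    rw [s1, s2]
    rcases hσ with rfl | rfl
    · rfl
    · exact path.symm
  set k := gp (z₀ + (1 : ℝ) • e₂) - gm (z₀ + (1 : ℝ) • e₂) with hk
  refine ⟨fun z => if z ∈ Up then gp z else gm z + k, ?_⟩
  intro z hz
  by_cases hzU : z ∈ Up
  · have : (fun z => if z ∈ Up then gp z else gm z + k) =ᶠ[𝓝 z] gp := by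
      filter_upwards [hUpo.mem_nhds hzU] with y hy
      simp [hy]
    exact (hgp z hzU).congr_of_eventuallyEq this
  · have hzm : z ∈ Um := by
      obtain ⟨σ, hσ, h⟩ := h1 z hz.1 hz.2
      rcases hσ with rfl | rfl
      · exact absurd ⟨hbox0 z hz.1, h⟩ hzU
      · exact ⟨hbox0 z hz.1, h⟩
    have : (fun z => if z ∈ Up then gp z else gm z + k) =ᶠ[𝓝 z] fun z => gm z + k := by
      filter_upwards [hUmo.mem_nhds hzm, isOpen_ball.mem_nhds hz.1] with y hy hyb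
      by_cases hyU : y ∈ Up
      · have := hconst y hyb ⟨hyU, hy⟩
        simp only [hyU, if_true]
        linarith
      · simp [hyU]
    exact ((hgm z hzm).add_const k).congr_of_eventuallyEq this

lemma ev_norm {E F : Type*} [TopologicalSpace E] [NormedAddCommGroup F] {f : E → F} {x : E}
    (h : ContinuousAt f x) {ε : ℝ} (hε : 0 < ε) : ∀ᶠ z in 𝓝 x, ‖f z - f x‖ < ε := by
  have := Metric.continuousAt_iff'.1 h ε hε
  filter_upwards [this] with z hz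
  rwa [← dist_eq_norm]

lemma tri {F : Type*} [NormedAddCommGroup F] (x y z : F) : ‖x - z‖ ≤ ‖x - y‖ + ‖y - z‖ := by
  simpa [dist_eq_norm] using dist_triangle x y z

/-- Type 3: critical points with three directions of growth -/
lemma good_crit {g : V → ℝ} {z₀ : V} {Ω : Set V} (hΩ : IsOpen Ω) (hz : z₀ ∈ Ω)
    (hg : ContDiffOn ℝ 2 g Ω) (hd : fderiv ℝ g z₀ = 0) {v₁ v₂ v₃ : V} {κ : ℝ} (hκ : 0 < κ)
    (hB : ∀ α β γ : ℝ, κ * (α ^ 2 + β ^ 2 + γ ^ 2) ≤
      fderiv ℝ (fderiv ℝ g) z₀ (α • v₁ + β • v₂ + γ • v₃) (α • v₁ + β • v₂ + γ • v₃)) :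
    Good g z₀ Ω := by
  set S : ℝ := ‖v₁‖ + ‖v₂‖ + ‖v₃‖ + 1 with hSdef
  have hS : 0 < S := by positivity
  have hwn : ∀ α β γ m : ℝ, |α| ≤ m → |β| ≤ m → |γ| ≤ m →
      ‖α • v₁ + β • v₂ + γ • v₃‖ ≤ m * S := by
    intro α β γ m hα hβ hγ
    have hm : 0 ≤ m := (abs_nonneg α).trans hα
    calc ‖α • v₁ + β • v₂ + γ • v₃‖ ≤ ‖α • v₁‖ + ‖β • v₂‖ + ‖γ • v₃‖ := norm_add₃_le
      _ = |α| * ‖v₁‖ + |β| * ‖v₂‖ + |γ| * ‖v₃‖ := by
          rw [norm_smul, norm_smul, norm_smul, Real.norm_eq_abs, Real.norm_eq_abs,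
            Real.norm_eq_abs]
      _ ≤ m * ‖v₁‖ + m * ‖v₂‖ + m * ‖v₃‖ := by gcongr
      _ ≤ m * S := by rw [hSdef]; nlinarith
  have hw2 : ∀ α β γ : ℝ, ‖α • v₁ + β • v₂ + γ • v₃‖ * ‖α • v₁ + β • v₂ + γ • v₃‖ ≤
      S ^ 2 * (α ^ 2 + β ^ 2 + γ ^ 2) := by
    intro α β γ
    have h1 := hwn α β γ (√(α ^ 2 + β ^ 2 + γ ^ 2))
      (Real.abs_le_sqrt (by nlinarith [sq_nonneg β, sq_nonneg γ]))
      (Real.abs_le_sqrt (by nlinarith [sq_nonneg α, sq_nonneg γ]))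
      (Real.abs_le_sqrt (by nlinarith [sq_nonneg α, sq_nonneg β]))
    calc _ ≤ (√(α ^ 2 + β ^ 2 + γ ^ 2) * S) * (√(α ^ 2 + β ^ 2 + γ ^ 2) * S) :=
          mul_le_mul h1 h1 (norm_nonneg _) (by positivity)
      _ = (√(α ^ 2 + β ^ 2 + γ ^ 2) * √(α ^ 2 + β ^ 2 + γ ^ 2)) * S ^ 2 := by ring
      _ = S ^ 2 * (α ^ 2 + β ^ 2 + γ ^ 2) := by
          rw [Real.mul_self_sqrt (by positivity)]; ring
  have hgat : ContDiffAt ℝ 2 g z₀ := hg.contDiffAt (hΩ.mem_nhds hz)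
  have hg1 : ContDiffAt ℝ 1 (fderiv ℝ g) z₀ := hgat.fderiv_right (m := 1) (by norm_num)
  have hcont : ContinuousAt (fderiv ℝ g) z₀ := hg1.continuousAt
  have hcont2 : ContinuousAt (fderiv ℝ (fderiv ℝ g)) z₀ :=
    (hg1.fderiv_right (m := 0) (by norm_num)).continuousAt
  have ev1 : ∀ᶠ z in 𝓝 z₀, ‖fderiv ℝ (fderiv ℝ g) z - fderiv ℝ (fderiv ℝ g) z₀‖ <
      κ / (4 * S ^ 2) := ev_norm (F := V →L[ℝ] V →L[ℝ] ℝ) hcont2 (by positivity)
  obtain ⟨R₁, hR₁, hb₁⟩ := Metric.eventually_nhds_iff_ball.1 (ev1.and (hΩ.mem_nhds hz))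
  set R : ℝ := R₁ / 2 with hR
  have hRpos : 0 < R := by positivity
  set T : ℝ := R / (2 * S) with hT
  have hTpos : 0 < T := by positivity
  have hTS : T * S = R / 2 := by
    rw [hT]; field_simp
  have ev2 : ∀ᶠ z in 𝓝 z₀, |g z - g z₀| < κ * T ^ 2 / 64 := by
    have := Metric.continuousAt_iff'.1 hgat.continuousAt (κ * T ^ 2 / 64) (by positivity)
    filter_upwards [this] with z hz
    rwa [← Real.dist_eq]
  have ev3 : ∀ᶠ z in 𝓝 z₀, ‖fderiv ℝ g z‖ < κ * T / (32 * S) := by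
    have := Metric.continuousAt_iff'.1 hcont (κ * T / (32 * S)) (by positivity)
    filter_upwards [this] with z hz
    rwa [dist_eq_norm, hd, sub_zero] at hz
  obtain ⟨r₁, hr₁, hb₂⟩ := Metric.eventually_nhds_iff_ball.1 (ev2.and ev3)
  set r : ℝ := min r₁ (R / 2) with hr
  have hrpos : 0 < r := by positivity
  have hrR : r ≤ R / 2 := min_le_right _ _
  have hrr : r ≤ r₁ := min_le_left _ _
  set ε : ℝ := min (min (κ * T ^ 2 / 64) (κ * T / (32 * S))) (κ / (4 * S ^ 2)) with hε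
  have hεpos : 0 < ε := by positivity
  have hε1 : ε ≤ κ * T ^ 2 / 64 := (min_le_left _ _).trans (min_le_left _ _)
  have hε2 : ε ≤ κ * T / (32 * S) := (min_le_left _ _).trans (min_le_right _ _)
  have hε3 : ε ≤ κ / (4 * S ^ 2) := min_le_right _ _
  refine ⟨R, hRpos, r, hrpos, ε, hεpos, by linarith, ?_, ?_⟩
  · intro z hz'
    refine (hb₁ z ?_).2
    rw [mem_ball]
    rw [mem_closedBall] at hz'
    linarith
  intro f t hf hf0 hf1 hf2 ht a ha
  rw [abs_le] at ht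
  have hO : IsOpen (ball z₀ R ∩ {z | t < f z}) := isOpen_super hf.continuousOn
  -- convexity
  have hconv : ∀ z ∈ ball z₀ R, ∀ α β γ : ℝ, κ / 2 * (α ^ 2 + β ^ 2 + γ ^ 2) ≤
      fderiv ℝ (fderiv ℝ f) z (α • v₁ + β • v₂ + γ • v₃) (α • v₁ + β • v₂ + γ • v₃) := by
    intro z hz α β γ
    set w := α • v₁ + β • v₂ + γ • v₃ with hw
    have h1 := hB α β γ
    have h2 := hw2 α β γ
    rw [← hw] at h1 h2
    have h3 : ‖fderiv ℝ (fderiv ℝ f) z - fderiv ℝ (fderiv ℝ g) z₀‖ ≤ κ / (2 * S ^ 2) := by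
      calc _ ≤ ‖fderiv ℝ (fderiv ℝ f) z - fderiv ℝ (fderiv ℝ g) z‖ +
            ‖fderiv ℝ (fderiv ℝ g) z - fderiv ℝ (fderiv ℝ g) z₀‖ :=
              tri (F := V →L[ℝ] V →L[ℝ] ℝ) _ _ _
        _ ≤ κ / (4 * S ^ 2) + κ / (4 * S ^ 2) :=
            add_le_add ((hf2 z hz).trans hε3) (hb₁ z (ball_subset_ball (by linarith) hz)).1.le
        _ = κ / (2 * S ^ 2) := by field_simp; norm_num
    have h4 := (fderiv ℝ (fderiv ℝ f) z - fderiv ℝ (fderiv ℝ g) z₀).le_opNorm₂ w w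
    rw [sub_apply, sub_apply, Real.norm_eq_abs] at h4
    have h5 : |fderiv ℝ (fderiv ℝ f) z w w - fderiv ℝ (fderiv ℝ g) z₀ w w| ≤
        κ / 2 * (α ^ 2 + β ^ 2 + γ ^ 2) := by
      calc _ ≤ _ := h4
        _ = ‖fderiv ℝ (fderiv ℝ f) z - fderiv ℝ (fderiv ℝ g) z₀‖ * (‖w‖ * ‖w‖) := by ring
        _ ≤ κ / (2 * S ^ 2) * (S ^ 2 * (α ^ 2 + β ^ 2 + γ ^ 2)) :=
            mul_le_mul h3 h2 (by positivity) (by positivity)
        _ = κ / 2 * (α ^ 2 + β ^ 2 + γ ^ 2) := by field_simp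
    have h6 := (abs_le.1 h5).1
    linarith
  have htay : ∀ z : V, ∀ α β γ : ℝ, z ∈ ball z₀ R →
      z + (α • v₁ + β • v₂ + γ • v₃) ∈ ball z₀ R →
      f z + fderiv ℝ f z (α • v₁ + β • v₂ + γ • v₃) + κ / 2 * (α ^ 2 + β ^ 2 + γ ^ 2) / 2 ≤
        f (z + (α • v₁ + β • v₂ + γ • v₃)) := by
    intro z α β γ hz hz'
    have hin : ∀ s ∈ Icc (0 : ℝ) 1, z + s • (α • v₁ + β • v₂ + γ • v₃) ∈ ball z₀ R := by
      intro s hs
      exact (convex_ball z₀ R).segment_subset hz hz' (seg_sub hs)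
    apply taylor_lower
    · intro s hs
      exact hf.contDiffAt (isOpen_ball.mem_nhds (hin s hs))
    · intro s hs
      exact hconv _ (hin s hs) α β γ
  -- quasi-convexity
  have hmax : ∀ z : V, ∀ α β γ : ℝ, z ∈ ball z₀ R →
      z + (α • v₁ + β • v₂ + γ • v₃) ∈ ball z₀ R → f z ≤ t →
      f (z + (α • v₁ + β • v₂ + γ • v₃)) ≤ t → ∀ s ∈ Icc (0 : ℝ) 1,
      f (z + s • (α • v₁ + β • v₂ + γ • v₃)) ≤ t := by
    intro z α β γ hz hz' h1 h2 s hs
    have hq : z + s • (α • v₁ + β • v₂ + γ • v₃) ∈ ball z₀ R :=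
      (convex_ball z₀ R).segment_subset hz hz' (seg_sub hs)
    have e1 : z + s • (α • v₁ + β • v₂ + γ • v₃) +
        ((-s * α) • v₁ + (-s * β) • v₂ + (-s * γ) • v₃) = z := by module
    have e2 : z + s • (α • v₁ + β • v₂ + γ • v₃) +
        (((1 - s) * α) • v₁ + ((1 - s) * β) • v₂ + ((1 - s) * γ) • v₃) =
        z + (α • v₁ + β • v₂ + γ • v₃) := by module
    have t1 := htay (z + s • (α • v₁ + β • v₂ + γ • v₃)) (-s * α) (-s * β) (-s * γ) hq
      (by rw [e1]; exact hz)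
    have t2 := htay (z + s • (α • v₁ + β • v₂ + γ • v₃)) ((1 - s) * α) ((1 - s) * β)
      ((1 - s) * γ) hq (by rw [e2]; exact hz')
    rw [e1] at t1
    rw [e2] at t2
    have e3 : (-s * α) • v₁ + (-s * β) • v₂ + (-s * γ) • v₃ =
        (-s) • (α • v₁ + β • v₂ + γ • v₃) := by module
    have e4 : ((1 - s) * α) • v₁ + ((1 - s) * β) • v₂ + ((1 - s) * γ) • v₃ =
        (1 - s) • (α • v₁ + β • v₂ + γ • v₃) := by module
    rw [e3, map_smul, smul_eq_mul] at t1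
    rw [e4, map_smul, smul_eq_mul] at t2
    have p1 : 0 ≤ κ / 2 * ((-s * α) ^ 2 + (-s * β) ^ 2 + (-s * γ) ^ 2) / 2 := by positivity
    have p2 : 0 ≤ κ / 2 * (((1 - s) * α) ^ 2 + ((1 - s) * β) ^ 2 + ((1 - s) * γ) ^ 2) / 2 := by
      positivity
    rcases le_total 0 (fderiv ℝ f (z + s • (α • v₁ + β • v₂ + γ • v₃))
      (α • v₁ + β • v₂ + γ • v₃)) with h | h
    · have := mul_nonneg (sub_nonneg.2 hs.2) h
      linarith
    · have := mul_nonneg_of_nonpos_of_nonpos (neg_nonpos.2 hs.1) h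
      linarith
  have habs : ∀ x ∈ Icc (-1 : ℝ) 1, |x * T| ≤ T := by
    intro x hx
    rw [abs_mul, abs_of_pos hTpos]
    have : |x| ≤ 1 := abs_le.2 hx
    nlinarith
  have hin : ∀ z ∈ ball z₀ r, ∀ α ∈ Icc (-1 : ℝ) 1, ∀ β ∈ Icc (-1 : ℝ) 1, ∀ γ ∈ Icc (-1 : ℝ) 1,
      z + ((α * T) • v₁ + (β * T) • v₂ + (γ * T) • v₃) ∈ ball z₀ R := by
    intro z hz α hα β hβ γ hγ
    rw [mem_ball, dist_eq_norm] at hz ⊢
    calc ‖z + ((α * T) • v₁ + (β * T) • v₂ + (γ * T) • v₃) - z₀‖ =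
        ‖(z - z₀) + ((α * T) • v₁ + (β * T) • v₂ + (γ * T) • v₃)‖ := by congr 1; abel
      _ ≤ ‖z - z₀‖ + ‖(α * T) • v₁ + (β * T) • v₂ + (γ * T) • v₃‖ := norm_add_le _ _
      _ < r + T * S := add_lt_add_of_lt_of_le hz (hwn _ _ _ T (habs _ hα) (habs _ hβ) (habs _ hγ))
      _ ≤ R := by linarith
  have hrb : ball z₀ r ⊆ ball z₀ R := ball_subset_ball (by linarith)
  have hsetr : ball z₀ r ∩ {z | t < f z} = ball z₀ r ∩ (ball z₀ R ∩ {z | t < f z}) := by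
    rw [← inter_assoc, inter_eq_left.2 hrb]
  rw [hsetr]
  refine glue (e₁ := T • v₁) (e₂ := T • v₂) (e₃ := T • v₃) hrpos hO ha ?_ ?_ ?_
  · -- growth
    intro z hz α hα β hβ γ hγ h
    have hz' : z + α • T • v₁ + β • T • v₂ + γ • T • v₃ =
        z + ((α * T) • v₁ + (β * T) • v₂ + (γ * T) • v₃) := by module
    rw [hz']
    refine ⟨hin z hz α hα β hβ γ hγ, ?_⟩
    rw [mem_ofPred_eq]
    have h1 := htay z (α * T) (β * T) (γ * T) (hrb hz) (hin z hz α hα β hβ γ hγ)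
    have h2 : 1 ≤ α ^ 2 + β ^ 2 + γ ^ 2 := by
      rcases h with h | h | h
      · have : α ^ 2 = 1 := by rw [← sq_abs, h]; norm_num
        nlinarith [sq_nonneg β, sq_nonneg γ]
      · have : β ^ 2 = 1 := by rw [← sq_abs, h]; norm_num
        nlinarith [sq_nonneg α, sq_nonneg γ]
      · have : γ ^ 2 = 1 := by rw [← sq_abs, h]; norm_num
        nlinarith [sq_nonneg α, sq_nonneg β]
    have h3 : κ * T ^ 2 / 4 ≤ κ / 2 * ((α * T) ^ 2 + (β * T) ^ 2 + (γ * T) ^ 2) / 2 := by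
      have : κ / 2 * ((α * T) ^ 2 + (β * T) ^ 2 + (γ * T) ^ 2) / 2 =
          κ * T ^ 2 / 4 * (α ^ 2 + β ^ 2 + γ ^ 2) := by ring
      rw [this]
      have : 0 < κ * T ^ 2 / 4 := by positivity
      nlinarith
    have h4 : |fderiv ℝ f z ((α * T) • v₁ + (β * T) • v₂ + (γ * T) • v₃)| ≤ κ * T ^ 2 / 16 := by
      have h5 := (fderiv ℝ f z).le_opNorm ((α * T) • v₁ + (β * T) • v₂ + (γ * T) • v₃)
      rw [Real.norm_eq_abs] at h5
      have h6 := hwn (α * T) (β * T) (γ * T) T (habs _ hα) (habs _ hβ) (habs _ hγ)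
      have h7 : ‖fderiv ℝ f z‖ ≤ κ * T / (16 * S) := by
        calc ‖fderiv ℝ f z‖ = ‖(fderiv ℝ f z - fderiv ℝ g z) + fderiv ℝ g z‖ := by
              congr 1; abel
          _ ≤ ‖fderiv ℝ f z - fderiv ℝ g z‖ + ‖fderiv ℝ g z‖ := norm_add_le _ _
          _ ≤ κ * T / (32 * S) + κ * T / (32 * S) :=
              add_le_add ((hf1 z (hrb hz)).trans hε2)
                (hb₂ z (ball_subset_ball hrr hz)).2.le
          _ = κ * T / (16 * S) := by field_simp; norm_num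
      calc _ ≤ _ := h5
        _ ≤ κ * T / (16 * S) * (T * S) := mul_le_mul h7 h6 (norm_nonneg _) (by positivity)
        _ = κ * T ^ 2 / 16 := by field_simp
    have h8 := abs_le.1 (hf0 z (hrb hz))
    have h9 := abs_lt.1 (hb₂ z (ball_subset_ball hrr hz)).1
    have h10 := (abs_le.1 h4).1
    have h11 : 0 < κ * T ^ 2 := by positivity
    linarith
  · -- first direction
    intro z hz hzO
    have key : ∀ σ : ℝ, (σ = 1 ∨ σ = -1) → 0 ≤ fderiv ℝ f z (σ • v₁) →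
        ∀ s ∈ Icc (0 : ℝ) 1, z + s • (σ • T • v₁) ∈ ball z₀ R ∩ {z | t < f z} := by
      intro σ hσ h s hs
      have hsσ : s * σ ∈ Icc (-1 : ℝ) 1 := by
        rcases hσ with rfl | rfl
        · exact ⟨by linarith [hs.1], by linarith [hs.2]⟩
        · exact ⟨by linarith [hs.2], by linarith [hs.1]⟩
      have e : z + s • (σ • T • v₁) = z + ((s * σ * T) • v₁ + ((0 : ℝ) * T) • v₂ +
          ((0 : ℝ) * T) • v₃) := by module
      have h1 := hin z hz _ hsσ 0 (by simp) 0 (by simp)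
      rw [e]
      refine ⟨h1, ?_⟩
      rw [mem_ofPred_eq]
      have h2 := htay z (s * σ * T) (0 * T) (0 * T) (hrb hz) h1
      have e3 : ((s * σ * T) • v₁ + ((0 : ℝ) * T) • v₂ + ((0 : ℝ) * T) • v₃) =
          (s * T) • (σ • v₁) := by module
      have h3 : 0 ≤ fderiv ℝ f z ((s * σ * T) • v₁ + ((0 : ℝ) * T) • v₂ +
          ((0 : ℝ) * T) • v₃) := by
        rw [e3, map_smul, smul_eq_mul]
        exact mul_nonneg (mul_nonneg hs.1 hTpos.le) h
      have h4 : 0 ≤ κ / 2 * ((s * σ * T) ^ 2 + (0 * T) ^ 2 + (0 * T) ^ 2) / 2 := by positivity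
      have h5 : t < f z := hzO.2
      linarith
    rcases le_total 0 (fderiv ℝ f z v₁) with h | h
    · exact ⟨1, Or.inl rfl, key 1 (Or.inl rfl) (by rwa [one_smul])⟩
    · refine ⟨-1, Or.inr rfl, key (-1) (Or.inr rfl) ?_⟩
      rw [neg_one_smul, map_neg]
      linarith
  · -- second direction
    intro z hz hall
    by_contra hcon
    push Not at hcon
    obtain ⟨s₁, hs₁, u₁, hu₁, hn₁⟩ := hcon 1 (Or.inl rfl)
    obtain ⟨s₂, hs₂, u₂, hu₂, hn₂⟩ := hcon (-1) (Or.inr rfl)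
    have e1 : z + u₁ • T • v₁ + s₁ • ((1 : ℝ) • T • v₂) =
        z + ((u₁ * T) • v₁ + (s₁ * T) • v₂ + ((0 : ℝ) * T) • v₃) := by module
    have e2 : z + u₂ • T • v₁ + s₂ • ((-1 : ℝ) • T • v₂) =
        z + ((u₂ * T) • v₁ + (-s₂ * T) • v₂ + ((0 : ℝ) * T) • v₃) := by module
    have b1 := hin z hz u₁ hu₁ s₁ ⟨by linarith [hs₁.1], hs₁.2⟩ 0 (by simp)
    have b2 := hin z hz u₂ hu₂ (-s₂) ⟨by linarith [hs₂.2], by linarith [hs₂.1]⟩ 0 (by simp)
    have f1 : f (z + ((u₁ * T) • v₁ + (s₁ * T) • v₂ + ((0 : ℝ) * T) • v₃)) ≤ t := by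
      by_contra h
      apply hn₁
      rw [e1]
      exact ⟨b1, not_le.1 h⟩
    have f2 : f (z + ((u₂ * T) • v₁ + (-s₂ * T) • v₂ + ((0 : ℝ) * T) • v₃)) ≤ t := by
      by_contra h
      apply hn₂
      rw [e2]
      exact ⟨b2, not_le.1 h⟩
    have hs₁pos : 0 < s₁ := by
      rcases hs₁.1.lt_or_eq with h | h
      · exact h
      · exfalso
        have h3 := (hall u₁ hu₁).2
        rw [mem_ofPred_eq] at h3
        have e3 : z + u₁ • T • v₁ = z + ((u₁ * T) • v₁ + (s₁ * T) • v₂ + ((0 : ℝ) * T) • v₃) := by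
          rw [← h]; module
        rw [e3] at h3
        linarith
    set lam : ℝ := s₁ / (s₁ + s₂) with hlam
    have hden : 0 < s₁ + s₂ := by linarith [hs₂.1]
    have hlam0 : 0 ≤ lam := by positivity
    have hlam1 : lam ≤ 1 := by rw [hlam, div_le_one hden]; linarith [hs₂.1]
    have hz3 : s₁ - lam * (s₁ + s₂) = 0 := by rw [hlam]; field_simp; ring
    have hq := hmax (z + ((u₁ * T) • v₁ + (s₁ * T) • v₂ + ((0 : ℝ) * T) • v₃))
      ((u₂ - u₁) * T) ((-s₂ - s₁) * T) 0 b1 ?_ f1 ?_ lam ⟨hlam0, hlam1⟩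
    · have hu3 : (1 - lam) * u₁ + lam * u₂ ∈ Icc (-1 : ℝ) 1 :=
        (convex_Icc (-1 : ℝ) 1) hu₁ hu₂ (by linarith) hlam0 (by ring)
      have h3 := (hall _ hu3).2
      rw [mem_ofPred_eq] at h3
      have e3 : z + ((u₁ * T) • v₁ + (s₁ * T) • v₂ + ((0 : ℝ) * T) • v₃) +
          lam • (((u₂ - u₁) * T) • v₁ + ((-s₂ - s₁) * T) • v₂ + (0 : ℝ) • v₃) =
          z + ((1 - lam) * u₁ + lam * u₂) • T • v₁ + (s₁ - lam * (s₁ + s₂)) • T • v₂ := by
        module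
      rw [e3, hz3, zero_smul, add_zero] at hq
      linarith
    · convert b2 using 1
      module
    · convert f2 using 2
      module

end Pool.Agent.H88.ST
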