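import Pool.Agent.H88.ST.Int2

/-!
# The contradiction
-/

open Set Metric Filter Topology MeasureTheory
open scoped Manifold ContDiff

namespace Pool.Agent.H88.ST

variable {V : Type*} [NormedAddCommGroup V] [NormedSpace ℝ V] [FiniteDimensional ℝ V]
  {X : Type*} [TopologicalSpace X] [T2Space X] [ChartedSpace V X] [IsManifold 𝓘(ℝ, V) ∞ X]

omit [FiniteDimensional ℝ V] [T2Space X] in
/-- the values of `φ` just below the boundary value are attained -/
lemma exists_values {φ : X → ℝ} (hφ : ContMDiff 𝓘(ℝ, V) 𝓘(ℝ, ℝ) ∞ φ) {c m : ℝ} (hm : m < c)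
    {x₀ : X} (hx₀ : φ x₀ = c)
    (hreg : fderiv ℝ (φ ∘ (chartAt V x₀).symm) (chartAt V x₀ x₀) ≠ 0) :
    ∃ a b, m < a ∧ a < b ∧ b < c ∧ ∀ t ∈ Icc a b, ∃ x, φ x = t := by
  set e := chartAt V x₀ with he
  have hea : e ∈ atlas V X := chart_mem_atlas V x₀
  have hxs : x₀ ∈ e.source := mem_chart_source V x₀
  have hzt : e x₀ ∈ e.target := e.map_source hxs
  have hg0 : (φ ∘ e.symm) (e x₀) = c := by simp [e.left_inv hxs, hx₀]
  have hcont : ContinuousAt (φ ∘ e.symm) (e x₀) :=
    (contDiffAt_comp_symm (n := 2) hea hzt ((hφ _).of_le two_le_inf)).continuousAt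
  have hev : ∀ᶠ z in 𝓝 (e x₀), m < (φ ∘ e.symm) z ∧ z ∈ e.target := by
    refine Filter.Eventually.and ?_ (e.open_target.mem_nhds hzt)
    apply hcont.eventually
    rw [hg0]
    exact lt_mem_nhds hm
  obtain ⟨ρ, hρ, hball⟩ := Metric.eventually_nhds_iff_ball.1 hev
  obtain ⟨z, hz, hzc⟩ : ∃ z ∈ ball (e x₀) ρ, (φ ∘ e.symm) z < c := by
    by_contra hcon
    push Not at hcon
    apply hreg
    apply IsLocalMin.fderiv_eq_zero
    filter_upwards [ball_mem_nhds (e x₀) hρ] with z hz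
    rw [hg0]
    exact hcon z hz
  have hcb : ContinuousOn (φ ∘ e.symm) (ball (e x₀) ρ) := by
    intro y hy
    exact (contDiffAt_comp_symm (n := 2) hea (hball y hy).2
      ((hφ _).of_le two_le_inf)).continuousAt.continuousWithinAt
  have hiv := (convex_ball (e x₀) ρ).isPreconnected.intermediate_value hz (mem_ball_self hρ) hcb
  rw [hg0] at hiv
  refine ⟨(φ ∘ e.symm) z, ((φ ∘ e.symm) z + c) / 2, (hball z hz).1, by linarith, by linarith, ?_⟩
  intro t ht
  obtain ⟨y, -, hy⟩ := hiv ⟨ht.1, by linarith [ht.2]⟩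
  exact ⟨e.symm y, hy⟩

/-- the real form of the main theorem -/
theorem real_main {φ : X → ℝ} {c : ℝ} {f : R5 → X} (hV : Module.finrank ℝ V = 6)
    (hor : Oriented V X) (h : Bd V φ c f)
    (hgood : ∀ x₀ : X, φ x₀ < c → ∀ Ω : Set V, IsOpen Ω → Ω ⊆ (chartAt V x₀).target →
      chartAt V x₀ x₀ ∈ Ω → Good (φ ∘ (chartAt V x₀).symm) (chartAt V x₀ x₀) Ω) : False := by
  let _ : MeasurableSpace V := borel V
  have _ : BorelSpace V := ⟨rfl⟩
  have hφc : Continuous φ := h.phi.continuous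
  set ι : R6 ≃L[ℝ] V := ContinuousLinearEquiv.ofFinrankEq (by rw [hV]; simp) with hι
  obtain ⟨A₀, c₁, σ, hc₁, hA₀, hσ⟩ := collar hV ι hor h
  set c' : ℝ := (c₁ + c) / 2 with hc'
  have hc₁c' : c₁ < c' := by linarith
  have hc'c : c' < c := by linarith
  obtain ⟨A, hA, hAA⟩ := level_induction h.phi h.cpt hc₁c' hc'c.le hgood (A₀ := A₀)
    (fun x hx => hA₀ x hx.1 (le_of_lt hx.2))
  obtain ⟨a, b, ha, hab, hb, hval⟩ := exists_values h.phi hc'c
    ((h.range (f 0)).2 ⟨0, rfl⟩) (h.reg (f 0) ((h.range (f 0)).2 ⟨0, rfl⟩))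
  -- the cutoff
  set hh : ℝ → ℝ := fun t => Real.smoothTransition ((b - t) / (b - a)) with hhh
  have hba : 0 < b - a := by linarith
  have hhs : ContDiff ℝ ∞ hh := by
    have h1 : ContDiff ℝ ∞ fun t : ℝ => (b - t) / (b - a) :=
      (contDiff_const.sub contDiff_id).div_const _
    exact Real.smoothTransition.contDiff.comp h1
  have hh1 : ∀ t, t ≤ a → hh t = 1 := by
    intro t ht
    apply Real.smoothTransition.one_of_one_le
    rw [one_le_div hba]
    linarith
  have hh0 : ∀ t, b ≤ t → hh t = 0 := by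
    intro t ht
    apply Real.smoothTransition.zero_of_nonpos
    exact div_nonpos_of_nonpos_of_nonneg (by linarith) hba.le
  have hanti : Antitone hh := by
    intro s t hst
    apply Real.smoothTransition.monotone
    gcongr
  have hdiff : Differentiable ℝ hh := hhs.differentiable (by simp)
  have hd : ∀ t, deriv hh t ≤ 0 := fun t => hanti.deriv_nonpos
  have hd1 : ∀ t, t < a → deriv hh t = 0 := by
    intro t ht
    have : hh =ᶠ[𝓝 t] fun _ => 1 := by
      filter_upwards [gt_mem_nhds ht] with s hs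
      exact hh1 s (le_of_lt hs)
    rw [this.deriv_eq]
    simp
  have hd0 : ∀ t, b < t → deriv hh t = 0 := by
    intro t ht
    have : hh =ᶠ[𝓝 t] fun _ => 0 := by
      filter_upwards [lt_mem_nhds ht] with s hs
      exact hh0 s (le_of_lt hs)
    rw [this.deriv_eq]
    simp
  -- the function u
  set u : X → ℝ := fun x => hh (φ x) with hu
  have hus : ContMDiff 𝓘(ℝ, V) 𝓘(ℝ, ℝ) ∞ u := hhs.contMDiff.comp h.phi
  have hK : IsCompact {x | φ x ≤ b} :=
    h.cpt.of_isClosed_subset (isClosed_le hφc continuous_const) fun x hx => by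
      rw [mem_ofPred_eq] at hx ⊢
      linarith
  have hDu : ∀ x, Dt ι u A x = deriv hh (φ x) * Dt ι φ A x := by
    intro x
    have h1 : dX (V := V) u x = deriv hh (φ x) • dX (V := V) φ x := by
      have h2 := mfderiv_comp x (g := hh) (f := φ) (I := 𝓘(ℝ, V)) (I' := 𝓘(ℝ, ℝ))
        (I'' := 𝓘(ℝ, ℝ)) (hdiff (φ x)).mdifferentiableAt ((h.phi x).mdifferentiableAt (by simp))
      have h3 : dX (V := V) u x = (fderiv ℝ hh (φ x)).comp (dX (V := V) φ x) := by
        unfold dX
        rw [mfderiv_eq_fderiv] at h2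
        exact h2
      rw [h3]
      ext v
      simp only [ContinuousLinearMap.comp_apply, smul_apply, smul_eq_mul]
      have h4 : fderiv ℝ hh (φ x) (dX (V := V) φ x v) =
          (dX (V := V) φ x v) * fderiv ℝ hh (φ x) 1 := by
        conv_lhs => rw [show dX (V := V) φ x v = (dX (V := V) φ x v) • (1 : ℝ) by simp]
        rw [map_smul, smul_eq_mul]
      rw [h4, fderiv_apply_one_eq_deriv, mul_comm]
    unfold Dt
    rw [h1, dt_smul]
  have hDA : ∀ x, c' < φ x → φ x < c → 0 < σ * Dt ι φ A x := by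
    intro x h1 h2
    have h3 : Dt ι φ A x = Dt ι φ A₀ x := by
      unfold Dt
      rw [hAA x h1.le]
    rw [h3]
    exact hσ x (by linarith) h2.le
  have hpos : ∀ x, 0 ≤ (-σ) * Dt ι u A x := by
    intro x
    rw [hDu]
    by_cases h1 : c' < φ x
    · by_cases h2 : φ x < c
      · have h3 := hDA x h1 h2
        have h4 := mul_nonneg (neg_nonneg.2 (hd (φ x))) h3.le
        linarith
      · rw [hd0 _ (by linarith [not_lt.1 h2])]
        simp
    · rw [hd1 _ (by linarith [not_lt.1 h1])]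
      simp
  have hst := stokes ι hor hK (A := A) (fun x hx => hA x (lt_of_le_of_lt hx hb)) hus
    (fun x hx => hh0 _ (le_of_lt (not_le.1 hx))) hpos
  obtain ⟨t₀, ht₀, ht₀'⟩ := exists_deriv_eq_slope hh hab hdiff.continuous.continuousOn
    hdiff.differentiableOn
  rw [hh0 b le_rfl, hh1 a le_rfl] at ht₀'
  obtain ⟨x₁, hx₁⟩ := hval t₀ ⟨ht₀.1.le, ht₀.2.le⟩
  apply hst x₁
  rw [hDu, hx₁, ht₀']
  have h3 := hDA x₁ (by rw [hx₁]; linarith [ht₀.1]) (by rw [hx₁]; linarith [ht₀.2])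
  have h4 : 0 < 1 / (b - a) := by positivity
  have h5 := mul_pos h4 h3
  have h6 : -σ * ((0 - 1) / (b - a) * Dt ι φ A x₁) = 1 / (b - a) * (σ * Dt ι φ A x₁) := by ring
  rw [h6]
  exact h5

end Pool.Agent.H88.ST
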