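import Pool.Agent.H88.ST.Cx

/-!
# Second derivatives along lines
-/

open Set Metric Filter Topology

namespace Pool.Agent.H88.ST

variable {V : Type*} [NormedAddCommGroup V] [NormedSpace ℝ V]

lemma deriv_line {E : Type*} [NormedAddCommGroup E] [NormedSpace ℝ E] {g : V → E} {z : V}
    (hg : DifferentiableAt ℝ g z) (v : V) :
    deriv (fun t : ℝ => g (z + t • v)) 0 = fderiv ℝ g z v := by
  have hl : HasDerivAt (fun s : ℝ => z + s • v) v 0 := by
    simpa using ((hasDerivAt_id (0 : ℝ)).smul_const v).const_add z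
  have h3 : HasFDerivAt g (fderiv ℝ g z) (z + (0 : ℝ) • v) := by
    rw [zero_smul, add_zero]
    exact hg.hasFDerivAt
  exact (h3.comp_hasDerivAt (0 : ℝ) hl).deriv

lemma deriv_deriv_line {g : V → ℝ} {z : V} (hg : ContDiffAt ℝ 2 g z) (v : V) :
    deriv (deriv fun t : ℝ => g (z + t • v)) 0 = fderiv ℝ (fderiv ℝ g) z v v := by
  have hl : ∀ s : ℝ, HasDerivAt (fun s : ℝ => z + s • v) v s := by
    intro s
    simpa using ((hasDerivAt_id s).smul_const v).const_add z
  have hc : ContinuousAt (fun s : ℝ => z + s • v) 0 := (hl 0).continuousAt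
  have hev : ∀ᶠ y in 𝓝 (z + (0 : ℝ) • v), ContDiffAt ℝ 2 g y := by
    rw [zero_smul, add_zero]
    exact hg.eventually (by norm_num)
  have h1 : (deriv fun t : ℝ => g (z + t • v)) =ᶠ[𝓝 0] fun t => fderiv ℝ g (z + t • v) v := by
    filter_upwards [hc.eventually hev] with t ht
    exact (((ht.differentiableAt (by norm_num)).hasFDerivAt).comp_hasDerivAt t (hl t)).deriv
  rw [h1.deriv_eq]
  have h3 : HasFDerivAt (fderiv ℝ g) (fderiv ℝ (fderiv ℝ g) z) (z + (0 : ℝ) • v) := by
    rw [zero_smul, add_zero]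
    exact ((hg.fderiv_right (m := 1) (by norm_num)).differentiableAt (by norm_num)).hasFDerivAt
  have h4 := h3.comp_hasDerivAt (0 : ℝ) (hl 0)
  have h5 := h4.clm_apply (hasDerivAt_const (0 : ℝ) v)
  have h6 : HasDerivAt (fun t : ℝ => fderiv ℝ g (z + t • v) v)
      (fderiv ℝ (fderiv ℝ g) z v v) 0 := by simpa using h5
  exact h6.deriv

end Pool.Agent.H88.ST
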