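import Pool.Agent.H88.ST.Loc

/-!
# Induction over the levels
-/

open Set Metric Filter Topology
open scoped Manifold ContDiff

namespace Pool.Agent.H88.ST

section Euc

variable {V : Type*} [NormedAddCommGroup V] [NormedSpace ℝ V]

lemma two_le_inf : (2 : WithTop ℕ∞) ≤ ∞ := by
  have : ((2 : ℕ∞) : WithTop ℕ∞) ≤ ((⊤ : ℕ∞) : WithTop ℕ∞) := WithTop.coe_le_coe.2 le_top
  exact this

lemma nsm {F : Type*} [NormedAddCommGroup F] [NormedSpace ℝ F] {c : ℝ} (hc : 0 ≤ c) (x : F) :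
    ‖c • x‖ = c * ‖x‖ := by
  rw [norm_smul, Real.norm_of_nonneg hc]

omit [NormedSpace ℝ V] in
lemma bdd_on_compact {E : Type*} [NormedAddCommGroup E] {g : V → E} {K : Set V}
    (hK : IsCompact K) (hg : ∀ z ∈ K, ContinuousAt g z) : ∃ M > 0, ∀ z ∈ K, ‖g z‖ ≤ M := by
  obtain ⟨M, hM⟩ := hK.exists_bound_of_continuousOn (f := g)
    (fun z hz => (hg z hz).continuousWithinAt)
  exact ⟨max M 1, by positivity, fun z hz => (hM z hz).trans (le_max_left _ _)⟩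

/-- small perturbations -/
lemma perturb {g u : V → ℝ} {Ω K : Set V} (hΩ : IsOpen Ω) (hK : IsCompact K) (hKΩ : K ⊆ Ω)
    (hg : ContDiffOn ℝ 2 g Ω) (hu : ContDiffOn ℝ 2 u Ω) {ε : ℝ} (hε : 0 < ε) :
    ∃ τ₀ > 0, ∀ τ : ℝ, 0 ≤ τ → τ ≤ τ₀ → ∀ z ∈ K, |(g z + τ * u z) - g z| ≤ ε ∧
      ‖fderiv ℝ (fun y => g y + τ * u y) z - fderiv ℝ g z‖ ≤ ε ∧
      ‖fderiv ℝ (fderiv ℝ (fun y => g y + τ * u y)) z - fderiv ℝ (fderiv ℝ g) z‖ ≤ ε := by
  have hgat : ∀ z ∈ Ω, ContDiffAt ℝ 2 g z := fun z hz => hg.contDiffAt (hΩ.mem_nhds hz)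
  have huat : ∀ z ∈ Ω, ContDiffAt ℝ 2 u z := fun z hz => hu.contDiffAt (hΩ.mem_nhds hz)
  have hu1 : ∀ z ∈ Ω, ContDiffAt ℝ 1 (fderiv ℝ u) z := fun z hz =>
    (huat z hz).fderiv_right (m := 1) (by norm_num)
  have hg1 : ∀ z ∈ Ω, ContDiffAt ℝ 1 (fderiv ℝ g) z := fun z hz =>
    (hgat z hz).fderiv_right (m := 1) (by norm_num)
  obtain ⟨M₀, hM₀, h0⟩ := bdd_on_compact (g := u) hK fun z hz => (huat z (hKΩ hz)).continuousAt
  obtain ⟨M₁, hM₁, h1⟩ := bdd_on_compact (g := fderiv ℝ u) hK fun z hz =>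
    (hu1 z (hKΩ hz)).continuousAt
  obtain ⟨M₂, hM₂, h2⟩ := bdd_on_compact (g := fderiv ℝ (fderiv ℝ u)) hK fun z hz =>
    ((hu1 z (hKΩ hz)).fderiv_right (m := 0) (by norm_num)).continuousAt
  refine ⟨ε / (M₀ + M₁ + M₂), by positivity, ?_⟩
  intro τ hτ0 hτ z hz
  have hτM : τ * (M₀ + M₁ + M₂) ≤ ε := by
    rwa [le_div_iff₀ (by positivity)] at hτ
  have hd : ∀ y ∈ Ω, fderiv ℝ (fun y => g y + τ * u y) y = fderiv ℝ g y + τ • fderiv ℝ u y := by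
    intro y hy
    exact (((hgat y hy).differentiableAt (by norm_num)).hasFDerivAt.fun_add
      (((huat y hy).differentiableAt (by norm_num)).hasFDerivAt.const_mul τ)).fderiv
  have hdd : fderiv ℝ (fderiv ℝ (fun y => g y + τ * u y)) z =
      fderiv ℝ (fderiv ℝ g) z + τ • fderiv ℝ (fderiv ℝ u) z := by
    have e1 : fderiv ℝ (fun y => g y + τ * u y) =ᶠ[𝓝 z] fun y =>
        fderiv ℝ g y + τ • fderiv ℝ u y := by
      filter_upwards [hΩ.mem_nhds (hKΩ hz)] with y hy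
      exact hd y hy
    rw [e1.fderiv_eq]
    exact ((((hg1 z (hKΩ hz)).differentiableAt (by norm_num)).hasFDerivAt).fun_add
      ((((hu1 z (hKΩ hz)).differentiableAt (by norm_num)).hasFDerivAt).const_smul τ)).fderiv
  refine ⟨?_, ?_, ?_⟩
  · have : g z + τ * u z - g z = τ * u z := by ring
    rw [this, abs_mul, abs_of_nonneg hτ0]
    have := h0 z hz
    rw [Real.norm_eq_abs] at this
    nlinarith [abs_nonneg (u z)]
  · rw [hd z (hKΩ hz), add_sub_cancel_left, norm_smul, Real.norm_of_nonneg hτ0]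
    have := h1 z hz
    nlinarith [norm_nonneg (fderiv ℝ u z)]
  · rw [hdd, add_sub_cancel_left, nsm (F := V →L[ℝ] V →L[ℝ] ℝ) hτ0]
    have := h2 z hz
    nlinarith [norm_nonneg (fderiv ℝ (fderiv ℝ u) z)]

end Euc

variable {V : Type*} [NormedAddCommGroup V] [NormedSpace ℝ V] [FiniteDimensional ℝ V]
  {X : Type*} [TopologicalSpace X] [T2Space X] [ChartedSpace V X] [IsManifold 𝓘(ℝ, V) ∞ X]

/-- the box property at a point -/
def BoxProp (φ : X → ℝ) (Y : Set X) (c₀ ε : ℝ) (χ : X → ℝ) (B : Set X) : Prop :=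
  ∀ u : X → ℝ, ContMDiff 𝓘(ℝ, V) 𝓘(ℝ, ℝ) ∞ u → ∃ τ₀ > 0, ∀ τ : ℝ, 0 ≤ τ → τ ≤ τ₀ →
    ∀ t t' : ℝ, |t - c₀| ≤ ε → t < t' → ∀ A : X → V →L[ℝ] R5,
      LocDev A ({x | t < φ x + τ * u x} ∩ Y) →
      ∃ A' : X → V →L[ℝ] R5, LocDev A' ({x | t' < φ x + τ * (u x + χ x)} ∩ Y) ∧
        ∀ x, x ∉ B → A' x = A x

lemma exists_box {φ : X → ℝ} (hφ : ContMDiff 𝓘(ℝ, V) 𝓘(ℝ, ℝ) ∞ φ) {Y B₀ : Set X}
    (hY : IsOpen Y) {x₀ : X} (hx₀ : x₀ ∈ B₀) (hB₀ : IsOpen B₀) (hB₀Y : B₀ ⊆ Y)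
    (hgood : ∀ Ω : Set V, IsOpen Ω → Ω ⊆ (chartAt V x₀).target → chartAt V x₀ x₀ ∈ Ω →
      Good (φ ∘ (chartAt V x₀).symm) (chartAt V x₀ x₀) Ω) :
    ∃ ε > 0, ∃ χ : X → ℝ, ContMDiff 𝓘(ℝ, V) 𝓘(ℝ, ℝ) ∞ χ ∧ (∀ x, 0 ≤ χ x) ∧ χ x₀ = 1 ∧
      BoxProp (V := V) φ Y (φ x₀) ε χ B₀ := by
  set e := chartAt V x₀ with he
  have hea : e ∈ atlas V X := chart_mem_atlas V x₀
  set z₀ := e x₀ with hz₀
  have hxs : x₀ ∈ e.source := mem_chart_source V x₀
  set g : V → ℝ := φ ∘ e.symm with hg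
  have hgz₀ : g z₀ = φ x₀ := by simp [hg, hz₀, e.left_inv hxs]
  set Ω : Set V := e.target ∩ e.symm ⁻¹' B₀ with hΩ
  have hΩo : IsOpen Ω := e.isOpen_inter_preimage_symm hB₀
  have hΩz : z₀ ∈ Ω := ⟨e.map_source hxs, by simpa [hz₀, e.left_inv hxs] using hx₀⟩
  obtain ⟨R₁, hR₁, r₁, hr₁, ε₁, hε₁, hrR₁, hcb₁, hG₁⟩ := hgood Ω hΩo inter_subset_left hΩz
  have hb₁ : ball z₀ r₁ ⊆ Ω :=
    (ball_subset_ball hrR₁).trans (ball_subset_closedBall.trans hcb₁)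
  obtain ⟨R₂, hR₂, r₂, hr₂, ε₂, hε₂, hrR₂, hcb₂, hG₂⟩ :=
    hgood (ball z₀ r₁) isOpen_ball (hb₁.trans inter_subset_left) (mem_ball_self hr₁)
  set B : Set X := e.source ∩ e ⁻¹' ball z₀ r₂ with hB
  have hBo : IsOpen B := e.isOpen_inter_preimage isOpen_ball
  have hBx : B ∈ 𝓝 x₀ := hBo.mem_nhds ⟨hxs, mem_ball_self hr₂⟩
  have hr₂r₁ : ball z₀ r₂ ⊆ ball z₀ r₁ :=
    (ball_subset_ball hrR₂).trans (ball_subset_closedBall.trans hcb₂)
  have hBB₀ : B ⊆ B₀ := by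
    rintro x ⟨hx1, hx2⟩
    have := (hb₁ (hr₂r₁ hx2)).2
    rwa [mem_preimage, e.left_inv hx1] at this
  obtain ⟨χ, -, hχ⟩ := (SmoothBumpFunction.nhds_basis_tsupport (I := 𝓘(ℝ, V)) x₀).mem_iff.1 hBx
  refine ⟨min ε₁ ε₂, by positivity, χ, χ.contMDiff, fun x => χ.nonneg, χ.eq_one, ?_⟩
  intro u hu
  have hgC : ContDiffOn ℝ 2 g e.target := fun z hz =>
    (contDiffAt_comp_symm (n := 2) hea hz
      ((hφ _).of_le (by exact_mod_cast le_top))).contDiffWithinAt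
  have huC : ContDiffOn ℝ 2 (u ∘ e.symm) e.target := fun z hz =>
    (contDiffAt_comp_symm (n := 2) hea hz
      ((hu _).of_le (by exact_mod_cast le_top))).contDiffWithinAt
  obtain ⟨τ₀, hτ₀, hpert⟩ := perturb (g := g) (u := u ∘ e.symm) e.open_target
    (isCompact_closedBall z₀ R₁) (hcb₁.trans inter_subset_left) hgC huC
    (ε := min ε₁ ε₂) (by positivity)
  refine ⟨τ₀, hτ₀, ?_⟩
  intro τ hτ0 hτ t t' htc htt' A hA
  have hfh : ∀ z, g z + τ * (u ∘ e.symm) z = (fun x => φ x + τ * u x) (e.symm z) := fun z => rfl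
  have hsub₂ : closedBall z₀ R₂ ⊆ closedBall z₀ R₁ :=
    hcb₂.trans ((ball_subset_ball hrR₁).trans ball_subset_closedBall)
  have hfC : ContDiffOn ℝ 2 (fun z => g z + τ * (u ∘ e.symm) z) e.target :=
    hgC.add (contDiffOn_const.mul huC)
  have hP₁ := hG₁ (fun z => g z + τ * (u ∘ e.symm) z) t
    (hfC.mono (ball_subset_closedBall.trans (hcb₁.trans inter_subset_left)))
    (fun z hz => ((hpert τ hτ0 hτ z (ball_subset_closedBall hz)).1).trans (min_le_left _ _))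
    (fun z hz => ((hpert τ hτ0 hτ z (ball_subset_closedBall hz)).2.1).trans (min_le_left _ _))
    (fun z hz => ((hpert τ hτ0 hτ z (ball_subset_closedBall hz)).2.2).trans (min_le_left _ _))
    (by rw [hgz₀]; exact htc.trans (min_le_left _ _))
  have hP₂ := hG₂ (fun z => g z + τ * (u ∘ e.symm) z) t
    (hfC.mono (ball_subset_closedBall.trans (hsub₂.trans (hcb₁.trans inter_subset_left))))
    (fun z hz => ((hpert τ hτ0 hτ z (hsub₂ (ball_subset_closedBall hz))).1).trans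
      (min_le_right _ _))
    (fun z hz => ((hpert τ hτ0 hτ z (hsub₂ (ball_subset_closedBall hz))).2.1).trans
      (min_le_right _ _))
    (fun z hz => ((hpert τ hτ0 hτ z (hsub₂ (ball_subset_closedBall hz))).2.2).trans
      (min_le_right _ _))
    (by rw [hgz₀]; exact htc.trans (min_le_right _ _))
  have hball₂ : ball z₀ R₂ ⊆ ball z₀ r₁ := ball_subset_closedBall.trans hcb₂
  have hstep := stepP (V := V) (X := X) hea
    (O := ball z₀ R₁ ∩ {z | t < g z + τ * (u ∘ e.symm) z})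
    (O₁ := ball z₀ R₂ ∩ {z | t < g z + τ * (u ∘ e.symm) z})
    (O₂ := ball z₀ r₂ ∩ {z | t < g z + τ * (u ∘ e.symm) z})
    (f := fun x => φ x + τ * u x) (f' := fun x => φ x + τ * (u x + χ x)) (t := t) (t' := t')
    (Y := Y) (C := tsupport χ) (B := B) (A := A) htt'
    ((hφ.of_le two_le_inf).add (contMDiff_const.mul (hu.of_le two_le_inf))) hY
    (inter_subset_left.trans (ball_subset_closedBall.trans (hcb₁.trans inter_subset_left)))
    (fun z hz => ⟨hz.2, hB₀Y (hcb₁ (ball_subset_closedBall hz.1)).2⟩)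
    (isOpen_super (hfC.continuousOn.mono
      (hball₂.trans (hb₁.trans inter_subset_left))))
    (isOpen_super (hfC.continuousOn.mono
      (hr₂r₁.trans (hb₁.trans inter_subset_left))))
    (inter_subset_inter_left _ (hball₂.trans (ball_subset_ball hrR₁)))
    (inter_subset_inter_left _ (ball_subset_ball hrR₂)) hBo inter_subset_left ?_ ?_ ?_ hA
    (isClosed_tsupport χ) hχ ?_
  · obtain ⟨A', h1, h2⟩ := hstep
    exact ⟨A', h1, fun x hx => h2 x fun h => hx (hBB₀ h)⟩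
  · intro x hx htx
    refine ⟨hx.2, ?_⟩
    show t < φ (e.symm (e x)) + τ * u (e.symm (e x))
    rw [e.left_inv hx.1]
    exact htx
  · intro a ha
    obtain ⟨G, hG⟩ := hP₁ a ha
    exact ⟨G, hG.mono (inter_subset_inter_left _ hball₂)⟩
  · exact hP₂
  · intro x hx
    have : χ x = 0 := image_eq_zero_of_notMem_tsupport hx
    simp [this]

lemma exists_lb {α : Type*} (t : Finset α) (f : α → ℝ) (h : ∀ a ∈ t, 0 < f a) :
    ∃ m > 0, ∀ a ∈ t, m ≤ f a := by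
  classical
  induction t using Finset.induction_on with
  | empty => exact ⟨1, one_pos, by simp⟩
  | insert b s hb ih =>
    obtain ⟨m, hm, hm'⟩ := ih fun a ha => h a (Finset.mem_insert_of_mem ha)
    refine ⟨min m (f b), lt_min hm (h b (Finset.mem_insert_self _ _)), ?_⟩
    intro a ha
    rcases Finset.mem_insert.1 ha with rfl | ha
    · exact min_le_right _ _
    · exact (min_le_left _ _).trans (hm' a ha)

/-- passing one level -/
lemma level_step {φ : X → ℝ} (hφ : ContMDiff 𝓘(ℝ, V) 𝓘(ℝ, ℝ) ∞ φ) {c c₀ c' : ℝ}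
    (hK : IsCompact {x | φ x ≤ c}) (hc : c₀ < c') (hc' : c' ≤ c)
    (hgood : ∀ x₀ : X, φ x₀ = c₀ → ∀ Ω : Set V, IsOpen Ω → Ω ⊆ (chartAt V x₀).target →
      chartAt V x₀ x₀ ∈ Ω → Good (φ ∘ (chartAt V x₀).symm) (chartAt V x₀ x₀) Ω) :
    ∃ η > 0, ∀ A : X → V →L[ℝ] R5, LocDev A ({x | c₀ + η < φ x} ∩ {x | φ x < c}) →
      ∃ A' : X → V →L[ℝ] R5, LocDev A' ({x | c₀ - 2 * η < φ x} ∩ {x | φ x < c}) ∧
        ∀ x, c' ≤ φ x → A' x = A x := by
  classical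
  have hφc : Continuous φ := hφ.continuous
  have hY : IsOpen {x | φ x < c} := isOpen_lt hφc continuous_const
  have hB₀ : IsOpen {x | φ x < c'} := isOpen_lt hφc continuous_const
  have hB₀Y : {x | φ x < c'} ⊆ {x | φ x < c} := fun x hx => lt_of_lt_of_le hx hc'
  have hbox : ∀ x₀ : X, φ x₀ = c₀ → ∃ ε > 0, ∃ χ : X → ℝ, ContMDiff 𝓘(ℝ, V) 𝓘(ℝ, ℝ) ∞ χ ∧
      (∀ x, 0 ≤ χ x) ∧ χ x₀ = 1 ∧ BoxProp (V := V) φ {x | φ x < c} c₀ ε χ {x | φ x < c'} := by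
    intro x₀ hx₀
    have := exists_box hφ hY (x₀ := x₀) (by rw [mem_ofPred_eq, hx₀]; exact hc) hB₀ hB₀Y
      (hgood x₀ hx₀)
    rwa [hx₀] at this
  choose! ε hε χ hχs hχ0 hχ1 hbp using hbox
  have hLc : IsCompact {x | φ x = c₀} :=
    hK.of_isClosed_subset (isClosed_eq hφc continuous_const)
      fun x hx => by rw [mem_ofPred_eq] at hx ⊢; linarith
  obtain ⟨s₀, hs₀, hcov⟩ := hLc.elim_nhds_subcover (fun x => {y | 1 / 2 < χ x y}) (by
    intro x hx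
    apply (isOpen_lt continuous_const (hχs x hx).continuous).mem_nhds
    rw [mem_ofPred_eq, hχ1 x hx]
    norm_num)
  have hus : ∀ s : Finset X, s ⊆ s₀ → ContMDiff 𝓘(ℝ, V) 𝓘(ℝ, ℝ) ∞ fun x => ∑ i ∈ s, χ i x := by
    intro s hs
    apply contMDiff_finsetSum
    intro i hi
    exact hχs i (hs₀ i (hs hi))
  have hprop : ∀ s : Finset X, s ⊆ s₀ → ∀ j ∈ s₀, ∃ τ₀ > 0, ∀ τ : ℝ, 0 ≤ τ → τ ≤ τ₀ →
      ∀ t t' : ℝ, |t - c₀| ≤ ε j → t < t' → ∀ A : X → V →L[ℝ] R5,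
      LocDev A ({x | t < φ x + τ * ∑ i ∈ s, χ i x} ∩ {x | φ x < c}) →
      ∃ A' : X → V →L[ℝ] R5,
        LocDev A' ({x | t' < φ x + τ * (∑ i ∈ s, χ i x + χ j x)} ∩ {x | φ x < c}) ∧
        ∀ x, x ∉ {x | φ x < c'} → A' x = A x := by
    intro s hs j hj
    exact hbp j (hs₀ j hj) _ (hus s hs)
  choose! τ₀ hτ₀ hprop using hprop
  obtain ⟨τs, hτs, hτs'⟩ := exists_lb (s₀.powerset ×ˢ s₀) (fun p => τ₀ p.1 p.2) (by
    intro p hp
    rw [Finset.mem_product, Finset.mem_powerset] at hp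
    exact hτ₀ p.1 hp.1 p.2 hp.2)
  obtain ⟨εs, hεs, hεs'⟩ := exists_lb s₀ ε (fun a ha => hε a (hs₀ a ha))
  have hη₀ : ∃ η₀ > 0, ∀ y, |φ y - c₀| < η₀ → ∃ x ∈ s₀, 1 / 2 < χ x y := by
    set K' : Set X := {x | φ x ≤ c} ∩ (⋃ x ∈ s₀, {y | 1 / 2 < χ x y})ᶜ with hK'
    have hopen : IsOpen (⋃ x ∈ s₀, {y | 1 / 2 < χ x y}) :=
      isOpen_biUnion fun x hx => isOpen_lt continuous_const (hχs x (hs₀ x hx)).continuous
    have hK'c : IsCompact K' := hK.inter_right hopen.isClosed_compl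
    have key : ∃ m > 0, ∀ y ∈ K', m ≤ |φ y - c₀| := by
      rcases K'.eq_empty_or_nonempty with h | h
      · exact ⟨1, one_pos, by simp [h]⟩
      · obtain ⟨y, hy, hmin⟩ := hK'c.exists_isMinOn h
          (f := fun y => |φ y - c₀|) (by fun_prop)
        refine ⟨|φ y - c₀|, ?_, fun z hz => hmin hz⟩
        rw [gt_iff_lt, abs_pos, sub_ne_zero]
        intro h
        exact hy.2 (hcov h)
    obtain ⟨m, hm, hm'⟩ := key
    refine ⟨min m (c - c₀), lt_min hm (by linarith), ?_⟩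
    intro y hy
    by_contra hcon
    have h1 : φ y ≤ c := by
      have := (abs_lt.1 (lt_of_lt_of_le hy (min_le_right _ _))).2
      linarith
    have h2 : y ∈ K' := by
      refine ⟨h1, ?_⟩
      intro h
      rw [mem_iUnion₂] at h
      obtain ⟨x, hx, hx'⟩ := h
      exact hcon ⟨x, hx, hx'⟩
    have := hm' y h2
    have := lt_of_lt_of_le hy (min_le_left _ _)
    linarith
  obtain ⟨η₀, hη₀, hcov'⟩ := hη₀
  set η : ℝ := min (τs / 8) (min (εs / 2) (η₀ / 2)) with hη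
  have hηpos : 0 < η := by positivity
  have hη1 : 8 * η ≤ τs := by
    have : η ≤ τs / 8 := min_le_left _ _
    linarith
  have hη2 : 2 * η ≤ εs := by
    have : η ≤ εs / 2 := (min_le_right _ _).trans (min_le_left _ _)
    linarith
  have hη3 : 2 * η ≤ η₀ := by
    have : η ≤ η₀ / 2 := (min_le_right _ _).trans (min_le_right _ _)
    linarith
  refine ⟨η, hηpos, ?_⟩
  intro A hA
  have hind : ∀ s : Finset X, s ⊆ s₀ → ∀ t : ℝ, c₀ + η < t → t < c₀ + 2 * η →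
      ∃ A' : X → V →L[ℝ] R5,
        LocDev A' ({x | t < φ x + (8 * η) * ∑ i ∈ s, χ i x} ∩ {x | φ x < c}) ∧
        ∀ x, c' ≤ φ x → A' x = A x := by
    intro s
    induction s using Finset.induction_on with
    | empty =>
      intro _ t ht _
      refine ⟨A, hA.mono ?_, fun _ _ => rfl⟩
      apply inter_subset_inter_left
      intro x hx
      simp only [Finset.sum_empty, mul_zero, add_zero, mem_ofPred_eq] at hx ⊢
      linarith
    | insert j s hjs ih =>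
      intro hs t ht ht'
      have hj : j ∈ s₀ := hs (Finset.mem_insert_self _ _)
      have hss : s ⊆ s₀ := fun i hi => hs (Finset.mem_insert_of_mem hi)
      obtain ⟨A₁, hA₁, hA₁'⟩ := ih hss ((c₀ + η + t) / 2) (by linarith) (by linarith)
      have hεj := hεs' j hj
      obtain ⟨A₂, hA₂, hA₂'⟩ := hprop s hss j hj (8 * η) (by positivity)
        (hη1.trans (hτs' (s, j) (by
          rw [Finset.mem_product, Finset.mem_powerset]; exact ⟨hss, hj⟩)))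
        ((c₀ + η + t) / 2) t (by rw [abs_le]; constructor <;> linarith) (by linarith) A₁ hA₁
      refine ⟨A₂, ?_, ?_⟩
      · convert hA₂ using 8
        rw [Finset.sum_insert hjs]
        ring
      · intro x hx
        rw [hA₂' x (by rw [mem_ofPred_eq, not_lt]; exact hx), hA₁' x hx]
  obtain ⟨A', hA', hA''⟩ := hind s₀ subset_rfl (c₀ + 3 / 2 * η) (by linarith) (by linarith)
  refine ⟨A', hA'.mono ?_, hA''⟩
  rintro y ⟨hy, hyc⟩
  refine ⟨?_, hyc⟩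
  have hchi : ∀ i ∈ s₀, 0 ≤ χ i y := fun i hi => hχ0 i (hs₀ i hi) y
  have hsum : 0 ≤ ∑ i ∈ s₀, χ i y := Finset.sum_nonneg hchi
  rw [mem_ofPred_eq] at hy ⊢
  by_cases h : |φ y - c₀| < η₀
  · obtain ⟨x, hx, hx'⟩ := hcov' y h
    have : χ x y ≤ ∑ i ∈ s₀, χ i y := Finset.single_le_sum (f := fun i => χ i y) hchi hx
    nlinarith
  · have h1 : c₀ + η₀ ≤ φ y := by
      rcases le_abs.1 (not_lt.1 h) with h2 | h2 <;> linarith
    have : 0 ≤ 8 * η * ∑ i ∈ s₀, χ i y := by positivity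
    linarith

/-- the whole induction -/
lemma level_induction {φ : X → ℝ} (hφ : ContMDiff 𝓘(ℝ, V) 𝓘(ℝ, ℝ) ∞ φ) {c c₁ c' : ℝ}
    (hK : IsCompact {x | φ x ≤ c}) (hc : c₁ < c') (hc' : c' ≤ c)
    (hgood : ∀ x₀ : X, φ x₀ < c → ∀ Ω : Set V, IsOpen Ω → Ω ⊆ (chartAt V x₀).target →
      chartAt V x₀ x₀ ∈ Ω → Good (φ ∘ (chartAt V x₀).symm) (chartAt V x₀ x₀) Ω)
    {A₀ : X → V →L[ℝ] R5} (hA₀ : LocDev A₀ ({x | c₁ < φ x} ∩ {x | φ x < c})) :
    ∃ A : X → V →L[ℝ] R5, LocDev A {x | φ x < c} ∧ ∀ x, c' ≤ φ x → A x = A₀ x := by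
  set S : Set ℝ := {t | ∃ A : X → V →L[ℝ] R5, LocDev A ({x | t < φ x} ∩ {x | φ x < c}) ∧
    ∀ x, c' ≤ φ x → A x = A₀ x} with hS
  have hc₁S : c₁ ∈ S := ⟨A₀, hA₀, fun _ _ => rfl⟩
  have hup : ∀ t ∈ S, ∀ t', t ≤ t' → t' ∈ S := by
    rintro t ⟨A, hA, hA'⟩ t' htt'
    refine ⟨A, hA.mono (inter_subset_inter_left _ fun x hx => ?_), hA'⟩
    rw [mem_ofPred_eq] at hx ⊢
    linarith
  have hnb : ¬ BddBelow S := by
    intro hb
    set σ := sInf S with hσ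
    have hσc : σ ≤ c₁ := csInf_le hb hc₁S
    obtain ⟨η, hη, hstep⟩ := level_step hφ (c₀ := σ) (c' := c') hK (by linarith) hc'
      (fun x₀ hx₀ => hgood x₀ (by linarith))
    obtain ⟨t, htS, ht⟩ := exists_lt_of_csInf_lt ⟨c₁, hc₁S⟩ (show sInf S < σ + η by linarith)
    obtain ⟨A, hA, hA'⟩ := hup t htS (σ + η) ht.le
    obtain ⟨A₂, hA₂, hA₂'⟩ := hstep A hA
    have : σ - 2 * η ∈ S := ⟨A₂, hA₂, fun x hx => by rw [hA₂' x hx, hA' x hx]⟩
    have := csInf_le hb this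
    linarith
  -- a lower bound of φ
  obtain ⟨m, hm⟩ : ∃ m, ∀ x, φ x ≤ c → m < φ x := by
    have h1 := (hK.bddBelow_image (f := φ) hφ.continuous.continuousOn)
    obtain ⟨b, hb⟩ := h1
    refine ⟨b - 1, fun x hx => ?_⟩
    have := hb (mem_image_of_mem φ hx)
    linarith
  have : ∃ t ∈ S, t < m := by
    by_contra hcon
    push Not at hcon
    exact hnb ⟨m, hcon⟩
  obtain ⟨t, ⟨A, hA, hA'⟩, ht⟩ := this
  refine ⟨A, hA.mono ?_, hA'⟩
  intro x hx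
  refine ⟨?_, hx⟩
  have := hm x (le_of_lt hx)
  rw [mem_ofPred_eq]
  linarith

end Pool.Agent.H88.ST
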