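import Pool.Agent.H88.ST.Sgn

/-!
# Integration by parts
-/

open Set Metric Filter Topology MeasureTheory
open scoped Manifold ContDiff

namespace Pool.Agent.H88.ST

variable {V : Type*} [NormedAddCommGroup V] [NormedSpace ℝ V] [FiniteDimensional ℝ V]
  [MeasurableSpace V] [BorelSpace V] (μ : Measure V) [μ.IsAddHaarMeasure]

omit [NormedSpace ℝ V] [FiniteDimensional ℝ V] [MeasurableSpace V] [BorelSpace V] in
lemma cont_of {K : Set V} (hK : IsCompact K) {k : V → ℝ} (h1 : ∀ z ∈ K, ContinuousAt k z)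
    (h2 : ∀ z, z ∉ K → k z = 0) : Continuous k ∧ HasCompactSupport k := by
  refine ⟨continuous_iff_continuousAt.2 fun z => ?_, HasCompactSupport.intro hK h2⟩
  by_cases hz : z ∈ K
  · exact h1 z hz
  · have : k =ᶠ[𝓝 z] fun _ => 0 := by
      filter_upwards [hK.isClosed.isOpen_compl.mem_nhds hz] with y hy
      exact h2 y hy
    exact continuousAt_const.congr this.symm

omit [NormedSpace ℝ V] [FiniteDimensional ℝ V] in
lemma int_of [NormedSpace ℝ V] [FiniteDimensional ℝ V] {K : Set V} (hK : IsCompact K)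
    {k : V → ℝ} (h1 : ∀ z ∈ K, ContinuousAt k z)
    (h2 : ∀ z, z ∉ K → k z = 0) : Integrable k μ :=
  (cont_of hK h1 h2).1.integrable_of_hasCompactSupport (cont_of hK h1 h2).2

/-- the frame -/
noncomputable def fr (ι : R6 ≃L[ℝ] V) (j : Fin 6) : V := ι (Pi.single j 1)

omit [FiniteDimensional ℝ V] [MeasurableSpace V] [BorelSpace V] in
lemma dt_expand (ι : R6 ≃L[ℝ] V) (a : V →L[ℝ] ℝ) (B : V →L[ℝ] R5) :
    dt ι (cm a B) = ∑ σ : Equiv.Perm (Fin 6), ((Equiv.Perm.sign σ : ℤ) : ℝ) *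
      (a (fr ι (σ 0)) * ∏ k : Fin 5, B (fr ι (σ k.succ)) k) := by
  have h1 : dt ι (cm a B) =
      (LinearMap.toMatrix' (((cm a B).comp (ι : R6 →L[ℝ] V) : R6 →L[ℝ] R6) :
        R6 →ₗ[ℝ] R6)).det := by
    unfold dt ContinuousLinearMap.det
    rw [← LinearMap.det_toLin', Matrix.toLin'_toMatrix']
  rw [h1, ← Matrix.det_transpose, Matrix.det_apply']
  apply Finset.sum_congr rfl
  intro σ _
  congr 1

/-- cofactor products -/
noncomputable def Pf (ι : R6 ≃L[ℝ] V) (F : V → R5) (σ : Equiv.Perm (Fin 6)) (z : V) : ℝ :=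
  ∏ k : Fin 5, fderiv ℝ F z (fr ι (σ k.succ)) k

omit [FiniteDimensional ℝ V] [MeasurableSpace V] [BorelSpace V] in
lemma Pf_hasFDerivAt (ι : R6 ≃L[ℝ] V) {F : V → R5} {z : V} (hF : ContDiffAt ℝ 2 F z)
    (σ : Equiv.Perm (Fin 6)) :
    HasFDerivAt (Pf ι F σ) (∑ k : Fin 5,
      (∏ l ∈ Finset.univ.erase k, fderiv ℝ F z (fr ι (σ l.succ)) l) •
        ((pr k).comp ((fderiv ℝ (fderiv ℝ F) z).flip (fr ι (σ k.succ))))) z := by
  have h1 : HasFDerivAt (fderiv ℝ F) (fderiv ℝ (fderiv ℝ F) z) z :=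
    ((hF.fderiv_right (m := 1) (by norm_num)).differentiableAt (by norm_num)).hasFDerivAt
  unfold Pf
  apply HasFDerivAt.finsetProd
  intro k _
  have h2 : HasFDerivAt (fun y => fderiv ℝ F y (fr ι (σ k.succ)))
      ((fderiv ℝ (fderiv ℝ F) z).flip (fr ι (σ k.succ))) z := by
    have := h1.clm_apply (hasFDerivAt_const (fr ι (σ k.succ)) z)
    simpa using this
  exact (pr k).hasFDerivAt.comp z h2

omit [FiniteDimensional ℝ V] [MeasurableSpace V] [BorelSpace V] in
lemma Pf_sum_zero (ι : R6 ≃L[ℝ] V) {F : V → R5} {z : V} (hF : ContDiffAt ℝ 2 F z) :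
    ∑ σ : Equiv.Perm (Fin 6), ((Equiv.Perm.sign σ : ℤ) : ℝ) *
      fderiv ℝ (Pf ι F σ) z (fr ι (σ 0)) = 0 := by
  have hsymm : ∀ v w, fderiv ℝ (fderiv ℝ F) z v w = fderiv ℝ (fderiv ℝ F) z w v := by
    have : IsSymmSndFDerivAt ℝ F z := hF.isSymmSndFDerivAt (by simp)
    exact this
  have h1 : ∀ σ : Equiv.Perm (Fin 6), fderiv ℝ (Pf ι F σ) z (fr ι (σ 0)) =
      ∑ k : Fin 5, (∏ l ∈ Finset.univ.erase k, fderiv ℝ F z (fr ι (σ l.succ)) l) *
        fderiv ℝ (fderiv ℝ F) z (fr ι (σ 0)) (fr ι (σ k.succ)) k := by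
    intro σ
    rw [(Pf_hasFDerivAt ι hF σ).fderiv]
    simp
  simp_rw [h1, Finset.mul_sum]
  rw [Finset.sum_comm]
  apply Finset.sum_eq_zero
  intro k _
  set g : Equiv.Perm (Fin 6) → ℝ := fun σ => ((Equiv.Perm.sign σ : ℤ) : ℝ) *
    ((∏ l ∈ Finset.univ.erase k, fderiv ℝ F z (fr ι (σ l.succ)) l) *
      fderiv ℝ (fderiv ℝ F) z (fr ι (σ 0)) (fr ι (σ k.succ)) k) with hg
  have h2 : ∀ σ, g (σ * Equiv.swap 0 k.succ) = -g σ := by
    intro σ
    rw [hg]
    simp only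
    have hsw : (Equiv.Perm.sign (σ * Equiv.swap 0 k.succ)) = -Equiv.Perm.sign σ := by
      rw [Equiv.Perm.sign_mul, Equiv.Perm.sign_swap (Fin.succ_ne_zero k).symm]
      simp
    have e0 : (σ * Equiv.swap 0 k.succ) 0 = σ k.succ := by simp
    have ek : (σ * Equiv.swap 0 k.succ) k.succ = σ 0 := by simp
    have el : ∏ l ∈ Finset.univ.erase k,
        fderiv ℝ F z (fr ι ((σ * Equiv.swap 0 k.succ) l.succ)) l =
        ∏ l ∈ Finset.univ.erase k, fderiv ℝ F z (fr ι (σ l.succ)) l := by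
      apply Finset.prod_congr rfl
      intro l hl
      have hlk : l ≠ k := (Finset.mem_erase.1 hl).1
      have : (σ * Equiv.swap 0 k.succ) l.succ = σ l.succ := by
        rw [Equiv.Perm.mul_apply, Equiv.swap_apply_of_ne_of_ne (Fin.succ_ne_zero l)
          (fun h => hlk (Fin.succ_injective _ h))]
      rw [this]
    rw [hsw, e0, ek, el, hsymm]
    push_cast
    ring
  have h3 : ∑ σ, g (σ * Equiv.swap 0 k.succ) = ∑ σ, g σ :=
    Equiv.sum_comp (Equiv.mulRight (Equiv.swap 0 k.succ)) g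
  simp_rw [h2, Finset.sum_neg_distrib] at h3
  linarith

/-- the integral of `du ∧ dF₀ ∧ ... ∧ dF₄` vanishes -/
lemma I0 (ι : R6 ≃L[ℝ] V) {u : V → ℝ} {F : V → R5} (hu : ContDiff ℝ 2 u)
    (hc : HasCompactSupport u) (hF : ∀ z ∈ tsupport u, ContDiffAt ℝ 2 F z) :
    ∫ z, dt ι (cm (fderiv ℝ u z) (fderiv ℝ F z)) ∂μ = 0 := by
  have hP : ∀ σ, ∀ z ∈ tsupport u, ContinuousAt (Pf ι F σ) z := fun σ z hz =>
    (Pf_hasFDerivAt ι (hF z hz) σ).continuousAt
  have hdu : Continuous (fderiv ℝ u) := hu.continuous_fderiv (by norm_num)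
  have hdu0 : ∀ z, z ∉ tsupport u → fderiv ℝ u z = 0 := by
    intro z hz
    have : u =ᶠ[𝓝 z] fun _ => 0 := by
      filter_upwards [(isClosed_tsupport u).isOpen_compl.mem_nhds hz] with y hy
      exact image_eq_zero_of_notMem_tsupport hy
    rw [this.fderiv_eq]
    simp
  have hdP : ∀ σ, ∀ z ∈ tsupport u,
      ContinuousAt (fun z => fderiv ℝ (Pf ι F σ) z (fr ι (σ 0))) z := by
    intro σ z hz
    have hev : (fun z => fderiv ℝ (Pf ι F σ) z (fr ι (σ 0))) =ᶠ[𝓝 z] fun z =>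
      ∑ k : Fin 5, (∏ l ∈ Finset.univ.erase k, fderiv ℝ F z (fr ι (σ l.succ)) l) *
        fderiv ℝ (fderiv ℝ F) z (fr ι (σ 0)) (fr ι (σ k.succ)) k := by
      filter_upwards [(hF z hz).eventually (by norm_num)] with y hy
      rw [(Pf_hasFDerivAt ι hy σ).fderiv]
      simp
    have c1 : ContDiffAt ℝ 1 (fderiv ℝ F) z := (hF z hz).fderiv_right (m := 1) (by norm_num)
    have c2 : ContDiffAt ℝ 0 (fderiv ℝ (fderiv ℝ F)) z :=
      c1.fderiv_right (m := 0) (by norm_num)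
    have c1' := c1.continuousAt
    have c2' := c2.continuousAt
    refine ContinuousAt.congr ?_ hev.symm
    refine tendsto_finsetSum _ fun k _ => ?_
    refine Filter.Tendsto.mul ?_ ?_
    · refine tendsto_finsetProd _ fun l _ => ?_
      exact ((pr l).continuous.continuousAt.comp (c1'.clm_apply continuousAt_const))
    · exact ((pr k).continuous.continuousAt.comp
        ((c2'.clm_apply continuousAt_const).clm_apply continuousAt_const))
  have i1 : ∀ σ, Integrable (fun z => fderiv ℝ u z (fr ι (σ 0)) * Pf ι F σ z) μ := by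
    intro σ
    refine int_of μ hc (fun z hz => ?_) fun z hz => ?_
    · exact (hdu.continuousAt.clm_apply continuousAt_const).mul (hP σ z hz)
    · rw [hdu0 z hz]; simp
  have i2 : ∀ σ, Integrable (fun z => u z * fderiv ℝ (Pf ι F σ) z (fr ι (σ 0))) μ := by
    intro σ
    refine int_of μ hc (fun z hz => ?_) fun z hz => ?_
    · exact hu.continuous.continuousAt.mul (hdP σ z hz)
    · rw [image_eq_zero_of_notMem_tsupport hz, zero_mul]
  have i3 : ∀ σ, Integrable (fun z => u z * Pf ι F σ z) μ := by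
    intro σ
    refine int_of μ hc (fun z hz => ?_) fun z hz => ?_
    · exact hu.continuous.continuousAt.mul (hP σ z hz)
    · rw [image_eq_zero_of_notMem_tsupport hz, zero_mul]
  have hparts : ∀ σ, ∫ z, fderiv ℝ u z (fr ι (σ 0)) * Pf ι F σ z ∂μ =
      -∫ z, u z * fderiv ℝ (Pf ι F σ) z (fr ι (σ 0)) ∂μ := by
    intro σ
    have := integral_mul_fderiv_eq_neg_fderiv_mul_of_integrable (μ := μ) (f := u)
      (g := Pf ι F σ) (v := fr ι (σ 0)) (i1 σ) (i2 σ) (i3 σ)
      (fun x _ => (hu.differentiable (by norm_num)) x)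
      (fun x hx => (Pf_hasFDerivAt ι (hF x hx) σ).differentiableAt)
    rw [this, neg_neg]
  calc ∫ z, dt ι (cm (fderiv ℝ u z) (fderiv ℝ F z)) ∂μ
      = ∫ z, ∑ σ : Equiv.Perm (Fin 6), ((Equiv.Perm.sign σ : ℤ) : ℝ) *
        (fderiv ℝ u z (fr ι (σ 0)) * Pf ι F σ z) ∂μ := by
        congr 1
        funext z
        rw [dt_expand]
        rfl
    _ = ∑ σ : Equiv.Perm (Fin 6), ((Equiv.Perm.sign σ : ℤ) : ℝ) *
        ∫ z, fderiv ℝ u z (fr ι (σ 0)) * Pf ι F σ z ∂μ := by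
        rw [integral_finsetSum _ fun σ _ => (i1 σ).const_mul _]
        exact Finset.sum_congr rfl fun σ _ => integral_const_mul _ _
    _ = -∑ σ : Equiv.Perm (Fin 6), ((Equiv.Perm.sign σ : ℤ) : ℝ) *
        ∫ z, u z * fderiv ℝ (Pf ι F σ) z (fr ι (σ 0)) ∂μ := by
        rw [← Finset.sum_neg_distrib]
        refine Finset.sum_congr rfl fun σ _ => ?_
        rw [hparts σ]
        ring
    _ = -∫ z, u z * ∑ σ : Equiv.Perm (Fin 6), ((Equiv.Perm.sign σ : ℤ) : ℝ) *
        fderiv ℝ (Pf ι F σ) z (fr ι (σ 0)) ∂μ := by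
        congr 1
        have : ∀ z, u z * ∑ σ : Equiv.Perm (Fin 6), ((Equiv.Perm.sign σ : ℤ) : ℝ) *
            fderiv ℝ (Pf ι F σ) z (fr ι (σ 0)) =
            ∑ σ : Equiv.Perm (Fin 6), ((Equiv.Perm.sign σ : ℤ) : ℝ) *
              (u z * fderiv ℝ (Pf ι F σ) z (fr ι (σ 0))) := by
          intro z
          rw [Finset.mul_sum]
          exact Finset.sum_congr rfl fun σ _ => by ring
        simp_rw [this]
        rw [integral_finsetSum _ fun σ _ => (i2 σ).const_mul _]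
        exact Finset.sum_congr rfl fun σ _ => (integral_const_mul _ _).symm
    _ = -∫ _z, (0 : ℝ) ∂μ := by
        congr 1
        congr 1
        funext z
        by_cases hz : z ∈ tsupport u
        · rw [Pf_sum_zero ι (hF z hz), mul_zero]
        · rw [image_eq_zero_of_notMem_tsupport hz, zero_mul]
    _ = 0 := by simp

end Pool.Agent.H88.ST
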