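import Pool.Agent.H88.ST.Int0

/-!
# Integration on the manifold
-/

open Set Metric Filter Topology MeasureTheory
open scoped Manifold ContDiff

namespace Pool.Agent.H88.ST

variable {V : Type*} [NormedAddCommGroup V] [NormedSpace ℝ V] [FiniteDimensional ℝ V]
  [MeasurableSpace V] [BorelSpace V] (μ : Measure V) [μ.IsAddHaarMeasure]
  {X : Type*} [TopologicalSpace X] [T2Space X] [ChartedSpace V X] [IsManifold 𝓘(ℝ, V) ∞ X]

/-- integral of a density in a chart -/
noncomputable def CI (e : OpenPartialHomeomorph X V) (b : X → ℝ) : ℝ :=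
  ∫ z in e.target, b (e.symm z) * (Js e z).det ∂μ

omit [FiniteDimensional ℝ V] [MeasurableSpace V] [BorelSpace V] [T2Space X] in
lemma Js_trans {e e' : OpenPartialHomeomorph X V} (he : e ∈ atlas V X) (he' : e' ∈ atlas V X)
    {z : V} (hz : z ∈ e.target) (hz' : e.symm z ∈ e'.source) :
    HasFDerivAt (fun z => e' (e.symm z)) (fderiv ℝ (fun z => e' (e.symm z)) z) z ∧
    Js e z = (Js e' (e' (e.symm z))).comp (fderiv ℝ (fun z => e' (e.symm z)) z) := by
  have h1 : MDifferentiableAt 𝓘(ℝ, V) 𝓘(ℝ, V) (fun z => e' (e.symm z)) z :=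
    MDifferentiableAt.comp z (mdifferentiableAt_atlas (I := 𝓘(ℝ, V)) he' hz')
      (mdifferentiableAt_atlas_symm (I := 𝓘(ℝ, V)) he hz)
  refine ⟨h1.differentiableAt.hasFDerivAt, ?_⟩
  have h2 : (e.symm : V → X) =ᶠ[𝓝 z] e'.symm ∘ fun z => e' (e.symm z) := by
    filter_upwards [(e.isOpen_inter_preimage_symm e'.open_source).mem_nhds ⟨hz, hz'⟩] with y hy
    simp only [Function.comp_apply]
    rw [e'.left_inv hy.2]
  unfold Js
  rw [h2.mfderiv_eq]
  have h3 := mfderiv_comp z (g := e'.symm) (f := fun z => e' (e.symm z)) (I := 𝓘(ℝ, V))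
    (I' := 𝓘(ℝ, V)) (I'' := 𝓘(ℝ, V))
    (mdifferentiableAt_atlas_symm (I := 𝓘(ℝ, V)) he' (e'.map_source hz')) h1
  rw [h3, mfderiv_eq_fderiv]
  rfl

omit [T2Space X] in
/-- change of variables -/
lemma CI_change (hor : Oriented V X) {e e' : OpenPartialHomeomorph X V} (he : e ∈ atlas V X)
    (he' : e' ∈ atlas V X) {b : X → ℝ} (hb : ∀ x, ¬ (x ∈ e.source ∧ x ∈ e'.source) → b x = 0) :
    CI μ e b = CI μ e' b := by
  set τ : V → V := fun z => e' (e.symm z) with hτ
  set U : Set V := e.target ∩ e.symm ⁻¹' e'.source with hU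
  set U' : Set V := e'.target ∩ e'.symm ⁻¹' e.source with hU'
  have hUo : IsOpen U := e.isOpen_inter_preimage_symm e'.open_source
  have h1 : CI μ e b = ∫ z in U, b (e.symm z) * (Js e z).det ∂μ := by
    unfold CI
    refine setIntegral_eq_of_subset_of_forall_sdiff_eq_zero e.open_target.measurableSet
      inter_subset_left ?_
    rintro z ⟨hz1, hz2⟩
    rw [hb _ fun h => hz2 ⟨hz1, h.2⟩, zero_mul]
  have h2 : CI μ e' b = ∫ z in U', b (e'.symm z) * (Js e' z).det ∂μ := by
    unfold CI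
    refine setIntegral_eq_of_subset_of_forall_sdiff_eq_zero e'.open_target.measurableSet
      inter_subset_left ?_
    rintro z ⟨hz1, hz2⟩
    rw [hb _ fun h => hz2 ⟨hz1, h.1⟩, zero_mul]
  have himg : τ '' U = U' := by
    ext z'
    constructor
    · rintro ⟨z, hz, rfl⟩
      refine ⟨e'.map_source hz.2, ?_⟩
      rw [mem_preimage, hτ]
      simp only
      rw [e'.left_inv hz.2]
      exact e.map_target hz.1
    · rintro ⟨h1, h2⟩
      refine ⟨e (e'.symm z'), ⟨e.map_source h2, ?_⟩, ?_⟩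
      · rw [mem_preimage, e.left_inv h2]
        exact e'.map_target h1
      · rw [hτ]
        simp only
        rw [e.left_inv h2, e'.right_inv h1]
  have hinj : InjOn τ U := by
    intro z hz w hw hzw
    have h3 : e.symm z = e.symm w := e'.injOn hz.2 hw.2 hzw
    exact e.symm.injOn hz.1 hw.1 h3
  rw [h1, h2, ← himg, integral_image_eq_integral_abs_det_fderiv_smul μ hUo.measurableSet
    (f' := fun z => fderiv ℝ τ z)
    (fun z hz => (Js_trans he he' hz.1 hz.2).1.hasFDerivWithinAt) hinj]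
  refine setIntegral_congr_fun hUo.measurableSet ?_
  intro z hz
  have h4 := (Js_trans he he' hz.1 hz.2).2
  have h5 : (Js e z).det = (Js e' (τ z)).det * (fderiv ℝ τ z).det := by
    rw [h4]
    unfold ContinuousLinearMap.det
    rw [ContinuousLinearMap.toLinearMap_comp, LinearMap.det_comp]
  have h6 : 0 < (Js e z).det := hor e he z hz.1
  have h7 : 0 < (Js e' (τ z)).det := hor e' he' _ (e'.map_source hz.2)
  have h8 : 0 < (fderiv ℝ τ z).det := by
    rw [h5] at h6
    exact pos_of_mul_pos_right h6 h7.le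
  simp only [smul_eq_mul]
  rw [abs_of_pos h8, h5, hτ]
  simp only
  rw [e'.left_inv hz.2]
  ring

/-- densities which can be integrated -/
structure Nice (V : Type*) [NormedAddCommGroup V] [NormedSpace ℝ V]
    {X : Type*} [TopologicalSpace X] [ChartedSpace V X] (K : Set X) (b : X → ℝ) : Prop where
  zero : ∀ x, x ∉ K → b x = 0
  cont : ∀ e ∈ atlas V X, ∀ z ∈ e.target, e.symm z ∈ K →
    ContinuousAt (fun z => b (e.symm z) * (Js e z).det) z

omit [FiniteDimensional ℝ V] [MeasurableSpace V] [BorelSpace V] [T2Space X]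
  [IsManifold 𝓘(ℝ, V) ∞ X] in
lemma Nice.mul {K : Set X} {b ρ : X → ℝ} (hb : Nice V K b) (hρ : ∀ x ∈ K, ContinuousAt ρ x) :
    Nice V K (fun x => ρ x * b x) := by
  refine ⟨fun x hx => by rw [hb.zero x hx, mul_zero], fun e he z hz hzK => ?_⟩
  have h1 : ContinuousAt (fun z => ρ (e.symm z)) z :=
    ContinuousAt.comp (hρ _ hzK) (e.continuousAt_symm hz)
  have := h1.mul (hb.cont e he z hz hzK)
  refine this.congr (Eventually.of_forall fun y => ?_)
  simp only [Pi.mul_apply]
  ring

omit [MeasurableSpace V] [BorelSpace V] [IsManifold 𝓘(ℝ, V) ∞ X] [FiniteDimensional ℝ V] in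
lemma Nice.cont_ind {K C : Set X} (hK : IsCompact K) {b : X → ℝ} (hb : Nice V K b)
    {e : OpenPartialHomeomorph X V} (he : e ∈ atlas V X) (hC : IsCompact C) (hCe : C ⊆ e.source)
    (hbC : ∀ x, x ∉ C → b x = 0) :
    IsCompact (e '' C) ∧
    (∀ z ∈ e '' C, ContinuousAt (e.target.indicator fun z => b (e.symm z) * (Js e z).det) z) ∧
    ∀ z, z ∉ e '' C → (e.target.indicator fun z => b (e.symm z) * (Js e z).det) z = 0 := by
  refine ⟨hC.image_of_continuousOn (e.continuousOn.mono hCe), ?_, ?_⟩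
  · rintro _ ⟨x, hx, rfl⟩
    have hxt : e x ∈ e.target := e.map_source (hCe hx)
    have h1 : (e.target.indicator fun z => b (e.symm z) * (Js e z).det) =ᶠ[𝓝 (e x)]
        fun z => b (e.symm z) * (Js e z).det := by
      filter_upwards [e.open_target.mem_nhds hxt] with y hy
      rw [indicator_of_mem hy]
    refine ContinuousAt.congr ?_ h1.symm
    by_cases hxK : x ∈ K
    · exact hb.cont e he _ hxt (by rw [e.left_inv (hCe hx)]; exact hxK)
    · have h2 : (fun z => b (e.symm z) * (Js e z).det) =ᶠ[𝓝 (e x)] fun _ => 0 := by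
        have h3 : ∀ᶠ y in 𝓝 (e.symm (e x)), y ∈ Kᶜ := by
          rw [e.left_inv (hCe hx)]
          exact hK.isClosed.isOpen_compl.mem_nhds hxK
        filter_upwards [(e.continuousAt_symm hxt).eventually h3] with y hy
        rw [hb.zero _ hy, zero_mul]
      exact continuousAt_const.congr h2.symm
  · intro z hz
    by_cases hzt : z ∈ e.target
    · rw [indicator_of_mem hzt, hbC, zero_mul]
      intro h
      exact hz ⟨_, h, e.right_inv hzt⟩
    · rw [indicator_of_notMem hzt]

omit [IsManifold 𝓘(ℝ, V) ∞ X] in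
lemma Nice.integrable {K C : Set X} (hK : IsCompact K) {b : X → ℝ} (hb : Nice V K b)
    {e : OpenPartialHomeomorph X V} (he : e ∈ atlas V X) (hC : IsCompact C) (hCe : C ⊆ e.source)
    (hbC : ∀ x, x ∉ C → b x = 0) :
    IntegrableOn (fun z => b (e.symm z) * (Js e z).det) e.target μ := by
  rw [← integrable_indicator_iff e.open_target.measurableSet]
  obtain ⟨h1, h2, h3⟩ := hb.cont_ind hK he hC hCe hbC
  exact int_of μ h1 h2 h3

omit [IsManifold 𝓘(ℝ, V) ∞ X] [FiniteDimensional ℝ V] in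
lemma CI_pos {K C : Set X} (hK : IsCompact K) {b : X → ℝ} (hb : Nice V K b)
    (hor : Oriented V X)
    {e : OpenPartialHomeomorph X V} (he : e ∈ atlas V X) (hC : IsCompact C) (hCe : C ⊆ e.source)
    (hbC : ∀ x, x ∉ C → b x = 0) (hb0 : ∀ x, 0 ≤ b x) {x : X} (hx : 0 < b x) :
    0 < CI μ e b := by
  obtain ⟨h1, h2, h3⟩ := hb.cont_ind hK he hC hCe hbC
  obtain ⟨h4, h5⟩ := cont_of h1 h2 h3
  have hxC : x ∈ C := by
    by_contra h
    rw [hbC x h] at hx
    exact lt_irrefl _ hx
  have hxt : e x ∈ e.target := e.map_source (hCe hxC)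
  unfold CI
  rw [← integral_indicator e.open_target.measurableSet]
  refine h4.integral_pos_of_hasCompactSupport_nonneg_nonzero (x := e x) h5 ?_ ?_
  · intro z
    refine indicator_nonneg (fun y hy => ?_) z
    exact mul_nonneg (hb0 _) (hor e he y hy).le
  · rw [indicator_of_mem hxt, e.left_inv (hCe hxC)]
    exact (mul_pos hx (hor e he _ hxt)).ne'

omit [IsManifold 𝓘(ℝ, V) ∞ X] [FiniteDimensional ℝ V] [μ.IsAddHaarMeasure] [T2Space X] in
lemma CI_nonneg (hor : Oriented V X) {b : X → ℝ}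
    {e : OpenPartialHomeomorph X V} (he : e ∈ atlas V X) (hb0 : ∀ x, 0 ≤ b x) :
    0 ≤ CI μ e b := by
  unfold CI
  refine setIntegral_nonneg e.open_target.measurableSet fun z hz => ?_
  exact mul_nonneg (hb0 _) (hor e he z hz).le

omit [IsManifold 𝓘(ℝ, V) ∞ X] in
lemma CI_sum {κ : Type*} (s : Finset κ) {K C : Set X} (hK : IsCompact K) {b : κ → X → ℝ}
    (hb : ∀ i ∈ s, Nice V K (b i))
    {e : OpenPartialHomeomorph X V} (he : e ∈ atlas V X) (hC : IsCompact C) (hCe : C ⊆ e.source)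
    (hbC : ∀ i ∈ s, ∀ x, x ∉ C → b i x = 0) :
    CI μ e (fun x => ∑ i ∈ s, b i x) = ∑ i ∈ s, CI μ e (b i) := by
  unfold CI
  rw [← integral_finsetSum]
  · congr 1
    funext z
    rw [Finset.sum_mul]
  · intro i hi
    exact (hb i hi).integrable μ hK he hC hCe (hbC i hi)

end Pool.Agent.H88.ST
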