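import Pool.Agent.H88.ST.Int1

/-!
# The integral argument
-/

open Set Metric Filter Topology MeasureTheory
open scoped Manifold ContDiff

namespace Pool.Agent.H88.ST

variable {V : Type*} [NormedAddCommGroup V] [NormedSpace ℝ V] [FiniteDimensional ℝ V]
  [MeasurableSpace V] [BorelSpace V] (μ : Measure V) [μ.IsAddHaarMeasure]
  {X : Type*} [TopologicalSpace X] [T2Space X] [ChartedSpace V X] [IsManifold 𝓘(ℝ, V) ∞ X]

omit [FiniteDimensional ℝ V] [MeasurableSpace V] [BorelSpace V] in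
lemma dt_zero (ι : R6 ≃L[ℝ] V) (B : V →L[ℝ] R5) : dt ι (cm 0 B) = 0 := by
  rw [dt_expand]
  simp

omit [FiniteDimensional ℝ V] [MeasurableSpace V] [BorelSpace V] in
lemma dt_smul (ι : R6 ≃L[ℝ] V) (c : ℝ) (a : V →L[ℝ] ℝ) (B : V →L[ℝ] R5) :
    dt ι (cm (c • a) B) = c * dt ι (cm a B) := by
  rw [dt_expand, dt_expand, Finset.mul_sum]
  refine Finset.sum_congr rfl fun σ _ => ?_
  simp only [smul_apply, smul_eq_mul]
  ring

omit [FiniteDimensional ℝ V] [MeasurableSpace V] [BorelSpace V] in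
lemma dt_sum (ι : R6 ≃L[ℝ] V) {κ : Type*} (s : Finset κ) (a : κ → V →L[ℝ] ℝ) (B : V →L[ℝ] R5) :
    dt ι (cm (∑ i ∈ s, a i) B) = ∑ i ∈ s, dt ι (cm (a i) B) := by
  simp_rw [dt_expand]
  rw [Finset.sum_comm]
  refine Finset.sum_congr rfl fun σ _ => ?_
  rw [← Finset.mul_sum, ← Finset.sum_mul]
  simp only [FunLike.coe_sum, Finset.sum_apply]

omit [FiniteDimensional ℝ V] [MeasurableSpace V] [BorelSpace V] [T2Space X] in
lemma dX_eq {E : Type*} [NormedAddCommGroup E] [NormedSpace ℝ E]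
    {e : OpenPartialHomeomorph X V} (he : e ∈ atlas V X) {x : X} (hx : x ∈ e.source) {F : X → E}
    (hF : MDifferentiableAt 𝓘(ℝ, V) 𝓘(ℝ, E) F x) :
    dX F x = (fderiv ℝ (F ∘ e.symm) (e x)).comp (Jc e x) := by
  have hF' : MDifferentiableAt 𝓘(ℝ, V) 𝓘(ℝ, E) F (e.symm (e x)) := by
    rw [e.left_inv hx]; exact hF
  rw [fderiv_comp_symm he (e.map_source hx) hF', ContinuousLinearMap.comp_assoc,
    Js_comp_Jc he hx, ContinuousLinearMap.comp_id, e.left_inv hx]

omit [FiniteDimensional ℝ V] [MeasurableSpace V] [BorelSpace V] [T2Space X] in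
lemma dX_sum {κ : Type*} (s : Finset κ) {w : κ → X → ℝ}
    (hw : ∀ j ∈ s, ContMDiff 𝓘(ℝ, V) 𝓘(ℝ, ℝ) ∞ (w j)) (x : X) :
    dX (V := V) (fun x => ∑ j ∈ s, w j x) x = ∑ j ∈ s, dX (V := V) (w j) x := by
  have hx : x ∈ (chartAt V x).source := mem_chart_source V x
  have hS : ContMDiff 𝓘(ℝ, V) 𝓘(ℝ, ℝ) ∞ fun x => ∑ j ∈ s, w j x := contMDiff_finsetSum hw
  rw [dX_eq (chart_mem_atlas V x) hx ((hS x).mdifferentiableAt (by simp))]
  have h1 : ∀ j ∈ s, DifferentiableAt ℝ (fun z => w j ((chartAt V x).symm z))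
      (chartAt V x x) := fun j hj =>
    (contDiffAt_comp_symm (n := 2) (chart_mem_atlas V x) ((chartAt V x).map_source hx)
      ((hw j hj _).of_le two_le_inf)).differentiableAt (by norm_num)
  have h2 : fderiv ℝ ((fun x => ∑ j ∈ s, w j x) ∘ (chartAt V x).symm) (chartAt V x x) =
      ∑ j ∈ s, fderiv ℝ (fun z => w j ((chartAt V x).symm z)) (chartAt V x x) :=
    (HasFDerivAt.fun_sum fun j hj => (h1 j hj).hasFDerivAt).fderiv
  rw [h2]
  ext v
  simp only [ContinuousLinearMap.comp_apply, FunLike.coe_sum, Finset.sum_apply]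
  refine Finset.sum_congr rfl fun j hj => ?_
  rw [dX_eq (chart_mem_atlas V x) hx ((hw j hj x).mdifferentiableAt (by simp))]
  rfl

omit [FiniteDimensional ℝ V] [MeasurableSpace V] [BorelSpace V] [T2Space X]
  [IsManifold 𝓘(ℝ, V) ∞ X] in
lemma dX_zero_of {w : X → ℝ} {x : X} (h : ∀ᶠ y in 𝓝 x, w y = 0) : dX (V := V) w x = 0 := by
  have h1 : w =ᶠ[𝓝 x] fun _ => (0 : ℝ) := h
  unfold dX
  rw [h1.mfderiv_eq]
  exact mfderiv_const

omit [FiniteDimensional ℝ V] [MeasurableSpace V] [BorelSpace V] in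
lemma Nice_Dt (ι : R6 ≃L[ℝ] V) {K : Set X} (hK : IsCompact K) {A : X → V →L[ℝ] R5}
    (hA : ∀ x ∈ K, ∃ F : X → R5, ∀ᶠ y in 𝓝 x, DevAt A F y) {w : X → ℝ}
    (hw : ContMDiff 𝓘(ℝ, V) 𝓘(ℝ, ℝ) ∞ w) (hwK : ∀ x, x ∉ K → w x = 0) :
    Nice V K (Dt ι w A) := by
  refine ⟨fun x hx => ?_, fun e he z hz hzK => ?_⟩
  · unfold Dt
    rw [dX_zero_of, dt_zero]
    filter_upwards [hK.isClosed.isOpen_compl.mem_nhds hx] with y hy
    exact hwK y hy
  · obtain ⟨F, hF⟩ := LocDev.pull he hz (hA _ hzK)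
    have c1 : ContinuousAt (ST.pull e A) z := (EDev_contDiffAt hF).continuousAt
    have c2 : ContinuousAt (fderiv ℝ (w ∘ e.symm)) z :=
      ((contDiffAt_comp_symm (n := 2) he hz ((hw _).of_le two_le_inf)).fderiv_right
        (m := 1) (by norm_num)).continuousAt
    have c3 : ContinuousAt (fun z => dt ι (cm (fderiv ℝ (w ∘ e.symm) z) (ST.pull e A z))) z :=
      (dt_continuous ι).continuousAt.comp (cm_continuousAt c2 c1)
    refine c3.congr ?_
    filter_upwards [e.open_target.mem_nhds hz] with y hy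
    exact Dt_chart ι hw A he hy

omit [T2Space X] in
/-- one box -/
lemma CI_Dt_zero (ι : R6 ≃L[ℝ] V) {A : X → V →L[ℝ] R5} {w : X → ℝ} {F : X → R5}
    {e : OpenPartialHomeomorph X V} (he : e ∈ atlas V X) {C : Set X} (hC : IsCompact C)
    (hCe : C ⊆ e.source) (hw : ContMDiff 𝓘(ℝ, V) 𝓘(ℝ, ℝ) ∞ w) (hwC : ∀ x, x ∉ C → w x = 0)
    (hF : ∀ x ∈ C, DevAt A F x) : CI μ e (Dt ι w A) = 0 := by
  have hCc : IsCompact (e '' C) := hC.image_of_continuousOn (e.continuousOn.mono hCe)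
  have hCt : e '' C ⊆ e.target := by
    rintro _ ⟨x, hx, rfl⟩
    exact e.map_source (hCe hx)
  set u : V → ℝ := e.target.indicator (w ∘ e.symm) with hu
  have hu0 : ∀ z, z ∉ e '' C → u z = 0 := by
    intro z hz
    by_cases hzt : z ∈ e.target
    · rw [hu, indicator_of_mem hzt, Function.comp_apply, hwC]
      intro h
      exact hz ⟨_, h, e.right_inv hzt⟩
    · rw [hu, indicator_of_notMem hzt]
  have hue : ∀ z ∈ e.target, u =ᶠ[𝓝 z] w ∘ e.symm := by
    intro z hz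
    filter_upwards [e.open_target.mem_nhds hz] with y hy
    rw [hu, indicator_of_mem hy]
  have huC : ContDiff ℝ 2 u := by
    rw [contDiff_iff_contDiffAt]
    intro z
    by_cases hz : z ∈ e '' C
    · have h1 := contDiffAt_comp_symm (n := 2) he (hCt hz) ((hw _).of_le two_le_inf)
      exact h1.congr_of_eventuallyEq (hue z (hCt hz))
    · have h1 : u =ᶠ[𝓝 z] fun _ => 0 := by
        filter_upwards [hCc.isClosed.isOpen_compl.mem_nhds hz] with y hy
        exact hu0 y hy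
      exact (contDiffAt_const (c := (0 : ℝ))).congr_of_eventuallyEq h1
  have hus : HasCompactSupport u := HasCompactSupport.intro hCc hu0
  have hts : tsupport u ⊆ e '' C := by
    apply closure_minimal _ hCc.isClosed
    intro z hz
    by_contra h
    exact hz (hu0 z h)
  have hFs : ∀ z ∈ e '' C, EDevAt (ST.pull e A) (F ∘ e.symm) z := by
    rintro _ ⟨x, hx, rfl⟩
    refine DevAt.pull he (e.map_source (hCe hx)) ?_
    rw [e.left_inv (hCe hx)]
    exact hF x hx
  have hmain := I0 μ ι huC hus fun z hz => (hFs z (hts hz)).1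
  unfold CI
  rw [← hmain, ← integral_indicator e.open_target.measurableSet]
  congr 1
  funext z
  by_cases hzt : z ∈ e.target
  · rw [indicator_of_mem hzt, ← Dt_chart ι hw A he hzt, ← (hue z hzt).fderiv_eq]
    by_cases hz : z ∈ e '' C
    · rw [(hFs z hz).2, dt_MC]
    · have h1 : u =ᶠ[𝓝 z] fun _ => 0 := by
        filter_upwards [hCc.isClosed.isOpen_compl.mem_nhds hz] with y hy
        exact hu0 y hy
      have h2 : fderiv ℝ u z = 0 := by rw [h1.fderiv_eq]; simp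
      rw [h2, dt_zero, dt_zero]
  · rw [indicator_of_notMem hzt]
    have hz : z ∉ e '' C := fun h => hzt (hCt h)
    have h1 : u =ᶠ[𝓝 z] fun _ => 0 := by
      filter_upwards [hCc.isClosed.isOpen_compl.mem_nhds hz] with y hy
      exact hu0 y hy
    have h2 : fderiv ℝ u z = 0 := by rw [h1.fderiv_eq]; simp
    rw [h2, dt_zero]

/-- Stokes -/
lemma stokes (ι : R6 ≃L[ℝ] V) (hor : Oriented V X) {K : Set X} (hK : IsCompact K)
    {A : X → V →L[ℝ] R5} (hA : ∀ x ∈ K, ∃ F : X → R5, ∀ᶠ y in 𝓝 x, DevAt A F y) {u : X → ℝ}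
    (hu : ContMDiff 𝓘(ℝ, V) 𝓘(ℝ, ℝ) ∞ u) (huK : ∀ x, x ∉ K → u x = 0) {σ : ℝ}
    (hpos : ∀ x, 0 ≤ σ * Dt ι u A x) : ∀ x, ¬ 0 < σ * Dt ι u A x := by
  classical
  intro x₁ hx₁
  let μ : Measure V := Measure.addHaar
  have hbox : ∀ x ∈ K, ∃ χ : X → ℝ, ∃ F : X → R5, ContMDiff 𝓘(ℝ, V) 𝓘(ℝ, ℝ) ∞ χ ∧
      (∀ y, 0 ≤ χ y) ∧ χ x = 1 ∧ IsCompact (tsupport χ) ∧ tsupport χ ⊆ (chartAt V x).source ∧
      ∀ y ∈ tsupport χ, DevAt A F y := by
    intro x hx
    obtain ⟨F, hF⟩ := hA x hx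
    have hU : (chartAt V x).source ∩ {y | DevAt A F y} ∈ 𝓝 x :=
      Filter.inter_mem ((chartAt V x).open_source.mem_nhds (mem_chart_source V x)) hF
    obtain ⟨χ, -, hχ⟩ := (SmoothBumpFunction.nhds_basis_tsupport (I := 𝓘(ℝ, V)) x).mem_iff.1 hU
    exact ⟨χ, F, χ.contMDiff, fun y => χ.nonneg, χ.eq_one, χ.hasCompactSupport,
      fun y hy => (hχ hy).1, fun y hy => (hχ hy).2⟩
  choose! χ F hχs hχ0 hχ1 hχc hχe hχF using hbox
  obtain ⟨s, hs, hcov⟩ := hK.elim_nhds_subcover (fun x => {y | 1 / 2 < χ x y}) (by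
    intro x hx
    apply (isOpen_lt continuous_const (hχs x hx).continuous).mem_nhds
    rw [mem_ofPred_eq, hχ1 x hx]
    norm_num)
  set S : X → ℝ := fun x => ∑ i ∈ s, χ i x with hS
  have hSs : ContMDiff 𝓘(ℝ, V) 𝓘(ℝ, ℝ) ∞ S := by
    apply contMDiff_finsetSum
    intro i hi
    exact hχs i (hs i hi)
  have hSpos : ∀ x ∈ K, 0 < S x := by
    intro x hx
    have h1 := hcov hx
    rw [mem_iUnion₂] at h1
    obtain ⟨i, hi, hi'⟩ := h1
    have h2 : χ i x ≤ S x :=
      Finset.single_le_sum (f := fun i => χ i x) (fun j hj => hχ0 j (hs j hj) x) hi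
    have h3 : 1 / 2 < χ i x := hi'
    linarith
  -- the pieces
  set w : X → X → ℝ := fun j x => χ j x * (u x / S x) with hw
  have hwK : ∀ j, ∀ x, x ∉ K → w j x = 0 := by
    intro j x hx
    rw [hw]
    simp only
    rw [huK x hx, zero_div, mul_zero]
  have hws : ∀ j ∈ s, ContMDiff 𝓘(ℝ, V) 𝓘(ℝ, ℝ) ∞ (w j) := by
    intro j hj x
    by_cases hx : x ∈ K
    · exact (hχs j (hs j hj) x).mul ((hu x).div₀ (hSs x) (hSpos x hx).ne')
    · have h1 : w j =ᶠ[𝓝 x] fun _ => 0 := by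
        filter_upwards [hK.isClosed.isOpen_compl.mem_nhds hx] with y hy
        exact hwK j y hy
      exact (contMDiffAt_const (c := (0 : ℝ))).congr_of_eventuallyEq h1
  have hwsum : ∀ x, ∑ j ∈ s, w j x = u x := by
    intro x
    by_cases hx : x ∈ K
    · rw [hw]
      simp only
      rw [← Finset.sum_mul]
      have : ∑ i ∈ s, χ i x = S x := rfl
      rw [this]
      have := (hSpos x hx).ne'
      field_simp
    · rw [huK x hx]
      exact Finset.sum_eq_zero fun j _ => hwK j x hx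
  have hbsum : ∀ x, ∑ j ∈ s, Dt ι (w j) A x = Dt ι u A x := by
    intro x
    unfold Dt
    rw [← dt_sum]
    congr 2
    have h1 : u = fun x => ∑ j ∈ s, w j x := by
      funext y
      exact (hwsum y).symm
    rw [h1]
    exact (dX_sum s hws x).symm
  have hNice : ∀ j ∈ s, Nice V K (Dt ι (w j) A) := fun j hj =>
    Nice_Dt ι hK hA (hws j hj) (hwK j)
  have hNu : Nice V K (Dt ι u A) := Nice_Dt ι hK hA hu huK
  have hρc : ∀ i ∈ s, ∀ x ∈ K, ContinuousAt (fun x => χ i x / S x) x := by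
    intro i hi x hx
    exact (hχs i (hs i hi)).continuous.continuousAt.div hSs.continuous.continuousAt
      (hSpos x hx).ne'
  have hDw0 : ∀ j, ∀ x, x ∉ tsupport (χ j) → Dt ι (w j) A x = 0 := by
    intro j x hx
    unfold Dt
    rw [dX_zero_of, dt_zero]
    filter_upwards [(isClosed_tsupport (χ j)).isOpen_compl.mem_nhds hx] with y hy
    rw [hw]
    simp only
    rw [image_eq_zero_of_notMem_tsupport hy, zero_mul]
  -- vanishing in each box
  have hz : ∀ j ∈ s, CI μ (chartAt V j) (Dt ι (w j) A) = 0 := by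
    intro j hj
    refine CI_Dt_zero μ ι (chart_mem_atlas V j) (hχc j (hs j hj)) (hχe j (hs j hj)) (hws j hj)
      ?_ (hχF j (hs j hj))
    intro x hx
    rw [hw]
    simp only
    rw [image_eq_zero_of_notMem_tsupport hx, zero_mul]
  -- insertion of the partition of unity
  have hins : ∀ j ∈ s, ∑ i ∈ s, CI μ (chartAt V i) (fun x => (χ i x / S x) * Dt ι (w j) A x) = 0 := by
    intro j hj
    have h1 : ∀ i ∈ s, CI μ (chartAt V i) (fun x => (χ i x / S x) * Dt ι (w j) A x) =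
        CI μ (chartAt V j) (fun x => (χ i x / S x) * Dt ι (w j) A x) := by
      intro i hi
      refine CI_change μ hor (chart_mem_atlas V i) (chart_mem_atlas V j) ?_
      intro x hx
      by_cases h2 : x ∈ (chartAt V i).source
      · have h3 : x ∉ (chartAt V j).source := fun h => hx ⟨h2, h⟩
        rw [hDw0 j x fun h => h3 (hχe j (hs j hj) h), mul_zero]
      · have h3 : χ i x = 0 := by
          by_contra h
          exact h2 (hχe i (hs i hi) (subset_tsupport _ h))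
        rw [h3, zero_div, zero_mul]
    rw [Finset.sum_congr rfl h1, ← CI_sum μ s hK
      (fun i hi => (hNice j hj).mul (hρc i hi)) (chart_mem_atlas V j) (hχc j (hs j hj))
      (hχe j (hs j hj)) (fun i _ x hx => by rw [hDw0 j x hx, mul_zero]), ← hz j hj]
    congr 1
    funext x
    by_cases hx : x ∈ K
    · rw [← Finset.sum_mul, ← Finset.sum_div]
      have : ∑ i ∈ s, χ i x = S x := rfl
      rw [this, div_self (hSpos x hx).ne', one_mul]
    · rw [(hNice j hj).zero x hx]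
      simp
  -- the total
  have htot : ∑ i ∈ s, CI μ (chartAt V i) (fun x => (χ i x / S x) * Dt ι u A x) = 0 := by
    have h1 : ∀ i ∈ s, CI μ (chartAt V i) (fun x => (χ i x / S x) * Dt ι u A x) =
        ∑ j ∈ s, CI μ (chartAt V i) (fun x => (χ i x / S x) * Dt ι (w j) A x) := by
      intro i hi
      rw [← CI_sum μ s hK (fun j hj => (hNice j hj).mul (hρc i hi)) (chart_mem_atlas V i)
        (hχc i (hs i hi)) (hχe i (hs i hi))]
      · congr 1
        funext x
        rw [← Finset.mul_sum, hbsum]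
      · intro j _ x hx
        rw [image_eq_zero_of_notMem_tsupport hx, zero_div, zero_mul]
    rw [Finset.sum_congr rfl h1, Finset.sum_comm]
    exact Finset.sum_eq_zero fun j hj => hins j hj
  -- positivity
  have hx₁K : x₁ ∈ K := by
    by_contra h
    rw [hNu.zero x₁ h, mul_zero] at hx₁
    exact lt_irrefl _ hx₁
  have hρ0 : ∀ i ∈ s, ∀ x, 0 ≤ (χ i x / S x) * (σ * Dt ι u A x) := by
    intro i hi x
    exact mul_nonneg (div_nonneg (hχ0 i (hs i hi) x)
      (Finset.sum_nonneg fun j hj => hχ0 j (hs j hj) x)) (hpos x)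
  have hCIσ : ∀ i ∈ s, CI μ (chartAt V i) (fun x => (χ i x / S x) * (σ * Dt ι u A x)) =
      σ * CI μ (chartAt V i) (fun x => (χ i x / S x) * Dt ι u A x) := by
    intro i _
    unfold CI
    rw [← integral_const_mul]
    congr 1
    funext z
    ring
  obtain ⟨i, hi, hi'⟩ : ∃ i ∈ s, 0 < χ i x₁ := by
    have h1 := hcov hx₁K
    rw [mem_iUnion₂] at h1
    obtain ⟨i, hi, hi'⟩ := h1
    have h3 : 1 / 2 < χ i x₁ := hi'
    exact ⟨i, hi, by linarith⟩
  have hNσ : Nice V K (fun x => σ * Dt ι u A x) :=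
    hNu.mul (ρ := fun _ => σ) fun x _ => continuousAt_const
  have hlt : 0 < CI μ (chartAt V i) (fun x => (χ i x / S x) * (σ * Dt ι u A x)) := by
    refine CI_pos μ hK (hNσ.mul (hρc i hi)) hor (chart_mem_atlas V i) (hχc i (hs i hi))
      (hχe i (hs i hi)) ?_ (hρ0 i hi) (x := x₁) ?_
    · intro x hx
      rw [image_eq_zero_of_notMem_tsupport hx, zero_div, zero_mul]
    · exact mul_pos (div_pos hi' (hSpos x₁ hx₁K)) hx₁
  have hsum : 0 < ∑ i ∈ s, CI μ (chartAt V i) (fun x => (χ i x / S x) * (σ * Dt ι u A x)) :=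
    Finset.sum_pos' (fun i hi => CI_nonneg μ hor (chart_mem_atlas V i) (hρ0 i hi)) ⟨i, hi, hlt⟩
  rw [Finset.sum_congr rfl hCIσ, ← Finset.mul_sum, htot, mul_zero] at hsum
  exact lt_irrefl _ hsum

end Pool.Agent.H88.ST
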