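import Pool.Agent.H88.ST.Dev

/-!
# Locally developable forms on manifolds and the local modification
-/

open Set Metric Filter Topology
open scoped Manifold ContDiff

namespace Pool.Agent.H88.ST

variable {V : Type*} [NormedAddCommGroup V] [NormedSpace ℝ V]
  {X : Type*} [TopologicalSpace X] [ChartedSpace V X]
  {E : Type*} [NormedAddCommGroup E] [NormedSpace ℝ E]

/-- derivative in the preferred chart -/
noncomputable def dX (F : X → E) (x : X) : V →L[ℝ] E := mfderiv 𝓘(ℝ, V) 𝓘(ℝ, E) F x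

/-- `F` is a developing map of the form `A` at `x` -/
def DevAt (A : X → V →L[ℝ] R5) (F : X → R5) (x : X) : Prop :=
  ContMDiffAt 𝓘(ℝ, V) 𝓘(ℝ, R5) 2 F x ∧ A x = (MC (F x)).comp (dX F x)

/-- `A` is locally developable on `Z` -/
def LocDev (A : X → V →L[ℝ] R5) (Z : Set X) : Prop :=
  ∀ x ∈ Z, ∃ F : X → R5, ∀ᶠ y in 𝓝 x, DevAt A F y

/-- tangent map of the inverse of a chart -/
noncomputable def Js (e : OpenPartialHomeomorph X V) (z : V) : V →L[ℝ] V :=
  mfderiv 𝓘(ℝ, V) 𝓘(ℝ, V) e.symm z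

/-- tangent map of a chart -/
noncomputable def Jc (e : OpenPartialHomeomorph X V) (x : X) : V →L[ℝ] V :=
  mfderiv 𝓘(ℝ, V) 𝓘(ℝ, V) e x

/-- a form read in a chart -/
noncomputable def pull (e : OpenPartialHomeomorph X V) (A : X → V →L[ℝ] E) (z : V) : V →L[ℝ] E :=
  (A (e.symm z)).comp (Js e z)

lemma LocDev.mono {A : X → V →L[ℝ] R5} {Z Z' : Set X} (h : LocDev A Z) (hs : Z' ⊆ Z) :
    LocDev A Z' := fun x hx => h x (hs hx)

section manifold

variable [IsManifold 𝓘(ℝ, V) ∞ X]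

lemma Js_comp_Jc {e : OpenPartialHomeomorph X V} (he : e ∈ atlas V X) {x : X}
    (hx : x ∈ e.source) : (Js e (e x)).comp (Jc e x) = ContinuousLinearMap.id ℝ V :=
  (mdifferentiable_of_mem_atlas (I := 𝓘(ℝ, V)) he).symm_comp_deriv hx

lemma Jc_comp_Js {e : OpenPartialHomeomorph X V} (he : e ∈ atlas V X) {z : V}
    (hz : z ∈ e.target) : (Jc e (e.symm z)).comp (Js e z) = ContinuousLinearMap.id ℝ V :=
  (mdifferentiable_of_mem_atlas (I := 𝓘(ℝ, V)) he).comp_symm_deriv hz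

/-- chain rule -/
lemma fderiv_comp_symm {e : OpenPartialHomeomorph X V} (he : e ∈ atlas V X) {z : V}
    (hz : z ∈ e.target) {F : X → E} (hF : MDifferentiableAt 𝓘(ℝ, V) 𝓘(ℝ, E) F (e.symm z)) :
    fderiv ℝ (F ∘ e.symm) z = (dX F (e.symm z)).comp (Js e z) := by
  rw [← mfderiv_eq_fderiv]
  exact mfderiv_comp z hF (mdifferentiableAt_atlas_symm he hz)

lemma dX_comp {e : OpenPartialHomeomorph X V} (he : e ∈ atlas V X) {x : X}
    (hx : x ∈ e.source) {F : V → E} (hF : DifferentiableAt ℝ F (e x)) :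
    dX (F ∘ e) x = (fderiv ℝ F (e x)).comp (Jc e x) := by
  have := mfderiv_comp x (g := F) (I := 𝓘(ℝ, V)) (I' := 𝓘(ℝ, V)) (I'' := 𝓘(ℝ, E))
    hF.mdifferentiableAt (mdifferentiableAt_atlas (I := 𝓘(ℝ, V)) he hx)
  unfold dX
  rw [this, mfderiv_eq_fderiv]
  rfl

lemma contDiffAt_comp_symm {e : OpenPartialHomeomorph X V} (he : e ∈ atlas V X) {z : V}
    (hz : z ∈ e.target) {F : X → E} {n : ℕ∞}
    (hF : ContMDiffAt 𝓘(ℝ, V) 𝓘(ℝ, E) n F (e.symm z)) :
    ContDiffAt ℝ n (F ∘ e.symm) z := by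
  have h1 : ContMDiffAt 𝓘(ℝ, V) 𝓘(ℝ, V) ∞ e.symm z :=
    contMDiffAt_symm_of_mem_maximalAtlas (IsManifold.subset_maximalAtlas he) hz
  exact (hF.comp z (h1.of_le (by exact_mod_cast le_top))).contDiffAt

lemma contMDiffAt_comp {e : OpenPartialHomeomorph X V} (he : e ∈ atlas V X) {x : X}
    (hx : x ∈ e.source) {F : V → E} {n : ℕ∞} (hF : ContDiffAt ℝ n F (e x)) :
    ContMDiffAt 𝓘(ℝ, V) 𝓘(ℝ, E) n (F ∘ e) x := by
  have h1 : ContMDiffAt 𝓘(ℝ, V) 𝓘(ℝ, V) ∞ e x :=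
    contMDiffAt_of_mem_maximalAtlas (IsManifold.subset_maximalAtlas he) hx
  exact hF.contMDiffAt.comp x (h1.of_le (by exact_mod_cast le_top))

lemma DevAt.pull {e : OpenPartialHomeomorph X V} (he : e ∈ atlas V X) {z : V}
    (hz : z ∈ e.target) {A : X → V →L[ℝ] R5} {F : X → R5} (h : DevAt A F (e.symm z)) :
    EDevAt (pull e A) (F ∘ e.symm) z := by
  refine ⟨contDiffAt_comp_symm (n := 2) he hz h.1, ?_⟩
  rw [fderiv_comp_symm he hz (h.1.mdifferentiableAt (by norm_num))]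
  unfold ST.pull
  rw [h.2]
  rfl

lemma DevAt.push {e : OpenPartialHomeomorph X V} (he : e ∈ atlas V X) {x : X}
    (hx : x ∈ e.source) {A : X → V →L[ℝ] R5} {F : V → R5} (h : EDevAt (ST.pull e A) F (e x)) :
    DevAt A (F ∘ e) x := by
  refine ⟨contMDiffAt_comp (n := 2) he hx h.1, ?_⟩
  rw [dX_comp he hx (h.1.differentiableAt (by norm_num))]
  have h2 := congrArg (fun L : V →L[ℝ] R5 => L.comp (Jc e x)) h.2
  simp only [ST.pull] at h2
  rw [ContinuousLinearMap.comp_assoc, Js_comp_Jc he hx, e.left_inv hx,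
    ContinuousLinearMap.comp_id, ContinuousLinearMap.comp_assoc] at h2
  exact h2

lemma LocDev.pull {e : OpenPartialHomeomorph X V} (he : e ∈ atlas V X) {z : V}
    (hz : z ∈ e.target) {A : X → V →L[ℝ] R5} (h : ∃ F : X → R5, ∀ᶠ y in 𝓝 (e.symm z), DevAt A F y) :
    ∃ F, ∀ᶠ y in 𝓝 z, EDevAt (ST.pull e A) F y := by
  obtain ⟨F, hF⟩ := h
  refine ⟨F ∘ e.symm, ?_⟩
  filter_upwards [(e.continuousAt_symm hz).eventually hF, e.open_target.mem_nhds hz] with y hy hy'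
  exact DevAt.pull he hy' hy

omit [IsManifold 𝓘(ℝ, V) ∞ X] in
lemma DevAt.congr {A A' : X → V →L[ℝ] R5} {F : X → R5} {x : X} (h : DevAt A F x)
    (hA : A' x = A x) : DevAt A' F x := ⟨h.1, by rw [hA]; exact h.2⟩

/-- the local modification -/
lemma stepP {e : OpenPartialHomeomorph X V} (he : e ∈ atlas V X) {O O₁ O₂ : Set V}
    {f f' : X → ℝ} {t t' : ℝ} {Y C B : Set X} {A : X → V →L[ℝ] R5} (ht : t < t')
    (hf : ContMDiff 𝓘(ℝ, V) 𝓘(ℝ, ℝ) 2 f) (hY : IsOpen Y)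
    (hOe : O ⊆ e.target) (hO : ∀ z ∈ O, t < f (e.symm z) ∧ e.symm z ∈ Y)
    (hO₁ : IsOpen O₁) (hO₂ : IsOpen O₂) (h₁ : O₁ ⊆ O) (h₂ : O₂ ⊆ O₁)
    (hB : IsOpen B) (hBe : B ⊆ e.source) (hBO : ∀ x ∈ B, t < f x → e x ∈ O₂)
    (hP : ∀ a : V → V →L[ℝ] ℝ, ClosedOn a O → ∃ G, PrimOn G a O₁)
    (hP' : ∀ a : V → V →L[ℝ] ℝ, ClosedOn a O₁ → ∃ G, PrimOn G a O₂)
    (hA : LocDev A ({x | t < f x} ∩ Y)) (hC : IsClosed C) (hCB : C ⊆ B)
    (hff : ∀ x, x ∉ C → f' x = f x) :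
    ∃ A' : X → V →L[ℝ] R5, LocDev A' ({x | t' < f' x} ∩ Y) ∧ ∀ x, x ∉ B → A' x = A x := by
  classical
  obtain ⟨F₀, hF₀⟩ := develop (A := ST.pull e A) hO₁ hO₂ h₁ h₂
    (fun z hz => LocDev.pull he (hOe hz) (hA _ (hO z hz))) hP hP'
  set F : X → R5 := F₀ ∘ e with hFdef
  have hF : ∀ x ∈ B, t < f x → DevAt A F x := fun x hx hx' =>
    DevAt.push he (hBe hx) (hF₀ _ (hBO x hx hx'))
  have hfc : Continuous f := hf.continuous
  set t₁ : ℝ := (t + t') / 2 with ht₁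
  have htt₁ : t < t₁ := by linarith
  have ht₁t' : t₁ < t' := by linarith
  set θ : X → ℝ := fun x => Real.smoothTransition ((f x - t₁) / (t' - t₁)) with hθ
  have hθ0 : ∀ x, f x ≤ t₁ → θ x = 0 := by
    intro x hx
    apply Real.smoothTransition.zero_of_nonpos
    exact div_nonpos_of_nonpos_of_nonneg (by linarith) (by linarith)
  have hθ1 : ∀ x, t' ≤ f x → θ x = 1 := by
    intro x hx
    apply Real.smoothTransition.one_of_one_le
    rw [one_le_div (by linarith)]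
    linarith
  have hθs : ContMDiff 𝓘(ℝ, V) 𝓘(ℝ, ℝ) 2 θ := by
    have h1 : ContDiff ℝ 2 fun y : ℝ => Real.smoothTransition ((y - t₁) / (t' - t₁)) :=
      (Real.smoothTransition.contDiff (n := 2)).comp ((contDiff_id.sub contDiff_const).div_const _)
    exact h1.contMDiff.comp hf
  set F' : X → R5 := fun x => θ x • F x with hF'
  have hF's : ∀ x ∈ B, ContMDiffAt 𝓘(ℝ, V) 𝓘(ℝ, R5) 2 F' x := by
    intro x hx
    by_cases h : t < f x
    · exact (hθs x).smul (hF x hx h).1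
    · have hlt : f x < t₁ := by linarith [not_lt.1 h]
      have : F' =ᶠ[𝓝 x] fun _ => (0 : R5) := by
        filter_upwards [hfc.continuousAt.eventually (gt_mem_nhds hlt)] with y hy
        rw [hF']
        simp only
        rw [hθ0 y (le_of_lt hy), zero_smul]
      exact (contMDiffAt_const (c := (0 : R5))).congr_of_eventuallyEq this
  refine ⟨fun x => if x ∈ B then (MC (F' x)).comp (dX F' x) else A x, ?_, ?_⟩
  · rintro x ⟨hx, hxY⟩
    by_cases hxB : x ∈ B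
    · refine ⟨F', ?_⟩
      filter_upwards [hB.mem_nhds hxB] with y hy
      exact ⟨hF's y hy, if_pos hy⟩
    · have hxC : x ∉ C := fun h => hxB (hCB h)
      have hxf : t' < f x := by rw [← hff x hxC]; exact hx
      obtain ⟨F₁, hF₁⟩ := hA x ⟨lt_trans ht hxf, hxY⟩
      refine ⟨F₁, ?_⟩
      have hopen : IsOpen {y | t' < f y} := isOpen_lt continuous_const hfc
      filter_upwards [hF₁, hopen.mem_nhds hxf] with y hy hyf
      refine hy.congr ?_
      by_cases hyB : y ∈ B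
      · rw [if_pos hyB]
        have heq : F' =ᶠ[𝓝 y] F := by
          filter_upwards [hopen.mem_nhds hyf] with w hw
          rw [hF']
          simp only
          rw [hθ1 w (le_of_lt hw), one_smul]
        have h2 := (hF y hyB (lt_trans ht hyf)).2
        rw [h2, heq.self_of_nhds]
        unfold dX
        rw [heq.mfderiv_eq]
      · rw [if_neg hyB]
  · intro x hx
    simp [hx]

end manifold

end Pool.Agent.H88.ST
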