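import Pool.Agent.H88.ST.Ind

/-!
# Pushing along a function
-/

open Set Metric Filter Topology
open scoped Manifold ContDiff

namespace Pool.Agent.H88.ST

variable {V : Type*} [NormedAddCommGroup V] [NormedSpace ℝ V] [FiniteDimensional ℝ V]
  {X : Type*} [TopologicalSpace X] [T2Space X] [ChartedSpace V X] [IsManifold 𝓘(ℝ, V) ∞ X]

/-- a family of maps starting at the identity and increasing `φ` on `S` -/
structure PushProp (V : Type*) [NormedAddCommGroup V] [NormedSpace ℝ V]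
    {X : Type*} [TopologicalSpace X] [ChartedSpace V X] (φ : X → ℝ) (T : X × ℝ → X)
    (S : Set X) : Prop where
  zero : ∀ x, T (x, 0) = x
  smooth : ∀ x, ContMDiffAt (𝓘(ℝ, V).prod 𝓘(ℝ, ℝ)) 𝓘(ℝ, V) 2 T (x, 0)
  deriv : ∀ x, ∃ l : ℝ, 0 ≤ l ∧ HasDerivAt (fun s => φ (T (x, s))) l 0 ∧ (x ∈ S → 0 < l)

lemma push_one {φ : X → ℝ} (hφ : ContMDiff 𝓘(ℝ, V) 𝓘(ℝ, ℝ) ∞ φ) {x₀ : X}
    (h : fderiv ℝ (φ ∘ (chartAt V x₀).symm) (chartAt V x₀ x₀) ≠ 0) :
    ∃ T : X × ℝ → X, ∃ U ∈ 𝓝 x₀, PushProp V φ T U := by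
  classical
  set e := chartAt V x₀ with he
  have hea : e ∈ atlas V X := chart_mem_atlas V x₀
  have hxs : x₀ ∈ e.source := mem_chart_source V x₀
  obtain ⟨v, hv⟩ : ∃ v, 0 < fderiv ℝ (φ ∘ e.symm) (e x₀) v := by
    obtain ⟨v, hv⟩ : ∃ v, fderiv ℝ (φ ∘ e.symm) (e x₀) v ≠ 0 := by
      by_contra hcon
      push Not at hcon
      exact h (ContinuousLinearMap.ext hcon)
    rcases lt_or_gt_of_ne hv with hv | hv
    · exact ⟨-v, by rw [map_neg]; linarith⟩
    · exact ⟨v, hv⟩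
  have hφC : ∀ z ∈ e.target, ContDiffAt ℝ 2 (φ ∘ e.symm) z := fun z hz =>
    contDiffAt_comp_symm (n := 2) hea hz ((hφ _).of_le two_le_inf)
  -- the open set where the derivative is positive
  set W : Set V := {z | z ∈ e.target ∧ 0 < fderiv ℝ (φ ∘ e.symm) z v} with hW
  have hWo : ∀ᶠ z in 𝓝 (e x₀), z ∈ W := by
    have hc : ContinuousAt (fun z => fderiv ℝ (φ ∘ e.symm) z v) (e x₀) :=
      (((hφC _ (e.map_source hxs)).fderiv_right (m := 1) (by norm_num)).continuousAt).clm_apply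
        continuousAt_const
    filter_upwards [hc.eventually (lt_mem_nhds hv), e.open_target.mem_nhds (e.map_source hxs)]
      with z h1 h2
    exact ⟨h2, h1⟩
  have hU₀ : e.source ∩ e ⁻¹' W ∈ 𝓝 x₀ := by
    filter_upwards [e.open_source.mem_nhds hxs, (e.continuousAt hxs).eventually hWo] with x h1 h2
    exact ⟨h1, h2⟩
  obtain ⟨ρ, -, hρ⟩ := (SmoothBumpFunction.nhds_basis_tsupport (I := 𝓘(ℝ, V)) x₀).mem_iff.1 hU₀
  have hρc : ContMDiff 𝓘(ℝ, V) 𝓘(ℝ, ℝ) ∞ ρ := ρ.contMDiff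
  set T : X × ℝ → X := fun p => if p.1 ∈ e.source then e.symm (e p.1 + (p.2 * ρ p.1) • v) else p.1
    with hT
  refine ⟨T, {x | 1 / 2 < ρ x}, ?_, ?_, ?_, ?_⟩
  · apply (isOpen_lt continuous_const hρc.continuous).mem_nhds
    rw [mem_ofPred_eq, ρ.eq_one]
    norm_num
  · intro x
    rw [hT]
    simp only
    split_ifs with hx
    · rw [zero_mul, zero_smul, add_zero, e.left_inv hx]
    · rfl
  · intro x
    by_cases hx : x ∈ e.source
    · have h1 : ContMDiffAt (𝓘(ℝ, V).prod 𝓘(ℝ, ℝ)) 𝓘(ℝ, V) 2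
          (fun p : X × ℝ => e p.1 + (p.2 * ρ p.1) • v) (x, 0) := by
        have h2 : ContMDiffAt (𝓘(ℝ, V).prod 𝓘(ℝ, ℝ)) 𝓘(ℝ, V) 2 (fun p : X × ℝ => e p.1)
            (x, (0 : ℝ)) := by
          have h3 : ContMDiffAt 𝓘(ℝ, V) 𝓘(ℝ, V) ∞ e x :=
            contMDiffAt_of_mem_maximalAtlas (IsManifold.subset_maximalAtlas hea) hx
          exact (h3.of_le two_le_inf).comp (x, (0 : ℝ)) contMDiffAt_fst
        have h4 : ContMDiffAt (𝓘(ℝ, V).prod 𝓘(ℝ, ℝ)) 𝓘(ℝ, ℝ) 2 (fun p : X × ℝ => p.2 * ρ p.1)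
            (x, (0 : ℝ)) :=
          contMDiffAt_snd.mul (((hρc x).of_le two_le_inf).comp (x, (0 : ℝ)) contMDiffAt_fst)
        exact h2.add (h4.smul contMDiffAt_const)
      have h5 : e x + ((0 : ℝ) * ρ x) • v = e x := by simp
      have h6 : ContMDiffAt 𝓘(ℝ, V) 𝓘(ℝ, V) 2 e.symm (e x + ((0 : ℝ) * ρ x) • v) := by
        rw [h5]
        have : ContMDiffAt 𝓘(ℝ, V) 𝓘(ℝ, V) ∞ e.symm (e x) :=
          contMDiffAt_symm_of_mem_maximalAtlas (IsManifold.subset_maximalAtlas hea)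
            (e.map_source hx)
        exact this.of_le two_le_inf
      have h7 := ContMDiffAt.comp (x, (0 : ℝ)) (g := e.symm)
        (f := fun p : X × ℝ => e p.1 + (p.2 * ρ p.1) • v) h6 h1
      refine h7.congr_of_eventuallyEq ?_
      have : ∀ᶠ p : X × ℝ in 𝓝 (x, (0 : ℝ)), p.1 ∈ e.source :=
        continuousAt_fst.eventually (e.open_source.mem_nhds hx)
      filter_upwards [this] with p hp
      rw [hT]
      simp only [hp, if_true, Function.comp_apply]
    · have hxρ : x ∉ tsupport ρ := fun h => hx (hρ h).1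
      refine ContMDiffAt.congr_of_eventuallyEq contMDiffAt_fst ?_
      have : ∀ᶠ p : X × ℝ in 𝓝 (x, (0 : ℝ)), p.1 ∈ (tsupport ρ)ᶜ :=
        continuousAt_fst.eventually ((isClosed_tsupport ρ).isOpen_compl.mem_nhds hxρ)
      filter_upwards [this] with p hp
      rw [hT]
      simp only
      split_ifs with hps
      · rw [image_eq_zero_of_notMem_tsupport hp, mul_zero, zero_smul, add_zero, e.left_inv hps]
      · rfl
  · intro x
    by_cases hx : x ∈ e.source
    · refine ⟨ρ x * fderiv ℝ (φ ∘ e.symm) (e x) v, ?_, ?_, ?_⟩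
      · by_cases h0 : ρ x = 0
        · rw [h0, zero_mul]
        · have := (hρ (subset_tsupport _ h0)).2.2
          exact mul_nonneg ρ.nonneg this.le
      · have h1 : HasDerivAt (fun s : ℝ => e x + (s * ρ x) • v) (ρ x • v) 0 := by
          have h2 : HasDerivAt (fun s : ℝ => s * ρ x) (ρ x) 0 := by
            simpa using (hasDerivAt_id (0 : ℝ)).mul_const (ρ x)
          exact (h2.smul_const v).const_add _
        have h3 : HasFDerivAt (φ ∘ e.symm) (fderiv ℝ (φ ∘ e.symm) (e x))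
            (e x + ((0 : ℝ) * ρ x) • v) := by
          rw [zero_mul, zero_smul, add_zero]
          exact ((hφC _ (e.map_source hx)).differentiableAt (by norm_num)).hasFDerivAt
        have h4 := h3.comp_hasDerivAt (0 : ℝ) h1
        rw [map_smul, smul_eq_mul] at h4
        refine h4.congr_of_eventuallyEq (Eventually.of_forall fun s => ?_)
        rw [hT]
        simp only [hx, if_true, Function.comp_apply]
      · intro hxs'
        rw [mem_ofPred_eq] at hxs'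
        have hne : ρ x ≠ 0 := by linarith
        have := (hρ (subset_tsupport _ hne)).2.2
        exact mul_pos (by linarith) this
    · refine ⟨0, le_refl _, ?_, ?_⟩
      · have : (fun s : ℝ => φ (T (x, s))) = fun _ => φ x := by
          funext s
          rw [hT]
          simp only [hx, if_false]
        rw [this]
        exact hasDerivAt_const _ _
      · intro hxs'
        rw [mem_ofPred_eq] at hxs'
        have hne : ρ x ≠ 0 := by linarith
        exact absurd (ρ.support_subset_source hne) hx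

lemma push_comp {φ : X → ℝ} (hφ : ContMDiff 𝓘(ℝ, V) 𝓘(ℝ, ℝ) ∞ φ) {T T' : X × ℝ → X}
    {S S' : Set X} (hT : PushProp V φ T S) (hT' : PushProp V φ T' S') :
    PushProp V φ (fun p => T' (T p, p.2)) (S ∪ S') := by
  have hmid : ∀ x : X, ContMDiffAt (𝓘(ℝ, V).prod 𝓘(ℝ, ℝ)) (𝓘(ℝ, V).prod 𝓘(ℝ, ℝ)) 2
      (fun p : X × ℝ => (T p, p.2)) (x, 0) := fun x => (hT.smooth x).prodMk contMDiffAt_snd
  have hT'2 : ∀ x : X, ContMDiffAt (𝓘(ℝ, V).prod 𝓘(ℝ, ℝ)) 𝓘(ℝ, V) 2 T' (T (x, 0), 0) := by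
    intro x
    rw [hT.zero]
    exact hT'.smooth x
  refine ⟨?_, ?_, ?_⟩
  · intro x
    simp only
    rw [hT.zero, hT'.zero]
  · intro x
    exact ContMDiffAt.comp (x, (0 : ℝ)) (g := T') (f := fun p : X × ℝ => (T p, p.2)) (hT'2 x)
      (hmid x)
  · intro x
    obtain ⟨l, hl, hd, hlS⟩ := hT.deriv x
    obtain ⟨l', hl', hd', hlS'⟩ := hT'.deriv x
    refine ⟨l + l', add_nonneg hl hl', ?_, ?_⟩
    swap
    · rintro (h | h)
      · linarith [hlS h]
      · linarith [hlS' h]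
    set e := chartAt V x with he
    have hea : e ∈ atlas V X := chart_mem_atlas V x
    have hxs : x ∈ e.source := mem_chart_source V x
    -- the function in coordinates
    set G : V × ℝ → ℝ := fun p => φ (T' (e.symm p.1, p.2)) with hG
    have hGd : DifferentiableAt ℝ G (e x, 0) := by
      have h1 : ContMDiffAt (𝓘(ℝ, V).prod 𝓘(ℝ, ℝ)) (𝓘(ℝ, V).prod 𝓘(ℝ, ℝ)) 2
          (fun p : V × ℝ => (e.symm p.1, p.2)) (e x, 0) := by
        refine ContMDiffAt.prodMk ?_ contMDiffAt_snd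
        have : ContMDiffAt 𝓘(ℝ, V) 𝓘(ℝ, V) ∞ e.symm (e x) :=
          contMDiffAt_symm_of_mem_maximalAtlas (IsManifold.subset_maximalAtlas hea)
            (e.map_source hxs)
        exact (this.of_le two_le_inf).comp (e x, (0 : ℝ)) contMDiffAt_fst
      have h2 : ContMDiffAt (𝓘(ℝ, V).prod 𝓘(ℝ, ℝ)) 𝓘(ℝ, V) 2 T' (e.symm (e x), 0) := by
        rw [e.left_inv hxs]
        exact hT'.smooth x
      have h3 := ContMDiffAt.comp (e x, (0 : ℝ)) (g := T')
        (f := fun p : V × ℝ => (e.symm p.1, p.2)) h2 h1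
      have h4 : ContMDiffAt (𝓘(ℝ, V).prod 𝓘(ℝ, ℝ)) 𝓘(ℝ, ℝ) 2 G (e x, 0) :=
        ContMDiffAt.comp (e x, (0 : ℝ)) (g := φ) ((hφ _).of_le two_le_inf) h3
      rw [← modelWithCornersSelf_prod, chartedSpaceSelf_prod] at h4
      exact h4.contDiffAt.differentiableAt (by norm_num)
    set L := fderiv ℝ G (e x, 0) with hL
    have hGL : HasFDerivAt G L (e x, 0) := hGd.hasFDerivAt
    -- the curve in coordinates
    set cc : ℝ → V := fun s => e (T (x, s)) with hcc
    have hc0 : cc 0 = e x := by rw [hcc]; simp only; rw [hT.zero]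
    have hTx : ContMDiffAt 𝓘(ℝ, ℝ) 𝓘(ℝ, V) 2 (fun s : ℝ => T (x, s)) 0 :=
      ContMDiffAt.comp (0 : ℝ) (g := T) (f := fun s : ℝ => (x, s)) (hT.smooth x)
        (contMDiffAt_const.prodMk contMDiffAt_id)
    have hcd : DifferentiableAt ℝ cc 0 := by
      have h1 : ContMDiffAt 𝓘(ℝ, V) 𝓘(ℝ, V) 2 e (T (x, 0)) := by
        rw [hT.zero]
        have : ContMDiffAt 𝓘(ℝ, V) 𝓘(ℝ, V) ∞ e x :=
          contMDiffAt_of_mem_maximalAtlas (IsManifold.subset_maximalAtlas hea) hxs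
        exact this.of_le two_le_inf
      exact ((ContMDiffAt.comp (0 : ℝ) (g := e) h1 hTx).contDiffAt).differentiableAt (by norm_num)
    set w := deriv cc 0 with hw
    have hcw : HasDerivAt cc w 0 := hcd.hasDerivAt
    have hsrc : ∀ᶠ s : ℝ in 𝓝 0, T (x, s) ∈ e.source := by
      have h1 : ∀ᶠ y in 𝓝 (T (x, 0)), y ∈ e.source := by
        rw [hT.zero]
        exact e.open_source.mem_nhds hxs
      exact hTx.continuousAt.eventually h1
    -- total derivative
    have hGL0 : HasFDerivAt G L (cc 0, (0 : ℝ)) := by rw [hc0]; exact hGL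
    have htot : HasDerivAt (fun s : ℝ => G (cc s, s)) (L (w, 1)) 0 :=
      HasFDerivAt.comp_hasDerivAt (f := fun s : ℝ => (cc s, s)) (0 : ℝ) hGL0
        (hcw.prodMk (hasDerivAt_id' (0 : ℝ)))
    have hfirst : HasDerivAt (fun s : ℝ => G (cc s, 0)) (L (w, 0)) 0 :=
      HasFDerivAt.comp_hasDerivAt (f := fun s : ℝ => (cc s, (0 : ℝ))) (0 : ℝ) hGL0
        (hcw.prodMk (hasDerivAt_const (0 : ℝ) (0 : ℝ)))
    have hsecond : HasDerivAt (fun s : ℝ => G (e x, s)) (L (0, 1)) 0 :=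
      hGL.comp_hasDerivAt (0 : ℝ) ((hasDerivAt_const (0 : ℝ) (e x)).prodMk
        (hasDerivAt_id' (0 : ℝ)))
    have e1 : L (w, 0) = l := by
      refine HasDerivAt.unique (hfirst.congr_of_eventuallyEq ?_) hd
      filter_upwards [hsrc] with s hs
      rw [hG, hcc]
      simp only
      rw [e.left_inv hs, hT'.zero]
    have e2 : L (0, 1) = l' := by
      refine HasDerivAt.unique (hsecond.congr_of_eventuallyEq ?_) hd'
      refine Eventually.of_forall fun s => ?_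
      rw [hG]
      simp only
      rw [e.left_inv hxs]
    have e3 : L (w, 1) = l + l' := by
      rw [← e1, ← e2, ← map_add]
      simp
    rw [← e3]
    refine htot.congr_of_eventuallyEq ?_
    filter_upwards [hsrc] with s hs
    rw [hG, hcc]
    simp only
    rw [e.left_inv hs]

lemma push_id (φ : X → ℝ) : PushProp V φ (fun p : X × ℝ => p.1) (∅ : Set X) :=
  ⟨fun _ => rfl, fun _ => contMDiffAt_fst, fun x => ⟨0, le_refl _,
    hasDerivAt_const (0 : ℝ) (φ x), fun h => absurd h (notMem_empty x)⟩⟩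

omit [FiniteDimensional ℝ V] [T2Space X] [IsManifold 𝓘(ℝ, V) ∞ X] in
lemma PushProp.mono {φ : X → ℝ} {T : X × ℝ → X} {S S' : Set X} (h : PushProp V φ T S)
    (hs : S' ⊆ S) : PushProp V φ T S' :=
  ⟨h.zero, h.smooth, fun x => by
    obtain ⟨l, h1, h2, h3⟩ := h.deriv x
    exact ⟨l, h1, h2, fun hx => h3 (hs hx)⟩⟩

lemma exists_push {φ : X → ℝ} (hφ : ContMDiff 𝓘(ℝ, V) 𝓘(ℝ, ℝ) ∞ φ) {K : Set X}
    (hK : IsCompact K)
    (h : ∀ x₀ ∈ K, fderiv ℝ (φ ∘ (chartAt V x₀).symm) (chartAt V x₀ x₀) ≠ 0) :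
    ∃ T : X × ℝ → X, PushProp V φ T K := by
  refine hK.induction_on (p := fun K => ∃ T : X × ℝ → X, PushProp V φ T K) ⟨_, push_id φ⟩ ?_ ?_ ?_
  · rintro s t hst ⟨T, hT⟩
    exact ⟨T, hT.mono hst⟩
  · rintro s t ⟨T, hT⟩ ⟨T', hT'⟩
    exact ⟨_, push_comp hφ hT hT'⟩
  · intro x hx
    obtain ⟨T, U, hU, hT⟩ := push_one hφ (h x hx)
    exact ⟨U, mem_nhdsWithin_of_mem_nhds hU, T, hT⟩

end Pool.Agent.H88.ST
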