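import Pool.Agent.H88.ST.Collar

/-!
# Signs of determinants and the collar theorem
-/

open Set Metric Filter Topology
open scoped Manifold ContDiff

namespace Pool.Agent.H88.ST

/-- six dimensional model -/
abbrev R6 : Type := Fin 6 → ℝ

section linear

variable {V : Type*} [NormedAddCommGroup V] [NormedSpace ℝ V]

/-- combine a functional and five functionals -/
noncomputable def cm (a : V →L[ℝ] ℝ) (B : V →L[ℝ] R5) : V →L[ℝ] R6 :=
  ContinuousLinearMap.pi (Fin.cons a fun i => (pr i).comp B)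

lemma cm_zero (a : V →L[ℝ] ℝ) (B : V →L[ℝ] R5) (w : V) : cm a B w 0 = a w := by
  simp [cm]

lemma cm_succ (a : V →L[ℝ] ℝ) (B : V →L[ℝ] R5) (w : V) (i : Fin 5) :
    cm a B w i.succ = B w i := by
  simp [cm]

lemma cm_comp (a : V →L[ℝ] ℝ) (B : V →L[ℝ] R5) (J : V →L[ℝ] V) :
    cm (a.comp J) (B.comp J) = (cm a B).comp J := by
  ext w i
  refine Fin.cases ?_ (fun i => ?_) i
  · simp [cm_zero]
  · simp [cm_succ]

/-- determinant of a map to `R6` in a fixed frame -/
noncomputable def dt (ι : R6 ≃L[ℝ] V) (L : V →L[ℝ] R6) : ℝ :=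
  (L.comp (ι : R6 →L[ℝ] V)).det

lemma dt_comp (ι : R6 ≃L[ℝ] V) (L : V →L[ℝ] R6) (J : V →L[ℝ] V) :
    dt ι (L.comp J) = dt ι L * J.det := by
  have h1 : ((L.comp J).comp (ι : R6 →L[ℝ] V)) =
      (L.comp (ι : R6 →L[ℝ] V)).comp
        (((ι.symm : V →L[ℝ] R6).comp J).comp (ι : R6 →L[ℝ] V)) := by
    ext w
    simp
  unfold dt
  rw [h1]
  unfold ContinuousLinearMap.det
  rw [ContinuousLinearMap.toLinearMap_comp, LinearMap.det_comp]
  congr 1
  have := LinearMap.det_conj (J : V →ₗ[ℝ] V) ι.symm.toLinearEquiv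
  rw [← this]
  congr 1

lemma dt_continuous (ι : R6 ≃L[ℝ] V) : Continuous (dt ι) := by
  unfold dt
  exact ContinuousLinearMap.continuous_det.comp (by fun_prop)

lemma dt_ne_zero (ι : R6 ≃L[ℝ] V) {L : V →L[ℝ] R6} (h : Function.Injective L) : dt ι L ≠ 0 := by
  intro h0
  have h1 := LinearMap.bot_lt_ker_of_det_eq_zero (f := ((L.comp (ι : R6 →L[ℝ] V) : R6 →L[ℝ] R6) :
    R6 →ₗ[ℝ] R6)) h0
  have h2 : LinearMap.ker ((L.comp (ι : R6 →L[ℝ] V) : R6 →L[ℝ] R6) : R6 →ₗ[ℝ] R6) = ⊥ := by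
    rw [LinearMap.ker_eq_bot]
    intro x y hxy
    exact ι.injective (h hxy)
  rw [h2] at h1
  exact lt_irrefl _ h1

/-- the Maurer-Cartan matrix extended to six dimensions -/
noncomputable def MC6 (q : R5) : R6 →L[ℝ] R6 :=
  ContinuousLinearMap.id ℝ R6 +
    (q 0 • (ContinuousLinearMap.proj 2 : R6 →L[ℝ] ℝ) +
      q 2 • (ContinuousLinearMap.proj 4 : R6 →L[ℝ] ℝ)).smulRight (Pi.single 5 1 : R6)

lemma MC6_det (q : R5) : (MC6 q).det = 1 := by
  have h1 : ((MC6 q : R6 →L[ℝ] R6) : R6 →ₗ[ℝ] R6) =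
      Matrix.toLin' (LinearMap.toMatrix' ((MC6 q : R6 →L[ℝ] R6) : R6 →ₗ[ℝ] R6)) := by
    rw [Matrix.toLin'_toMatrix']
  unfold ContinuousLinearMap.det
  rw [h1, LinearMap.det_toLin', Matrix.det_of_isLowerTriangular]
  · apply Finset.prod_eq_one
    intro i _
    rw [LinearMap.toMatrix'_apply]
    fin_cases i <;> simp [MC6]
  · intro i j hij
    have hij' : i < j := hij
    rw [LinearMap.toMatrix'_apply]
    fin_cases i <;> fin_cases j <;> first | (exfalso; revert hij'; decide) | simp [MC6]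

lemma cm_MC (q : R5) (a : V →L[ℝ] ℝ) (B : V →L[ℝ] R5) :
    cm a ((MC q).comp B) = (MC6 q).comp (cm a B) := by
  ext w i
  rw [ContinuousLinearMap.comp_apply]
  have e2 : cm a B w 2 = B w 1 := cm_succ a B w 1
  have e4 : cm a B w 4 = B w 3 := cm_succ a B w 3
  refine Fin.cases ?_ (fun i => ?_) i
  · simp [cm_zero, MC6]
  · rw [cm_succ]
    simp only [ContinuousLinearMap.comp_apply, MC6, add_apply,
      ContinuousLinearMap.id_apply, ContinuousLinearMap.smulRight_apply, smul_apply,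
      ContinuousLinearMap.proj_apply, Pi.add_apply, Pi.smul_apply, smul_eq_mul, cm_succ, e2, e4]
    rw [MC_apply]
    congr 2
    fin_cases i <;> simp

lemma dt_MC (ι : R6 ≃L[ℝ] V) (q : R5) (a : V →L[ℝ] ℝ) (B : V →L[ℝ] R5) :
    dt ι (cm a ((MC q).comp B)) = dt ι (cm a B) := by
  unfold dt
  rw [cm_MC, ContinuousLinearMap.comp_assoc]
  unfold ContinuousLinearMap.det
  rw [ContinuousLinearMap.toLinearMap_comp, LinearMap.det_comp]
  have := MC6_det q
  unfold ContinuousLinearMap.det at this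
  rw [this, one_mul]

end linear

variable {V : Type*} [NormedAddCommGroup V] [NormedSpace ℝ V] [FiniteDimensional ℝ V]
  {X : Type*} [TopologicalSpace X] [T2Space X] [ChartedSpace V X] [IsManifold 𝓘(ℝ, V) ∞ X]

/-- the determinant of `(dφ, A)` -/
noncomputable def Dt (ι : R6 ≃L[ℝ] V) (φ : X → ℝ) (A : X → V →L[ℝ] R5) (x : X) : ℝ :=
  dt ι (cm (dX φ x) (A x))

/-- orientability of the atlas -/
def Oriented (V : Type*) [NormedAddCommGroup V] [NormedSpace ℝ V] (X : Type*)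
    [TopologicalSpace X] [ChartedSpace V X] : Prop :=
  ∀ e ∈ atlas V X, ∀ z ∈ e.target, 0 < (Js e z).det

omit [FiniteDimensional ℝ V] [T2Space X] in
lemma Dt_chart (ι : R6 ≃L[ℝ] V) {φ : X → ℝ} (hφ : ContMDiff 𝓘(ℝ, V) 𝓘(ℝ, ℝ) ∞ φ)
    (A : X → V →L[ℝ] R5) {e : OpenPartialHomeomorph X V} (he : e ∈ atlas V X) {z : V}
    (hz : z ∈ e.target) :
    dt ι (cm (fderiv ℝ (φ ∘ e.symm) z) (ST.pull e A z)) =
      Dt ι φ A (e.symm z) * (Js e z).det := by
  rw [fderiv_comp_symm he hz ((hφ _).mdifferentiableAt (by simp))]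
  unfold ST.pull Dt
  rw [cm_comp, dt_comp]

omit [FiniteDimensional ℝ V] in
lemma cm_continuousAt {Y : Type*} [TopologicalSpace Y] {a : Y → V →L[ℝ] ℝ}
    {B : Y → V →L[ℝ] R5} {y : Y} (ha : ContinuousAt a y) (hB : ContinuousAt B y) :
    ContinuousAt (fun y => cm (a y) (B y)) y := by
  have h1 : (fun y => cm (a y) (B y)) = fun y =>
      (ContinuousLinearMap.toSpanSingleton ℝ (Pi.single 0 1 : R6)).comp (a y) +
      (ContinuousLinearMap.pi (Fin.cons 0 fun i => pr i) : R5 →L[ℝ] R6).comp (B y) := by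
    funext y
    ext w i
    refine Fin.cases ?_ (fun i => ?_) i
    · simp [cm_zero]
    · simp [cm_succ]
  rw [h1]
  exact (continuousAt_const.clm_comp ha).add (continuousAt_const.clm_comp hB)

omit [FiniteDimensional ℝ V] [T2Space X] in
lemma Dt_pos_nhds (ι : R6 ≃L[ℝ] V) {φ : X → ℝ} (hφ : ContMDiff 𝓘(ℝ, V) 𝓘(ℝ, ℝ) ∞ φ)
    (hor : Oriented V X) {A : X → V →L[ℝ] R5} {x : X} {σ : ℝ}
    (hA : ∃ F : X → R5, ∀ᶠ y in 𝓝 x, DevAt A F y) (h : 0 < σ * Dt ι φ A x) :
    ∀ᶠ y in 𝓝 x, 0 < σ * Dt ι φ A y := by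
  set e := chartAt V x with he
  have hea : e ∈ atlas V X := chart_mem_atlas V x
  have hxs : x ∈ e.source := mem_chart_source V x
  have hzt : e x ∈ e.target := e.map_source hxs
  have hA' : ∃ F : X → R5, ∀ᶠ y in 𝓝 (e.symm (e x)), DevAt A F y := by rwa [e.left_inv hxs]
  obtain ⟨F, hF⟩ := LocDev.pull hea hzt hA'
  have c1 : ContinuousAt (ST.pull e A) (e x) := (EDev_contDiffAt hF).continuousAt
  have c2 : ContinuousAt (fderiv ℝ (φ ∘ e.symm)) (e x) :=
    ((contDiffAt_comp_symm (n := 2) hea hzt ((hφ _).of_le two_le_inf)).fderiv_right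
      (m := 1) (by norm_num)).continuousAt
  have c3 : ContinuousAt (fun z => σ * dt ι (cm (fderiv ℝ (φ ∘ e.symm) z) (ST.pull e A z)))
      (e x) :=
    continuousAt_const.mul ((dt_continuous ι).continuousAt.comp (cm_continuousAt c2 c1))
  have h0 : 0 < σ * dt ι (cm (fderiv ℝ (φ ∘ e.symm) (e x)) (ST.pull e A (e x))) := by
    rw [Dt_chart ι hφ A hea hzt, e.left_inv hxs, ← mul_assoc]
    exact mul_pos h (hor e hea _ hzt)
  filter_upwards [(e.continuousAt hxs).eventually (c3.eventually (lt_mem_nhds h0)),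
    e.open_source.mem_nhds hxs] with y hy hys
  rw [Dt_chart ι hφ A hea (e.map_source hys), e.left_inv hys, ← mul_assoc] at hy
  exact pos_of_mul_pos_left hy (hor e hea _ (e.map_source hys)).le

omit [T2Space X] in
/-- nondegeneracy at the boundary -/
lemma Dt_ne_zero {φ : X → ℝ} {c : ℝ} {f : R5 → X} (hV : Module.finrank ℝ V = 6)
    (ι : R6 ≃L[ℝ] V) (h : Bd V φ c f) {A₀ : X → V →L[ℝ] R5} {q : R5} {Q : X → R5}
    (hQ : ∀ᶠ y in 𝓝 (f q), DevAt A₀ Q y) (hQf : ∀ᶠ p in 𝓝 q, ∃ n, Q (f p) = act n p) :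
    Dt ι φ A₀ (f q) ≠ 0 := by
  set x := f q with hx
  have hφx : φ x = c := (h.range x).2 ⟨q, rfl⟩
  set e := chartAt V x with he
  have hea : e ∈ atlas V X := chart_mem_atlas V x
  have hxs : x ∈ e.source := mem_chart_source V x
  have hzt : e x ∈ e.target := e.map_source hxs
  have hQx := hQ.self_of_nhds
  -- f in the chart
  have hfd : DifferentiableAt ℝ (e ∘ f) q := by
    have h1 : ContMDiffAt 𝓘(ℝ, V) 𝓘(ℝ, V) ∞ e (f q) :=
      contMDiffAt_of_mem_maximalAtlas (IsManifold.subset_maximalAtlas hea) hxs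
    exact ((h1.comp q (h.smooth q)).contDiffAt).differentiableAt (by simp)
  have hfs : ∀ᶠ p in 𝓝 q, f p ∈ e.source :=
    h.smooth.continuous.continuousAt.eventually (e.open_source.mem_nhds hxs)
  set D := fderiv ℝ (φ ∘ e.symm) (e x) with hD
  have hDd : HasFDerivAt (φ ∘ e.symm) D (e x) :=
    ((contDiffAt_comp_symm (n := 2) hea hzt
      ((h.phi _).of_le two_le_inf)).differentiableAt (by norm_num)).hasFDerivAt
  have hDf : D.comp (fderiv ℝ (e ∘ f) q) = 0 := by
    have h1 : HasFDerivAt (φ ∘ f) (D.comp (fderiv ℝ (e ∘ f) q)) q := by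
      have h2 : HasFDerivAt (φ ∘ e.symm) D ((e ∘ f) q) := hDd
      refine (h2.comp q hfd.hasFDerivAt).congr_of_eventuallyEq ?_
      filter_upwards [hfs] with p hp
      simp only [Function.comp_apply]
      rw [e.left_inv hp]
    have h3 : φ ∘ f = fun _ => c := by
      funext p
      exact (h.range _).2 ⟨p, rfl⟩
    rw [h3] at h1
    exact h1.unique (hasFDerivAt_const c q)
  -- kernel of D = range of D f
  have hker : LinearMap.range (fderiv ℝ (e ∘ f) q).toLinearMap = LinearMap.ker D.toLinearMap := by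
    apply Submodule.eq_of_le_of_finrank_eq
    · rintro _ ⟨u, rfl⟩
      rw [LinearMap.mem_ker]
      exact congrArg (fun M : R5 →L[ℝ] ℝ => M u) hDf
    · have h1 : Module.finrank ℝ (LinearMap.range (fderiv ℝ (e ∘ f) q).toLinearMap) = 5 := by
        rw [LinearMap.finrank_range_of_inj (h.imm q)]
        simp
      have h2 := LinearMap.finrank_range_add_finrank_ker D.toLinearMap
      have h3 : LinearMap.range D.toLinearMap = ⊤ := by
        rw [LinearMap.range_eq_top]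
        apply LinearMap.surjective
        intro h0
        apply h.reg x hφx
        ext w
        exact congrArg (fun M : V →ₗ[ℝ] ℝ => M w) h0
      rw [h3, finrank_top, hV, Module.finrank_self] at h2
      rw [h1]
      omega
  -- derivative of Q ∘ f
  obtain ⟨n, hn⟩ : ∃ n, ∀ᶠ p in 𝓝 q, (Q ∘ f) p = act n (id p) := by
    have hc : ContinuousAt (Q ∘ f) q :=
      ContinuousAt.comp hQx.1.continuousAt h.smooth.continuous.continuousAt
    exact loc_const_act continuousAt_id hc hQf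
  have hQd : HasFDerivAt (Q ∘ e.symm) (fderiv ℝ (Q ∘ e.symm) (e x)) (e x) := by
    have h1 : ContMDiffAt 𝓘(ℝ, V) 𝓘(ℝ, R5) 2 Q (e.symm (e x)) := by
      rw [e.left_inv hxs]; exact hQx.1
    exact ((contDiffAt_comp_symm (n := 2) hea hzt h1).differentiableAt (by norm_num)).hasFDerivAt
  have hQf' : (fderiv ℝ (Q ∘ e.symm) (e x)).comp (fderiv ℝ (e ∘ f) q) = Lact n := by
    have h1 : HasFDerivAt (act n) ((fderiv ℝ (Q ∘ e.symm) (e x)).comp (fderiv ℝ (e ∘ f) q)) q := by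
      have h2 : HasFDerivAt (Q ∘ e.symm) (fderiv ℝ (Q ∘ e.symm) (e x)) ((e ∘ f) q) := hQd
      refine (h2.comp q hfd.hasFDerivAt).congr_of_eventuallyEq ?_
      filter_upwards [hfs, hn] with p hp hp'
      simp only [Function.comp_apply]
      rw [e.left_inv hp]
      exact hp'.symm
    exact h1.unique (act_hasFDerivAt n q)
  apply dt_ne_zero
  rw [injective_iff_map_eq_zero]
  intro w hw
  have hw0 : dX φ x w = 0 := by
    have := congrFun hw 0
    rwa [cm_zero] at this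
  have hw1 : A₀ x w = 0 := by
    ext i
    have := congrFun hw i.succ
    rwa [cm_succ] at this
  have hw2 : dX Q x w = 0 := by
    rw [hQx.2] at hw1
    apply MC_inj (q := Q x)
    rw [map_zero]
    exact hw1
  have hJ : w = Js e (e x) (Jc e x w) := by
    have := congrArg (fun M : V →L[ℝ] V => M w) (Js_comp_Jc hea hxs)
    exact this.symm
  have e1 : D (Jc e x w) = 0 := by
    have h1 := fderiv_comp_symm hea hzt (F := φ) ((h.phi _).mdifferentiableAt (by simp))
    rw [hD, h1, e.left_inv hxs, ContinuousLinearMap.comp_apply, ← hJ, hw0]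
  have e2 : fderiv ℝ (Q ∘ e.symm) (e x) (Jc e x w) = 0 := by
    have h0 : MDifferentiableAt 𝓘(ℝ, V) 𝓘(ℝ, R5) Q (e.symm (e x)) := by
      rw [e.left_inv hxs]; exact hQx.1.mdifferentiableAt (by norm_num)
    have h1 := fderiv_comp_symm hea hzt (F := Q) h0
    rw [h1, e.left_inv hxs, ContinuousLinearMap.comp_apply, ← hJ, hw2]
  have e3 : Jc e x w ∈ LinearMap.range (fderiv ℝ (e ∘ f) q).toLinearMap := by
    rw [hker, LinearMap.mem_ker]
    exact e1
  obtain ⟨u, hu⟩ := e3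
  have hu' : fderiv ℝ (e ∘ f) q u = Jc e x w := hu
  have e4 : Lact n u = 0 := by
    rw [← hQf', ContinuousLinearMap.comp_apply, hu', e2]
  have e5 : u = 0 := by
    have h1 : MC q u = MC q 0 := by
      rw [map_zero, ← MC_act n q, ContinuousLinearMap.comp_apply, e4, map_zero]
    exact MC_inj h1
  rw [hJ, ← hu', e5, map_zero, map_zero]

/-- the collar theorem -/
lemma collar {φ : X → ℝ} {c : ℝ} {f : R5 → X} (hV : Module.finrank ℝ V = 6)
    (ι : R6 ≃L[ℝ] V) (hor : Oriented V X) (h : Bd V φ c f) :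
    ∃ (A₀ : X → V →L[ℝ] R5) (c₁ σ : ℝ), c₁ < c ∧ (∀ x, c₁ < φ x → φ x ≤ c →
      ∃ F : X → R5, ∀ᶠ y in 𝓝 x, DevAt A₀ F y) ∧
      ∀ x, c₁ < φ x → φ x ≤ c → 0 < σ * Dt ι φ A₀ x := by
  obtain ⟨A₀, hA₀⟩ := exists_A₀ hV h
  have hne : ∀ q, Dt ι φ A₀ (f q) ≠ 0 := by
    intro q
    obtain ⟨Q, h1, h2⟩ := hA₀ q
    exact Dt_ne_zero hV ι h h1 h2
  set N : Set X := {x | ∃ F : X → R5, ∀ᶠ y in 𝓝 x, DevAt A₀ F y} with hN
  have hNo : IsOpen N := by
    rw [isOpen_iff_mem_nhds]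
    rintro x ⟨F, hF⟩
    filter_upwards [eventually_eventually_nhds.2 hF] with y hy
    exact ⟨F, hy⟩
  have hNf : ∀ q, f q ∈ N := fun q => by
    obtain ⟨Q, h1, -⟩ := hA₀ q
    exact ⟨Q, h1⟩
  have hNσ : ∀ σ : ℝ, IsOpen {x | x ∈ N ∧ 0 < σ * Dt ι φ A₀ x} := by
    intro σ
    rw [isOpen_iff_mem_nhds]
    rintro x ⟨hx1, hx2⟩
    filter_upwards [hNo.mem_nhds hx1, Dt_pos_nhds ι h.phi hor hx1 hx2] with y h1 h2
    exact ⟨h1, h2⟩
  have hfc : Continuous f := h.smooth.continuous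
  -- one sign
  obtain ⟨σ, hσ⟩ : ∃ σ : ℝ, ∀ q, 0 < σ * Dt ι φ A₀ (f q) := by
    set P : Set R5 := f ⁻¹' {x | x ∈ N ∧ 0 < (1 : ℝ) * Dt ι φ A₀ x} with hP
    set M : Set R5 := f ⁻¹' {x | x ∈ N ∧ 0 < (-1 : ℝ) * Dt ι φ A₀ x} with hM
    have hPo : IsOpen P := (hNσ 1).preimage hfc
    have hMo : IsOpen M := (hNσ (-1)).preimage hfc
    have hPM : P ∪ M = univ := by
      rw [eq_univ_iff_forall]
      intro q
      rcases lt_or_gt_of_ne (hne q) with h1 | h1
      · exact Or.inr ⟨hNf q, by linarith⟩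
      · exact Or.inl ⟨hNf q, by linarith⟩
    have hdisj : P ∩ M = ∅ := by
      rw [eq_empty_iff_forall_notMem]
      rintro q ⟨h1, h2⟩
      have := h1.2
      have := h2.2
      linarith
    have hcl : IsClopen P := by
      refine ⟨?_, hPo⟩
      have : P = Mᶜ := by
        ext q
        constructor
        · intro h1 h2
          have : q ∈ P ∩ M := ⟨h1, h2⟩
          rw [hdisj] at this
          exact this
        · intro h1
          have : q ∈ P ∪ M := by rw [hPM]; trivial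
          exact this.resolve_right h1
      rw [this]
      exact hMo.isClosed_compl
    rcases isClopen_iff.1 hcl with h1 | h1
    · refine ⟨-1, fun q => ?_⟩
      have : q ∈ P ∪ M := by rw [hPM]; trivial
      rw [h1, empty_union] at this
      exact this.2
    · refine ⟨1, fun q => ?_⟩
      have : q ∈ P := by rw [h1]; trivial
      exact this.2
  set W : Set X := {x | x ∈ N ∧ 0 < σ * Dt ι φ A₀ x} with hW
  have hWf : ∀ x, φ x = c → x ∈ W := by
    intro x hx
    obtain ⟨q, rfl⟩ := (h.range x).1 hx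
    exact ⟨hNf q, hσ q⟩
  -- compactness
  have hK' : IsCompact ({x | φ x ≤ c} ∩ Wᶜ) := h.cpt.inter_right (hNσ σ).isClosed_compl
  obtain ⟨c₁, hc₁, hc₁'⟩ : ∃ c₁ < c, ∀ x ∈ {x | φ x ≤ c} ∩ Wᶜ, φ x ≤ c₁ := by
    rcases ({x | φ x ≤ c} ∩ Wᶜ).eq_empty_or_nonempty with he | hne'
    · exact ⟨c - 1, by linarith, by simp [he]⟩
    · obtain ⟨y, hy, hmax⟩ := hK'.exists_isMaxOn hne' h.phi.continuous.continuousOn
      refine ⟨φ y, lt_of_le_of_ne hy.1 fun h1 => hy.2 (hWf y h1), fun z hz => hmax hz⟩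
  have key : ∀ x, c₁ < φ x → φ x ≤ c → x ∈ W := by
    intro x h1 h2
    by_contra hcon
    have := hc₁' x ⟨h2, hcon⟩
    linarith
  exact ⟨A₀, c₁, σ, hc₁, fun x h1 h2 => (key x h1 h2).1, fun x h1 h2 => (key x h1 h2).2⟩

end Pool.Agent.H88.ST
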